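import Mathlib
import Pool.Agent.R404.TC.Sums

/-!
Counting exponents.
-/

set_option autoImplicit false

namespace Pool.Agent.H7C

open Finset
open Pool.Agent.R404.TC (S S_lt S_ge)

/-- the exponents of degree `t` -/
def AA (n t : ℕ) : Finset (Fin n →₀ ℕ) := (univ : Finset (Fin n)).finsuppAntidiag t

theorem mem_AA {n t : ℕ} {γ : Fin n →₀ ℕ} : γ ∈ AA n t ↔ ∑ a, γ a = t := by
  unfold AA
  rw [mem_finsuppAntidiag]
  constructor
  · exact fun h => h.1
  · exact fun h => ⟨h, Finset.subset_univ _⟩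

/-- their number -/
def NN (n t : ℕ) : ℕ := (AA n t).card

theorem NN_eq (n t : ℕ) : NN n t = (n + t - 1).choose t := by
  unfold NN AA
  rw [card_finsuppAntidiag_nat_eq_choose, Finset.card_univ, Fintype.card_fin]

theorem NN_step {n : ℕ} (hn : 1 ≤ n) (t : ℕ) : (t + 1) * NN n (t + 1) = (n + t) * NN n t := by
  rw [NN_eq, NN_eq]
  have h1 : n + (t + 1) - 1 = n + t - 1 + 1 := by omega
  have h2 := Nat.add_one_mul_choose_eq (n + t - 1) t
  rw [h1]
  have h3 : n + t - 1 + 1 = n + t := by omega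
  rw [h3] at h2 ⊢
  rw [h2]
  ring

theorem NN_pos {n : ℕ} (hn : 1 ≤ n) (t : ℕ) : 0 < NN n t := by
  rw [NN_eq]
  exact Nat.choose_pos (by omega)

theorem NN_mono {n : ℕ} (hn : 1 ≤ n) : Monotone (NN n) := by
  refine monotone_nat_of_le_succ fun t => ?_
  have h1 := NN_step hn t
  have h2 : (t + 1) * NN n t ≤ (n + t) * NN n t := Nat.mul_le_mul_right _ (by omega)
  rw [← h1] at h2
  exact Nat.le_of_mul_le_mul_left h2 (by omega)

theorem NN_sum {n : ℕ} (hn : 1 ≤ n) (t : ℕ) : n * ∑ s ∈ range t, NN n s = t * NN n t := by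
  induction t with
  | zero => simp
  | succ t ih =>
    rw [sum_range_succ, mul_add, ih, NN_step hn]
    ring

theorem S_NN {n : ℕ} (hn : 1 ≤ n) {g : ℕ} (hg : 0 < g) (t : ℕ) :
    ∑ s ∈ range (t + 1), NN n s ≤ g * S g (NN n) t := by
  induction t using Nat.strong_induction_on with
  | _ t ih =>
    by_cases h : t < g
    · rw [S_lt _ h]
      calc _ ≤ ∑ s ∈ range (t + 1), NN n t := by
            refine Finset.sum_le_sum fun s hs => NN_mono hn ?_
            rw [Finset.mem_range] at hs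
            omega
        _ = (t + 1) * NN n t := by rw [Finset.sum_const, card_range, smul_eq_mul]
        _ ≤ _ := Nat.mul_le_mul_right _ (by omega)
    · push Not at h
      have h1 := ih (t - g) (by omega)
      rw [S_ge hg _ h, mul_add]
      have h2 : range (t + 1) = range (t - g + 1 + g) := by
        congr 1
        omega
      rw [h2, Finset.sum_range_add]
      have h3 : ∑ x ∈ range g, NN n (t - g + 1 + x) ≤ g * NN n t := by
        calc _ ≤ ∑ s ∈ range g, NN n t := by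
              refine Finset.sum_le_sum fun s hs => NN_mono hn ?_
              rw [Finset.mem_range] at hs
              omega
          _ = _ := by rw [Finset.sum_const, card_range, smul_eq_mul]
      omega

theorem S_low {n : ℕ} (hn : 1 ≤ n) {g : ℕ} (hg : 0 < g) (t : ℕ) :
    (t + 1) * NN n (t + 1) ≤ n * (g * S g (NN n) t) := by
  rw [← NN_sum hn]
  exact Nat.mul_le_mul_left _ (S_NN hn hg t)

/-- the growth -/
theorem NN_near {n : ℕ} (hn : 1 ≤ n) (m : ℕ) : ∀ ε : ℝ, 0 < ε → ∃ t0 : ℕ, ∀ t, t0 ≤ t →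
    (1 - ε) * (t * NN n t : ℕ) ≤ ((t - m) * NN n (t - m) : ℕ) := by
  induction m with
  | zero =>
    intro ε hε
    refine ⟨0, fun t _ => ?_⟩
    rw [Nat.sub_zero]
    have : (0 : ℝ) ≤ (t * NN n t : ℕ) := Nat.cast_nonneg _
    nlinarith
  | succ m ih =>
    intro ε hε
    obtain ⟨t0, ht0⟩ := ih (ε / 2) (by positivity)
    obtain ⟨t1, ht1⟩ := exists_nat_gt (2 * n / ε : ℝ)
    refine ⟨t0 + t1 + m + 1, fun t ht => ?_⟩
    have h1 := ht0 t (by omega)
    obtain ⟨u, hu⟩ : ∃ u, t - m = u + 1 := ⟨t - m - 1, by omega⟩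
    have h2 : t - (m + 1) = u := by omega
    rw [h2]
    rw [hu] at h1
    have h3 := NN_step hn u
    rw [h3] at h1
    have hut : t1 ≤ u := by omega
    have h4 : (2 * n / ε : ℝ) < u := lt_of_lt_of_le ht1 (by exact_mod_cast hut)
    rw [div_lt_iff₀ hε] at h4
    have h5 : (n : ℝ) ≤ ε / 2 * u := by linarith
    have h6 : (0 : ℝ) ≤ NN n u := Nat.cast_nonneg _
    have hu0 : (0 : ℝ) ≤ u := Nat.cast_nonneg _
    push_cast at h1 ⊢
    have h7 : (0 : ℝ) ≤ (t : ℝ) * NN n t := by positivity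
    -- (1 - ε/2) T ≤ (n + u) N, and n ≤ ε/2 u
    have h8 : ((n : ℝ) + u) * NN n u ≤ (1 + ε / 2) * (u * NN n u) := by nlinarith
    have h9 : (1 - ε / 2) * ((t : ℝ) * NN n t) ≤ (1 + ε / 2) * (u * NN n u) := h1.trans h8
    have h10 : (0 : ℝ) ≤ u * NN n u := by positivity
    by_cases hε1 : ε ≤ 2
    · have h11 : (1 - ε) * ((t : ℝ) * NN n t) * (1 + ε / 2) ≤
          (1 - ε / 2) * ((t : ℝ) * NN n t) := by nlinarith [sq_nonneg ε]
      have h12 : (1 - ε) * ((t : ℝ) * NN n t) * (1 + ε / 2) ≤ (u * NN n u) * (1 + ε / 2) := by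
        linarith
      exact le_of_mul_le_mul_right h12 (by positivity)
    · push Not at hε1
      nlinarith

theorem S_near {n : ℕ} (hn : 1 ≤ n) {g : ℕ} (hg : 0 < g) (ε : ℝ) (hε : 0 < ε) :
    ∃ t0 : ℕ, ∀ t, t0 ≤ t →
      (1 - ε) * ((t : ℝ) * NN n t) ≤ (n : ℝ) * (g * (S g (NN n) (t - g) : ℕ)) := by
  obtain ⟨t0, ht0⟩ := NN_near hn (g - 1) ε hε
  refine ⟨t0 + g, fun t ht => ?_⟩
  have h1 := ht0 t (by omega)
  have h2 := S_low hn hg (t - g)
  have h3 : t - g + 1 = t - (g - 1) := by omega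
  rw [h3] at h2
  have h4 : (((t - (g - 1)) * NN n (t - (g - 1)) : ℕ) : ℝ) ≤
      ((n * (g * S g (NN n) (t - g)) : ℕ) : ℝ) := by exact_mod_cast h2
  push_cast at h1 h4 ⊢
  linarith

/-- the largest power -/
def jj {n : ℕ} (e : Fin n →₀ ℕ) (t : ℕ) (γ : Fin n →₀ ℕ) : ℕ :=
  Nat.findGreatest (fun i => ∀ a, i * e a ≤ γ a) t

theorem jj_spec {n : ℕ} (e : Fin n →₀ ℕ) (t : ℕ) (γ : Fin n →₀ ℕ) (a : Fin n) :
    jj e t γ * e a ≤ γ a := by
  have h := Nat.findGreatest_spec (P := fun i => ∀ a, i * e a ≤ γ a) (Nat.zero_le t)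
    (fun a => by simp)
  exact h a

theorem le_jj {n : ℕ} (e : Fin n →₀ ℕ) (t : ℕ) (γ : Fin n →₀ ℕ) :
    ((range t).filter fun i => ∀ a, (i + 1) * e a ≤ γ a).card ≤ jj e t γ := by
  have h : ((range t).filter fun i => ∀ a, (i + 1) * e a ≤ γ a) ⊆ range (jj e t γ) := by
    intro i hi
    rw [Finset.mem_filter, Finset.mem_range] at hi
    rw [Finset.mem_range]
    have h1 : i + 1 ≤ Nat.findGreatest (fun i => ∀ a, i * e a ≤ γ a) t :=
      Nat.le_findGreatest (by omega) hi.2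
    exact h1
  have h2 := Finset.card_le_card h
  rwa [Finset.card_range] at h2

theorem sum_jj {n : ℕ} (e : Fin n →₀ ℕ) {g : ℕ} (hg : 0 < g) (he : ∑ a, e a = g) {t : ℕ}
    (ht : g ≤ t) : S g (NN n) (t - g) ≤ ∑ γ ∈ AA n t, jj e t γ := by
  classical
  have h1 : ∑ γ ∈ AA n t, ((range t).filter fun i => ∀ a, (i + 1) * e a ≤ γ a).card ≤
      ∑ γ ∈ AA n t, jj e t γ := Finset.sum_le_sum fun γ _ => le_jj e t γ
  refine le_trans ?_ h1
  simp only [Finset.card_filter]
  rw [Finset.sum_comm]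
  have h2 : ∀ i, ∑ γ ∈ AA n t, (if ∀ a, (i + 1) * e a ≤ γ a then 1 else 0) =
      ((AA n t).filter fun γ => ∀ a, (i + 1) * e a ≤ γ a).card := by
    intro i
    rw [Finset.card_filter]
  simp only [h2]
  have h3 : ∀ i, (i + 1) * g ≤ t → NN n (t - (i + 1) * g) ≤
      ((AA n t).filter fun γ => ∀ a, (i + 1) * e a ≤ γ a).card := by
    intro i hi
    unfold NN
    refine Finset.card_le_card_of_injOn (fun γ => γ + (i + 1) • e) ?_ ?_
    · intro γ hγ
      have hγ' := mem_AA.1 (Finset.mem_coe.1 hγ)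
      rw [Finset.mem_coe, Finset.mem_filter, mem_AA]
      constructor
      · simp only [Finsupp.add_apply, Finsupp.smul_apply, smul_eq_mul]
        rw [Finset.sum_add_distrib, ← Finset.mul_sum, he, hγ']
        omega
      · intro a
        simp
    · intro γ _ γ' _ h
      exact add_right_cancel h
  unfold S
  have h4 : ∀ a ∈ range ((t - g) / g + 1), NN n (t - g - a * g) ≤
      ((AA n t).filter fun γ => ∀ b, (a + 1) * e b ≤ γ b).card := by
    intro a ha
    rw [Finset.mem_range] at ha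
    have h5 : a ≤ (t - g) / g := by omega
    have h6 : a * g ≤ t - g := by
      calc a * g ≤ (t - g) / g * g := Nat.mul_le_mul_right _ h5
        _ ≤ _ := Nat.div_mul_le_self _ _
    have h7 : t - g - a * g = t - (a + 1) * g := by
      rw [Nat.sub_sub]
      congr 1
      ring
    rw [h7]
    refine h3 a ?_
    have : (a + 1) * g = a * g + g := by ring
    omega
  refine (Finset.sum_le_sum h4).trans ?_
  refine Finset.sum_le_sum_of_subset ?_
  intro a ha
  rw [Finset.mem_range] at ha ⊢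
  have h5 : (t - g) / g ≤ t - g := Nat.div_le_self _ _
  omega

/-- the sums of the exponents -/
theorem sum_exp {n : ℕ} (t : ℕ) (a : Fin n) :
    n * ∑ γ ∈ AA n t, γ a = t * NN n t := by
  classical
  have h1 : ∀ b : Fin n, ∑ γ ∈ AA n t, γ b = ∑ γ ∈ AA n t, γ a := by
    intro b
    refine Finset.sum_bij' (fun γ _ => γ.equivMapDomain (Equiv.swap a b))
      (fun γ _ => γ.equivMapDomain (Equiv.swap a b)) ?_ ?_ ?_ ?_ ?_
    · intro γ hγ
      rw [mem_AA] at hγ ⊢
      rw [← hγ]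
      exact Equiv.sum_comp (Equiv.swap a b).symm (fun i => γ i)
    · intro γ hγ
      rw [mem_AA] at hγ ⊢
      rw [← hγ]
      exact Equiv.sum_comp (Equiv.swap a b).symm (fun i => γ i)
    · intro γ _
      ext i
      simp [Finsupp.equivMapDomain_apply]
    · intro γ _
      ext i
      simp [Finsupp.equivMapDomain_apply]
    · intro γ _
      simp [Finsupp.equivMapDomain_apply]
  have h2 : ∑ b, ∑ γ ∈ AA n t, γ b = t * NN n t := by
    rw [Finset.sum_comm]
    have h3 : ∀ γ ∈ AA n t, ∑ b, γ b = t := fun γ hγ => mem_AA.1 hγ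
    rw [Finset.sum_congr rfl h3, Finset.sum_const, smul_eq_mul, mul_comm]
    rfl
  rw [← h2, Finset.sum_congr rfl fun b _ => h1 b, Finset.sum_const, Finset.card_univ,
    Fintype.card_fin, smul_eq_mul]

end Pool.Agent.H7C
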