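import Mathlib
import Pool.Agent.R405.SchV

/-!
Families of forms with distinct leading monomials.
-/

set_option autoImplicit false
set_option linter.unusedSectionVars false

namespace Pool.Agent.H7C

open MvPolynomial Finset
open Pool.Agent.R405 (lff lff_hom eval_lff)

variable {K : Type} [Field K] {n : ℕ}

/-- elements with independent leading coefficients are independent -/
theorem indep_lead {ι : Type} [Fintype ι] (w : ι → ℕ) (q : ι → MvPolynomial (Fin n) K)
    (r : ι → Polynomial (MvPolynomial (Fin n) K))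
    (hq : ∀ c : ι → K, ∑ i, C (c i) * q i = 0 → ∀ i, c i = 0) (c : ι → K)
    (h : ∑ i, Polynomial.C (C (c i)) * (Polynomial.X ^ w i *
      (Polynomial.C (q i) + Polynomial.X * r i)) = 0) : ∀ i, c i = 0 := by
  classical
  by_contra hcon
  push Not at hcon
  obtain ⟨i0, hi0, hmin⟩ := Finset.exists_min_image (univ.filter fun i => c i ≠ 0) w
    (by obtain ⟨i, hi⟩ := hcon; exact ⟨i, by simpa using hi⟩)
  have hi0' : c i0 ≠ 0 := by simpa using hi0
  have h1 := congrArg (fun p : Polynomial (MvPolynomial (Fin n) K) => p.coeff (w i0)) h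
  simp only [Polynomial.finset_sum_coeff, Polynomial.coeff_zero] at h1
  have h2 : ∀ i, (Polynomial.C (C (c i)) * (Polynomial.X ^ w i *
      (Polynomial.C (q i) + Polynomial.X * r i))).coeff (w i0) =
      C (if w i = w i0 then c i else 0) * q i := by
    intro i
    rw [Polynomial.coeff_C_mul]
    by_cases hc : c i = 0
    · rw [hc]
      simp
    · have hle : w i0 ≤ w i := hmin i (by simpa using hc)
      rw [Polynomial.coeff_X_pow_mul']
      by_cases he : w i = w i0
      · rw [if_pos he.le, if_pos he, he, Nat.sub_self, Polynomial.coeff_add,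
          Polynomial.coeff_C_zero, Polynomial.mul_coeff_zero, Polynomial.coeff_X_zero, zero_mul,
          add_zero]
      · rw [if_neg (by omega), if_neg he]
        simp
  rw [Finset.sum_congr rfl fun i _ => h2 i] at h1
  have h3 := hq _ h1 i0
  rw [if_pos rfl] at h3
  exact hi0' h3

/-- the leading term of a polynomial whose support has a unique element of smallest weight -/
theorem lead_Q (ω : Fin n → ℕ) (Q : MvPolynomial (Fin n) K) (e : Fin n →₀ ℕ)
    (he : ∀ m ∈ Q.support, m ≠ e → ∑ a, ω a * e a < ∑ a, ω a * m a) :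
    ∃ r : Polynomial (MvPolynomial (Fin n) K),
      aeval (fun a => Polynomial.X ^ ω a * Polynomial.C (X a)) Q =
        Polynomial.X ^ (∑ a, ω a * e a) *
          (Polynomial.C (C (coeff e Q) * monomial e 1) + Polynomial.X * r) := by
  classical
  have hmon : ∀ m : Fin n →₀ ℕ,
      aeval (fun a => (Polynomial.X ^ ω a * Polynomial.C (X a) :
        Polynomial (MvPolynomial (Fin n) K))) (monomial m (coeff m Q)) =
      Polynomial.X ^ (∑ a, ω a * m a) * Polynomial.C (C (coeff m Q) * monomial m 1) := by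
    intro m
    rw [aeval_monomial, Finsupp.prod_fintype _ _ (fun a => by simp)]
    simp only [mul_pow, Finset.prod_mul_distrib, ← pow_mul, ← map_pow]
    rw [Finset.prod_pow_eq_pow_sum, ← map_prod]
    have h1 : (∏ a, (X a : MvPolynomial (Fin n) K) ^ m a) = monomial m 1 := by
      rw [monomial_eq, C_1, one_mul, Finsupp.prod_fintype _ _ (fun a => by simp)]
    have h2 : algebraMap K (Polynomial (MvPolynomial (Fin n) K)) (coeff m Q) =
        Polynomial.C (C (coeff m Q)) := rfl
    rw [h1, h2, map_mul]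
    ring
  have hex : ∀ m ∈ Q.support.erase e, ∃ r : Polynomial (MvPolynomial (Fin n) K),
      aeval (fun a => (Polynomial.X ^ ω a * Polynomial.C (X a) :
        Polynomial (MvPolynomial (Fin n) K))) (monomial m (coeff m Q)) =
        Polynomial.X ^ (∑ a, ω a * e a) * (Polynomial.X * r) := by
    intro m hm
    have h1 := he m (Finset.mem_of_mem_erase hm) (Finset.ne_of_mem_erase hm)
    refine ⟨Polynomial.X ^ (∑ a, ω a * m a - ∑ a, ω a * e a - 1) *
      Polynomial.C (C (coeff m Q) * monomial m 1), ?_⟩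
    rw [hmon]
    have h2 : ∑ a, ω a * m a = ∑ a, ω a * e a + (1 +
        (∑ a, ω a * m a - ∑ a, ω a * e a - 1)) := by omega
    conv_lhs => rw [h2, pow_add, pow_add, pow_one]
    ring
  choose! r hr using hex
  refine ⟨∑ m ∈ Q.support.erase e, r m, ?_⟩
  conv_lhs => rw [Q.as_sum, map_sum]
  by_cases heQ : e ∈ Q.support
  · rw [← Finset.add_sum_erase _ _ heQ, hmon e, Finset.sum_congr rfl hr, ← Finset.mul_sum,
      ← Finset.mul_sum]
    ring
  · have h0 : coeff e Q = 0 := by
      rwa [notMem_support_iff] at heQ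
    have h1 : Q.support = Q.support.erase e := (Finset.erase_eq_of_notMem heQ).symm
    conv_lhs => rw [h1]
    rw [Finset.sum_congr rfl hr, ← Finset.mul_sum, ← Finset.mul_sum, h0]
    simp

/-- the forms of the family: powers of `Q` in the coordinates `β` times linear forms -/
noncomputable def mem (β : Fin n → Fin n → K) (Q : MvPolynomial (Fin n) K) (e : Fin n →₀ ℕ)
    (γ : Fin n →₀ ℕ) (j : ℕ) : MvPolynomial (Fin n) K :=
  (aeval (fun a => lff (β a)) Q) ^ j * ∏ a, lff (β a) ^ (γ a - j * e a)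

/-- the change of coordinates -/
theorem exists_psi (β : Fin n → Fin n → K) (hβ : (Matrix.of β).det ≠ 0) (ω : Fin n → ℕ) :
    ∃ ψ : MvPolynomial (Fin n) K →ₐ[K] Polynomial (MvPolynomial (Fin n) K),
      ∀ a, ψ (lff (β a)) = Polynomial.X ^ ω a * Polynomial.C (X a) := by
  classical
  set U := (Matrix.of β)⁻¹ with hU
  have hUβ : Matrix.of β * U = 1 := Matrix.mul_nonsing_inv _ (isUnit_iff_ne_zero.2 hβ)
  refine ⟨aeval fun b => ∑ a, Polynomial.C (C (U b a)) *
    (Polynomial.X ^ ω a * Polynomial.C (X a)), fun a => ?_⟩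
  have h1 : lff (β a) = ∑ b, C (β a b) * X b := rfl
  rw [h1, map_sum]
  simp only [map_mul, aeval_X]
  have h2 : ∀ c : K, aeval (fun b => ∑ a, Polynomial.C (C (U b a)) *
      ((Polynomial.X : Polynomial (MvPolynomial (Fin n) K)) ^ ω a * Polynomial.C (X a)))
      (C c : MvPolynomial (Fin n) K) = Polynomial.C (C c) := fun c => by
    rw [aeval_C]
    rfl
  simp only [h2, Finset.mul_sum]
  rw [Finset.sum_comm]
  have h3 : ∀ a', ∑ b, Polynomial.C (C (β a b)) * (Polynomial.C (C (U b a')) *
      ((Polynomial.X : Polynomial (MvPolynomial (Fin n) K)) ^ ω a' * Polynomial.C (X a'))) =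
      Polynomial.C (C ((Matrix.of β * U) a a')) *
        (Polynomial.X ^ ω a' * Polynomial.C (X a')) := by
    intro a'
    rw [Matrix.mul_apply, map_sum, map_sum, Finset.sum_mul]
    refine Finset.sum_congr rfl fun b _ => ?_
    rw [Matrix.of_apply, map_mul, map_mul]
    ring
  rw [Finset.sum_congr rfl fun a' _ => h3 a', hUβ, Finset.sum_eq_single a]
  · simp
  · intro a' _ ha'
    rw [Matrix.one_apply_ne (Ne.symm ha')]
    simp
  · intro h
    exact absurd (Finset.mem_univ _) h

theorem mem_lead {β : Fin n → Fin n → K} {ω : Fin n → ℕ} {Q : MvPolynomial (Fin n) K}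
    {e : Fin n →₀ ℕ} (he : ∀ m ∈ Q.support, m ≠ e → ∑ a, ω a * e a < ∑ a, ω a * m a)
    (ψ : MvPolynomial (Fin n) K →ₐ[K] Polynomial (MvPolynomial (Fin n) K))
    (hψ : ∀ a, ψ (lff (β a)) = Polynomial.X ^ ω a * Polynomial.C (X a)) (γ : Fin n →₀ ℕ) (j : ℕ)
    (hj : ∀ a, j * e a ≤ γ a) : ∃ r : Polynomial (MvPolynomial (Fin n) K),
      ψ (mem β Q e γ j) = Polynomial.X ^ (∑ a, ω a * γ a) *
        (Polynomial.C (C (coeff e Q ^ j) * monomial γ 1) + Polynomial.X * r) := by
  classical
  obtain ⟨r, hr⟩ := lead_Q ω Q e he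
  have h1 : ψ (aeval (fun a => lff (β a)) Q) =
      aeval (fun a => Polynomial.X ^ ω a * Polynomial.C (X a)) Q := by
    rw [← AlgHom.comp_apply]
    congr 1
    apply MvPolynomial.algHom_ext
    intro a
    rw [AlgHom.comp_apply, aeval_X, aeval_X, hψ]
  have h2 : ψ (∏ a, lff (β a) ^ (γ a - j * e a)) =
      Polynomial.X ^ (∑ a, ω a * (γ a - j * e a)) *
        Polynomial.C (∏ a, X a ^ (γ a - j * e a)) := by
    rw [map_prod]
    simp only [map_pow, hψ, mul_pow, Finset.prod_mul_distrib, ← pow_mul]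
    rw [Finset.prod_pow_eq_pow_sum, map_prod]
    simp only [map_pow]
  obtain ⟨s, hs⟩ : ∃ s : Polynomial (MvPolynomial (Fin n) K),
      (Polynomial.C (C (coeff e Q) * monomial e 1) + Polynomial.X * r) ^ j =
        Polynomial.C ((C (coeff e Q) * monomial e 1) ^ j) + Polynomial.X * s := by
    have h3 : Polynomial.X ∣ (Polynomial.C (C (coeff e Q) * monomial e 1) +
        Polynomial.X * r) ^ j - (Polynomial.C (C (coeff e Q) * monomial e 1)) ^ j := by
      refine dvd_trans ?_ (sub_dvd_pow_sub_pow _ _ j)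
      rw [add_sub_cancel_left]
      exact Dvd.intro _ rfl
    obtain ⟨s, hs⟩ := h3
    refine ⟨s, ?_⟩
    rw [← hs, map_pow]
    ring
  refine ⟨s * Polynomial.C (∏ a, X a ^ (γ a - j * e a)), ?_⟩
  have h4 : (C (coeff e Q) * monomial e 1 : MvPolynomial (Fin n) K) ^ j *
      ∏ a, X a ^ (γ a - j * e a) = C (coeff e Q ^ j) * monomial γ 1 := by
    rw [mul_pow, ← map_pow, monomial_eq, monomial_eq, C_1, one_mul, one_mul,
      Finsupp.prod_fintype _ _ (fun a => by simp), Finsupp.prod_fintype _ _ (fun a => by simp),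
      ← Finset.prod_pow, mul_assoc, ← Finset.prod_mul_distrib]
    congr 1
    refine Finset.prod_congr rfl fun a _ => ?_
    rw [← pow_mul, ← pow_add]
    congr 1
    have := hj a
    rw [mul_comm (e a) j]
    omega
  have h5 : (∑ a, ω a * e a) * j + ∑ a, ω a * (γ a - j * e a) = ∑ a, ω a * γ a := by
    rw [Finset.sum_mul, ← Finset.sum_add_distrib]
    refine Finset.sum_congr rfl fun a _ => ?_
    have h6 : γ a = j * e a + (γ a - j * e a) := by
      have := hj a
      omega
    conv_rhs => rw [h6]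
    ring
  unfold mem
  rw [map_mul, map_pow, h1, hr, h2, mul_pow, ← pow_mul, hs, ← h4, ← h5, pow_add, map_mul]
  ring

/-- the family is independent -/
theorem mem_indep {β : Fin n → Fin n → K} (hβ : (Matrix.of β).det ≠ 0) {ω : Fin n → ℕ}
    {Q : MvPolynomial (Fin n) K} {e : Fin n →₀ ℕ} (he0 : coeff e Q ≠ 0)
    (he : ∀ m ∈ Q.support, m ≠ e → ∑ a, ω a * e a < ∑ a, ω a * m a)
    (A : Finset (Fin n →₀ ℕ)) (j : (Fin n →₀ ℕ) → ℕ) (hj : ∀ γ a, j γ * e a ≤ γ a)
    (c : A → K) (h : ∑ γ : A, C (c γ) * mem β Q e γ.1 (j γ.1) = 0) : ∀ γ, c γ = 0 := by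
  classical
  obtain ⟨ψ, hψ⟩ := exists_psi β hβ ω
  have h1 := fun γ : A => mem_lead he ψ hψ γ.1 (j γ.1) (hj γ.1)
  choose r hr using h1
  have h2 := congrArg ψ h
  rw [map_sum, map_zero] at h2
  have hC : ∀ c : K, ψ (C c) = Polynomial.C (C c) := fun c => ψ.commutes c
  simp only [map_mul, hC, hr] at h2
  refine indep_lead (fun γ : A => ∑ a, ω a * γ.1 a)
    (fun γ => C (coeff e Q ^ j γ.1) * monomial γ.1 1) r ?_ c ?_
  · intro c hc γ
    have h3 := congrArg (coeff γ.1) hc
    rw [coeff_sum, Finset.sum_eq_single γ, coeff_C_mul, coeff_C_mul, coeff_monomial,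
      if_pos rfl, coeff_zero, mul_one] at h3
    · rcases mul_eq_zero.1 h3 with h4 | h4
      · exact h4
      · exact absurd h4 (pow_ne_zero _ he0)
    · intro γ' _ hne
      rw [coeff_C_mul, coeff_C_mul, coeff_monomial, if_neg (fun h => hne (Subtype.ext h)),
        mul_zero, mul_zero]
    · intro h
      exact absurd (Finset.mem_univ _) h
  · rw [← h2]
    refine Finset.sum_congr rfl fun γ _ => ?_
    simp only [map_mul]

end Pool.Agent.H7C
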