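import Mathlib
import Pool.Agent.H7C.Lead
import Pool.Agent.H7C.Cnt
import Pool.Agent.H7V1.Sel
import Pool.Agent.R404.TC.Sub
import Pool.Agent.R404.TC.Loc1

/-!
The subspace theorem with a hypersurface.
-/

set_option autoImplicit false
set_option linter.unusedSectionVars false

namespace Pool.Agent.H7C

open MvPolynomial Finset Module Height NumberField
open Pool.Agent.W180.OP (Pl av wt nrm le_nrm nrm_pos nrm_nonneg exists_nrm lam lam_eq wt_nonneg)
open Pool.Agent.R405 (Good up up_ne lff lff_hom eval_lff dot)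
open Pool.Agent.R404.TC (word word_hom exists_words sub_fam eval_comb S)
open Pool.Agent.H7V1 (ph ph_low)

variable {K : Type} [Field K] {n : ℕ}

theorem mem_hom {β : Fin n → Fin n → K} {Q : MvPolynomial (Fin n) K} {g : ℕ}
    (hQ : Q.IsHomogeneous g) {e : Fin n →₀ ℕ} (he : ∑ a, e a = g) {t : ℕ} {γ : Fin n →₀ ℕ}
    (hγ : ∑ a, γ a = t) {j : ℕ} (hj : ∀ a, j * e a ≤ γ a) :
    (mem β Q e γ j).IsHomogeneous t := by
  have h1 : (aeval (fun a => lff (β a)) Q).IsHomogeneous g := by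
    have h := hQ.aeval (fun a => lff (β a)) (n := 1) (fun a => lff_hom (β a))
    rwa [one_mul] at h
  have h2 : (∏ a, lff (β a) ^ (γ a - j * e a)).IsHomogeneous (∑ a, (γ a - j * e a)) := by
    refine IsHomogeneous.prod _ _ _ fun a _ => ?_
    have h := (lff_hom (β a)).pow (γ a - j * e a)
    rwa [one_mul] at h
  have h3 : g * j + ∑ a, (γ a - j * e a) = t := by
    rw [← hγ, ← he, Finset.sum_mul, ← Finset.sum_add_distrib]
    refine Finset.sum_congr rfl fun a _ => ?_
    have := hj a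
    rw [mul_comm (e a) j]
    omega
  rw [← h3]
  exact (h1.pow j).mul h2

/-- the excess -/
noncomputable def rho (f : AbsoluteValue K ℝ) (β : Fin n → Fin n → K)
    (Q : MvPolynomial (Fin n) K) (e : Fin n →₀ ℕ) (z : Fin n → K) : ℝ :=
  ∑ a, (e a : ℝ) * Real.log (f (dot (β a) z)) -
    Real.log (f (eval (fun a => dot (β a) z) Q))

theorem lam_mem (f : AbsoluteValue K ℝ) {β : Fin n → Fin n → K} {Q : MvPolynomial (Fin n) K}
    {e : Fin n →₀ ℕ} {t : ℕ} {γ : Fin n →₀ ℕ}
    (hγ : ∑ a, γ a = t) {j : ℕ} (hj : ∀ a, j * e a ≤ γ a) {z : Fin n → K} (hz : z ≠ 0)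
    (hβz : ∀ a, dot (β a) z ≠ 0) (hQz : eval (fun a => dot (β a) z) Q ≠ 0) :
    lam f t (mem β Q e γ j) z = ∑ a, (γ a : ℝ) * ph f z (β a) + j * rho f β Q e z := by
  have h0 : ∀ a, eval z (lff (β a)) = dot (β a) z := fun a => eval_lff _ _
  have h1 : eval z (aeval (fun a => lff (β a)) Q) = eval (fun a => dot (β a) z) Q := by
    rw [← coe_aeval_eq_eval z, ← coe_aeval_eq_eval]
    show aeval z (aeval (fun a => lff (β a)) Q) = aeval (fun a => dot (β a) z) Q
    rw [comp_aeval_apply]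
    congr 1
    congr 1
    funext a
    rw [← h0, ← coe_aeval_eq_eval]
    rfl
  have hne : eval z (mem β Q e γ j) ≠ 0 := by
    unfold mem
    rw [map_mul, map_pow, h1, map_prod]
    refine mul_ne_zero (pow_ne_zero _ hQz) (Finset.prod_ne_zero_iff.2 fun a _ => ?_)
    rw [map_pow, h0]
    exact pow_ne_zero _ (hβz a)
  rw [lam_eq f _ _ hz hne]
  unfold mem rho ph
  rw [map_mul, map_pow, h1, map_prod, map_mul, map_pow, map_prod,
    Real.log_mul (pow_ne_zero _ (f.pos_iff.2 hQz).ne') (Finset.prod_ne_zero_iff.2 fun a _ => by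
      rw [map_pow, h0, map_pow]
      exact pow_ne_zero _ (f.pos_iff.2 (hβz a)).ne'),
    Real.log_pow, Real.log_prod (fun a _ => by
      rw [map_pow, h0, map_pow]
      exact pow_ne_zero _ (f.pos_iff.2 (hβz a)).ne')]
  have h3 : ∀ a, Real.log (f (eval z (lff (β a) ^ (γ a - j * e a)))) =
      ((γ a : ℝ) - j * e a) * Real.log (f (dot (β a) z)) := by
    intro a
    rw [map_pow, h0, map_pow, Real.log_pow, Nat.cast_sub (hj a)]
    push_cast
    ring
  rw [Finset.sum_congr rfl fun a _ => h3 a]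
  have h4 : (t : ℝ) = ∑ a, (γ a : ℝ) := by
    rw [← hγ]
    push_cast
    rfl
  rw [h4, Finset.sum_mul]
  simp only [mul_sub, sub_mul, Finset.sum_sub_distrib, Finset.mul_sum]
  have h5 : ∑ x, (j : ℝ) * (e x : ℝ) * Real.log (f (dot (β x) z)) =
      ∑ i, (j : ℝ) * ((e i : ℝ) * Real.log (f (dot (β i) z))) :=
    Finset.sum_congr rfl fun a _ => by ring
  rw [h5]
  ring

/-- the number of words is at most the number of exponents -/
theorem words_le {t N : ℕ} (E : Fin N → Fin t → Fin n)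
    (hE : ∀ w : Fin N → K, ∑ j, C (w j) * word K (E j) ∈ (⊥ : Ideal (MvPolynomial (Fin n) K)) →
      ∀ j, w j = 0) : N ≤ NN n t := by
  classical
  have h1 : ∀ j, word K (E j) = monomial (∑ a, Finsupp.single (E j a) 1) 1 := by
    intro j
    rw [monomial_sum_one]
    rfl
  have h2 : ∀ j, (∑ a, Finsupp.single (E j a) 1 : Fin n →₀ ℕ) ∈ AA n t := by
    intro j
    rw [mem_AA]
    have h3 : ∀ b, (∑ a, Finsupp.single (E j a) 1 : Fin n →₀ ℕ) b =
        ∑ a, Finsupp.single (E j a) 1 b := fun b => by rw [Finsupp.finsetSum_apply]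
    simp only [h3]
    rw [Finset.sum_comm]
    have h4 : ∀ a, ∑ b, (Finsupp.single (E j a) 1 : Fin n →₀ ℕ) b = 1 := by
      intro a
      rw [Finset.sum_eq_single (E j a)]
      · simp
      · intro b _ hb
        rw [Finsupp.single_eq_of_ne hb]
      · intro h
        exact absurd (Finset.mem_univ _) h
    rw [Finset.sum_congr rfl fun a _ => h4 a]
    simp
  have h3 := Finset.card_le_card_of_injOn (s := (Finset.univ : Finset (Fin N))) (t := AA n t)
    (fun j => (∑ a, Finsupp.single (E j a) 1 : Fin n →₀ ℕ)) (fun j _ => h2 j) (by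
      intro j _ j' _ hjj
      by_contra hne
      have h4 := hE (fun i => if i = j then 1 else if i = j' then -1 else 0) (by
        rw [Ideal.mem_bot]
        have h5 : ∀ i, C (if i = j then (1 : K) else if i = j' then -1 else 0) * word K (E i) =
            (if i = j then word K (E i) else 0) - (if i = j' then word K (E i) else 0) := by
          intro i
          by_cases h6 : i = j
          · have h7 : i ≠ j' := fun h => hne (h6.symm.trans h)
            rw [if_pos h6, if_pos h6, if_neg h7]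
            simp
          · rw [if_neg h6, if_neg h6]
            by_cases h7 : i = j'
            · rw [if_pos h7, if_pos h7]
              simp
            · rw [if_neg h7, if_neg h7]
              simp
        rw [Finset.sum_congr rfl fun i _ => h5 i, Finset.sum_sub_distrib]
        rw [Finset.sum_ite_eq' Finset.univ j, Finset.sum_ite_eq' Finset.univ j',
          if_pos (Finset.mem_univ _), if_pos (Finset.mem_univ _), h1, h1]
        simp only at hjj
        rw [hjj, sub_self]) j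
      simp at h4)
  rw [Finset.card_univ, Fintype.card_fin] at h3
  exact h3

theorem core1 {k : Type} [Field k] [NumberField k] [NumberField K] [Algebra k K]
    [IsGalois ℚ K] (hi : ∃ z : K, z ^ 2 = -1) (hn : 1 ≤ n) (S : Finset (Pl k))
    (f : Pl k → AbsoluteValue K ℝ) (hf : ∀ v ∈ S, Good v (f v)) (β : Pl k → Fin n → Fin n → K)
    (hβ : ∀ v ∈ S, (Matrix.of (β v)).det ≠ 0) (Q : Pl k → MvPolynomial (Fin n) K) (g : Pl k → ℕ)
    (hg : ∀ v ∈ S, 0 < g v) (hQ : ∀ v ∈ S, (Q v).IsHomogeneous (g v))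
    (e : Pl k → Fin n →₀ ℕ) (he0 : ∀ v ∈ S, coeff (e v) (Q v) ≠ 0) (ω : Pl k → Fin n → ℕ)
    (he : ∀ v ∈ S, ∀ m ∈ (Q v).support, m ≠ e v → ∑ a, ω v a * e v a < ∑ a, ω v a * m a)
    (ε : ℝ) (hε : 0 < ε) : ∃ (Z : Finset (MvPolynomial (Fin n) K)) (C : ℝ),
      (∀ G ∈ Z, G ≠ 0 ∧ ∃ t, G.IsHomogeneous t) ∧ ∀ x : Fin n → k, x ≠ 0 →
        (∀ G ∈ Z, eval (up K x) G ≠ 0) →
        (∀ v ∈ S, ∀ a, dot (β v a) (up K x) ≠ 0) →
        (∀ v ∈ S, eval (fun a => dot (β v a) (up K x)) (Q v) ≠ 0) →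
        (∀ v ∈ S, 0 ≤ rho (f v) (β v) (Q v) (e v) (up K x)) →
        ∑ v ∈ S, wt v * (∑ a, ph (f v) (up K x) (β v a) +
          rho (f v) (β v) (Q v) (e v) (up K x) / g v) ≤ (n + ε) * logHeight x + C := by
  classical
  have heg : ∀ v ∈ S, ∑ a, e v a = g v := by
    intro v hv
    have h1 := hQ v hv (he0 v hv)
    have h2 : (Finsupp.weight (1 : Fin n → ℕ)) (e v) = (e v).degree :=
      (DFunLike.congr_fun (Finsupp.degree_eq_weight_one (σ := Fin n) (R := ℕ)) (e v)).symm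
    rw [← h1, h2, Finsupp.degree_eq_sum]
  have hnR : (1 : ℝ) ≤ n := by exact_mod_cast hn
  -- the small number
  obtain ⟨ε1, hε1⟩ : ∃ ε1 : ℝ, ε1 = ε / (2 * n + ε) := ⟨_, rfl⟩
  have hden : (0 : ℝ) < 2 * n + ε := by positivity
  have hε10 : 0 < ε1 := by rw [hε1]; positivity
  have hε1lt : ε1 < 1 := by
    rw [hε1, div_lt_one hden]
    linarith
  have hεε : n * (1 + ε1) ≤ (n + ε) * (1 - ε1) := by
    have h1 : ε1 * (2 * n + ε) = ε := by rw [hε1]; field_simp
    nlinarith
  -- the degree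
  have ht0 : ∀ v, ∃ t0 : ℕ, v ∈ S → ∀ t, t0 ≤ t →
      (1 - ε1) * ((t : ℝ) * NN n t) ≤
        (n : ℝ) * (g v * (Pool.Agent.R404.TC.S (g v) (NN n) (t - g v) : ℕ)) := by
    intro v
    by_cases hv : v ∈ S
    · obtain ⟨t0, h⟩ := S_near hn (hg v hv) ε1 hε10
      exact ⟨t0, fun _ => h⟩
    · exact ⟨0, fun h => absurd h hv⟩
  choose t0 ht0 using ht0
  obtain ⟨t, ht⟩ : ∃ t : ℕ, t = ∑ v ∈ S, t0 v + ∑ v ∈ S, g v + 1 := ⟨_, rfl⟩
  have htv : ∀ v ∈ S, t0 v ≤ t ∧ g v ≤ t := by
    intro v hv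
    have h1 := Finset.single_le_sum (f := t0) (fun _ _ => Nat.zero_le _) hv
    have h2 := Finset.single_le_sum (f := g) (fun _ _ => Nat.zero_le _) hv
    constructor <;> omega
  have ht1 : 1 ≤ t := by omega
  obtain ⟨N, E, -, hE1, hE2⟩ := exists_words (⊥ : Ideal (MvPolynomial (Fin n) K)) t
  have hNle := words_le E hE1
  have hN : 1 ≤ N := by
    by_contra hcon
    have hN0 : N = 0 := by omega
    subst hN0
    obtain ⟨w, hw⟩ := hE2 ((X ⟨0, by omega⟩ : MvPolynomial (Fin n) K) ^ t)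
      (by simpa using (isHomogeneous_X K _).pow t)
    rw [Ideal.mem_bot] at hw
    simp only [Finset.univ_eq_empty, Finset.sum_empty, sub_zero] at hw
    exact pow_ne_zero t (X_ne_zero _) hw
  -- the families
  obtain ⟨fam, hfam⟩ : ∃ fam : Pl k → AA n t → MvPolynomial (Fin n) K, fam = fun v γ =>
      if v ∈ S then mem (β v) (Q v) (e v) γ.1 (jj (e v) t γ.1) else X ⟨0, by omega⟩ ^ t :=
    ⟨_, rfl⟩
  have hfamS : ∀ v ∈ S, ∀ γ, fam v γ = mem (β v) (Q v) (e v) γ.1 (jj (e v) t γ.1) := by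
    intro v hv γ
    rw [hfam]
    simp only
    rw [if_pos hv]
  obtain ⟨Z, C0, hZ, hC0⟩ := sub_fam (k := k) (K := K) hi ⊥ hN E hE2 S f hf
    (fun _ => AA n t) fam (by
      intro v γ
      by_cases hv : v ∈ S
      · rw [hfamS v hv]
        exact mem_hom (hQ v hv) (heg v hv) (mem_AA.1 γ.2) (jj_spec _ _ _)
      · rw [hfam]
        simp only
        rw [if_neg hv]
        simpa using (isHomogeneous_X K _).pow t) (by
      intro v hv κ hκ
      rw [Ideal.mem_bot] at hκ
      simp only [hfamS v hv] at hκ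
      exact mem_indep (hβ v hv) (he0 v hv) (he v hv) (AA n t) (jj (e v) t)
        (fun γ a => jj_spec _ _ _ _) κ hκ) ε1 hε10
  -- the exceptional forms
  have hlowc : ∀ v, ∃ c : ℝ, 0 ≤ c ∧ ∀ z : Fin n → K, z ≠ 0 → (∀ a, dot (β v a) z ≠ 0) →
      - c ≤ ∑ a, ph (f v) z (β v a) := by
    intro v
    refine ⟨∑ a, |Real.log (∑ b, f v (β v a b))|, Finset.sum_nonneg fun _ _ => abs_nonneg _,
      fun z hz hβz => ?_⟩
    rw [← Finset.sum_neg_distrib]
    exact Finset.sum_le_sum fun a _ => ph_low (f v) hz (hβz a)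
  choose c hc0 hc using hlowc
  obtain ⟨A, hA⟩ : ∃ A : ℝ, A = t * NN n t / n := ⟨_, rfl⟩
  have hNNpos : (1 : ℝ) ≤ NN n t := by exact_mod_cast NN_pos hn t
  have htR : (1 : ℝ) ≤ t := by exact_mod_cast ht1
  have hApos : 0 < A := by
    rw [hA]
    positivity
  have h1ε : 0 < 1 - ε1 := by linarith
  refine ⟨Z.image (fun z => ∑ j, C (z j) * word K (E j)),
    |C0| / ((1 - ε1) * A) + ∑ v ∈ S, wt v * (ε1 * c v / (1 - ε1)), ?_, ?_⟩
  · intro G hG
    obtain ⟨z, hz, rfl⟩ := Finset.mem_image.1 hG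
    refine ⟨?_, t, IsHomogeneous.sum _ _ _ fun j _ => by
      simpa using (isHomogeneous_C (Fin n) (z j)).mul (word_hom (K := K) (E j))⟩
    intro h0
    apply hZ z hz
    funext j
    exact hE1 z (by rw [h0]; exact Ideal.zero_mem _) j
  intro x hx hxZ hβx hQx hρ
  have hz0 : up K x ≠ 0 := up_ne hx
  obtain ⟨z, hzdef⟩ : ∃ z, z = up K x := ⟨_, rfl⟩
  rw [← hzdef] at hz0 hβx hQx hρ ⊢
  obtain ⟨-, hineq⟩ := hC0 x hx (fun p hp => by
    rw [Ideal.mem_bot] at hp
    rw [hp, map_zero]) (by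
      intro w hw
      have h1 := hxZ _ (Finset.mem_image_of_mem _ hw)
      rw [eval_comb] at h1
      exact h1)
  rw [← hzdef] at hineq
  -- one place
  have hplace : ∀ v ∈ S, (1 - ε1) * A * (∑ a, ph (f v) z (β v a) +
      rho (f v) (β v) (Q v) (e v) z / g v) - A * (ε1 * c v) ≤
        ∑ γ, lam (f v) t (fam v γ) z := by
    intro v hv
    have hgv := hg v hv
    have hgR : (0 : ℝ) < g v := by exact_mod_cast hgv
    have h1 : ∑ γ, lam (f v) t (fam v γ) z = ∑ γ ∈ AA n t,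
        (∑ a, (γ a : ℝ) * ph (f v) z (β v a) +
          (jj (e v) t γ : ℝ) * rho (f v) (β v) (Q v) (e v) z) := by
      rw [← Finset.sum_coe_sort (AA n t)]
      refine Finset.sum_congr rfl fun γ _ => ?_
      rw [hfamS v hv]
      exact lam_mem (f v) (mem_AA.1 γ.2) (jj_spec _ _ _) hz0 (hβx v hv) (hQx v hv)
    have h2 : ∑ γ ∈ AA n t, ∑ a, (γ a : ℝ) * ph (f v) z (β v a) =
        A * ∑ a, ph (f v) z (β v a) := by
      rw [Finset.sum_comm, Finset.mul_sum]
      refine Finset.sum_congr rfl fun a _ => ?_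
      rw [← Finset.sum_mul]
      congr 1
      have h3 := sum_exp t a
      have h4 : (n : ℝ) * ∑ γ ∈ AA n t, (γ a : ℝ) = t * NN n t := by exact_mod_cast h3
      rw [hA, eq_div_iff (by positivity), ← h4]
      ring
    have h3 : (1 - ε1) * A / g v ≤ ∑ γ ∈ AA n t, (jj (e v) t γ : ℝ) := by
      have h4 := ht0 v hv t (htv v hv).1
      have h5 := sum_jj (e v) hgv (heg v hv) (htv v hv).2
      have h6 : ((Pool.Agent.R404.TC.S (g v) (NN n) (t - g v) : ℕ) : ℝ) ≤
          ∑ γ ∈ AA n t, (jj (e v) t γ : ℝ) := by exact_mod_cast h5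
      refine le_trans ?_ h6
      rw [hA, div_le_iff₀ hgR]
      have h7 : (1 - ε1) * (t * (NN n t : ℝ) / n) = (1 - ε1) * (t * NN n t) / n := by ring
      rw [h7, div_le_iff₀ (by positivity)]
      refine h4.trans (le_of_eq ?_)
      ring
    have h4 := hc v z hz0 (hβx v hv)
    have h5 := hρ v hv
    rw [h1, Finset.sum_add_distrib, h2, ← Finset.sum_mul]
    have h6 : (1 - ε1) * A / g v * rho (f v) (β v) (Q v) (e v) z ≤
        (∑ γ ∈ AA n t, (jj (e v) t γ : ℝ)) * rho (f v) (β v) (Q v) (e v) z :=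
      mul_le_mul_of_nonneg_right h3 h5
    have h7 : (1 - ε1) * A / g v * rho (f v) (β v) (Q v) (e v) z =
        (1 - ε1) * A * (rho (f v) (β v) (Q v) (e v) z / g v) := by ring
    have h8 : 0 ≤ A * ε1 * (∑ a, ph (f v) z (β v a) + c v) :=
      mul_nonneg (by positivity) (by linarith)
    nlinarith
  have hsum : (1 - ε1) * A * ∑ v ∈ S, wt v * (∑ a, ph (f v) z (β v a) +
      rho (f v) (β v) (Q v) (e v) z / g v) - A * ∑ v ∈ S, wt v * (ε1 * c v) ≤
        ∑ v ∈ S, wt v * ∑ γ, lam (f v) t (fam v γ) z := by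
    rw [Finset.mul_sum, Finset.mul_sum, ← Finset.sum_sub_distrib]
    refine Finset.sum_le_sum fun v hv => ?_
    have h1 := mul_le_mul_of_nonneg_left (hplace v hv) (wt_nonneg v)
    refine le_trans (le_of_eq ?_) h1
    ring
  have hh := logHeight_nonneg x
  have h2 : (N + ε1) * (t * logHeight x) ≤ ((n + ε) * logHeight x) * ((1 - ε1) * A) := by
    have e1 : (N : ℝ) ≤ NN n t := by exact_mod_cast hNle
    have e2 : (N : ℝ) + ε1 ≤ NN n t * (1 + ε1) := by nlinarith
    have e3 : 0 ≤ (t : ℝ) * logHeight x := by positivity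
    have e4 := mul_le_mul_of_nonneg_right e2 e3
    have e5 : (NN n t : ℝ) * (1 + ε1) * (t * logHeight x) =
        (n * (1 + ε1)) * (A * logHeight x) := by
      rw [hA]
      field_simp
    have e6 : (n * (1 + ε1)) * (A * logHeight x) ≤
        ((n + ε) * (1 - ε1)) * (A * logHeight x) :=
      mul_le_mul_of_nonneg_right hεε (by positivity)
    rw [e5] at e4
    refine (e4.trans e6).trans (le_of_eq ?_)
    ring
  have hpos2 : 0 < (1 - ε1) * A := by positivity
  have h3 := le_abs_self C0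
  have h4 : ∑ v ∈ S, wt v * (ε1 * c v / (1 - ε1)) * ((1 - ε1) * A) =
      A * ∑ v ∈ S, wt v * (ε1 * c v) := by
    rw [Finset.mul_sum]
    refine Finset.sum_congr rfl fun v _ => ?_
    field_simp
  have h5 : |C0| / ((1 - ε1) * A) * ((1 - ε1) * A) = |C0| := by field_simp
  have h6 : (∑ v ∈ S, wt v * (∑ a, ph (f v) z (β v a) +
      rho (f v) (β v) (Q v) (e v) z / g v)) * ((1 - ε1) * A) ≤
      ((n + ε) * logHeight x + (|C0| / ((1 - ε1) * A) +
        ∑ v ∈ S, wt v * (ε1 * c v / (1 - ε1)))) * ((1 - ε1) * A) := by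
    have h7 : (∑ v ∈ S, wt v * (ε1 * c v / (1 - ε1))) * ((1 - ε1) * A) =
        A * ∑ v ∈ S, wt v * (ε1 * c v) := by
      rw [Finset.sum_mul]
      exact h4
    have h8 : ((n + ε) * logHeight x + (|C0| / ((1 - ε1) * A) +
        ∑ v ∈ S, wt v * (ε1 * c v / (1 - ε1)))) * ((1 - ε1) * A) =
        ((n + ε) * logHeight x) * ((1 - ε1) * A) + |C0| / ((1 - ε1) * A) * ((1 - ε1) * A) +
        (∑ v ∈ S, wt v * (ε1 * c v / (1 - ε1))) * ((1 - ε1) * A) := by ring
    rw [h8, h7, h5]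
    linarith
  exact le_of_mul_le_mul_right h6 hpos2

end Pool.Agent.H7C
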