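import Mathlib
import Pool.Agent.H7C.Core

/-!
The subspace theorem with a hypersurface, with the positive part of the excess.
-/

set_option autoImplicit false
set_option linter.unusedSectionVars false

namespace Pool.Agent.H7C

open MvPolynomial Finset Module Height NumberField
open Pool.Agent.W180.OP (Pl av wt nrm le_nrm nrm_pos nrm_nonneg exists_nrm lam lam_eq wt_nonneg)
open Pool.Agent.R405 (Good up up_ne lff lff_hom eval_lff dot)
open Pool.Agent.H7V1 (ph ph_low)

theorem descendP {k K : Type} [Field k] [Field K] [Algebra k K] {n : ℕ}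
    (P : MvPolynomial (Fin n) K) (hP : P ≠ 0) : ∃ G : MvPolynomial (Fin n) k, G ≠ 0 ∧
      (∀ t, P.IsHomogeneous t → G.IsHomogeneous t) ∧
      ∀ x : Fin n → k, eval x G ≠ 0 → eval (up K x) P ≠ 0 := by
  classical
  obtain ⟨m0, hm0⟩ := MvPolynomial.ne_zero_iff.1 hP
  let b := Module.Free.chooseBasis k K
  obtain ⟨i, hi⟩ : ∃ i, b.coord i (coeff m0 P) ≠ 0 := by
    by_contra hcon
    push Not at hcon
    exact hm0 (b.ext_elem fun i => by simpa using hcon i)
  obtain ⟨φ, hφ⟩ : ∃ φ : K →ₗ[k] k, φ = b.coord i := ⟨_, rfl⟩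
  rw [← hφ] at hi
  have hco : ∀ m, coeff m (∑ m ∈ P.support, monomial m (φ (coeff m P))) = φ (coeff m P) := by
    intro m
    rw [coeff_sum]
    simp only [coeff_monomial]
    rw [Finset.sum_ite_eq']
    split_ifs with h
    · rfl
    · rw [MvPolynomial.notMem_support_iff] at h
      rw [h, map_zero]
  refine ⟨∑ m ∈ P.support, monomial m (φ (coeff m P)), ?_, ?_, ?_⟩
  · rw [MvPolynomial.ne_zero_iff]
    exact ⟨m0, by rw [hco]; exact hi⟩
  · intro t ht m hm
    rw [hco] at hm
    apply ht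
    intro h0
    rw [h0, map_zero] at hm
    exact hm rfl
  · intro x hx h0
    apply hx
    have h1 : eval x (∑ m ∈ P.support, monomial m (φ (coeff m P))) =
        φ (eval (up K x) P) := by
      rw [map_sum, eval_eq, map_sum]
      refine Finset.sum_congr rfl fun m _ => ?_
      rw [eval_monomial, Finsupp.prod]
      have h2 : coeff m P * ∏ i ∈ m.support, up K x i ^ m i =
          (∏ i ∈ m.support, x i ^ m i) • coeff m P := by
        rw [Algebra.smul_def, map_prod, mul_comm]
        congr 1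
        refine Finset.prod_congr rfl fun i _ => ?_
        rw [map_pow]
        rfl
      rw [h2, map_smul, smul_eq_mul, mul_comm]
    rw [h1, h0, map_zero]

theorem form_ne {K : Type} [Field K] {n : ℕ} {β : Fin n → Fin n → K}
    (hβ : (Matrix.of β).det ≠ 0) {ω : Fin n → ℕ}
    {Q : MvPolynomial (Fin n) K} {e : Fin n →₀ ℕ} (he0 : coeff e Q ≠ 0)
    (he : ∀ m ∈ Q.support, m ≠ e → ∑ a, ω a * e a < ∑ a, ω a * m a) :
    aeval (fun a => lff (β a)) Q ≠ 0 := by
  classical
  intro h0
  have h1 := mem_indep hβ he0 he {e} (fun γ => if γ = e then 1 else 0) (by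
    intro γ a
    by_cases h : γ = e
    · rw [if_pos h, one_mul, h]
    · rw [if_neg h, zero_mul]
      exact Nat.zero_le _) (fun _ => 1) (by
    refine Finset.sum_eq_zero fun γ _ => ?_
    have h2 : γ.1 = e := Finset.mem_singleton.1 γ.2
    rw [if_pos h2]
    unfold mem
    rw [h0, pow_one, zero_mul, mul_zero]) ⟨e, Finset.mem_singleton_self e⟩
  exact one_ne_zero h1

theorem eval_comp {K : Type} [Field K] {n : ℕ} (β : Fin n → Fin n → K)
    (Q : MvPolynomial (Fin n) K) (z : Fin n → K) :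
    eval z (aeval (fun a => lff (β a)) Q) = eval (fun a => dot (β a) z) Q := by
  rw [← coe_aeval_eq_eval z, ← coe_aeval_eq_eval]
  show aeval z (aeval (fun a => lff (β a)) Q) = aeval (fun a => dot (β a) z) Q
  rw [comp_aeval_apply]
  congr 1
  congr 1
  funext a
  have h0 : eval z (lff (β a)) = dot (β a) z := eval_lff _ _
  rw [← h0, ← coe_aeval_eq_eval]
  rfl

theorem lff_ne {K : Type} [Field K] {n : ℕ} {b : Fin n → K} (hb : b ≠ 0) : lff b ≠ 0 := by
  classical
  obtain ⟨a, ha⟩ := Function.ne_iff.1 hb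
  intro h0
  apply ha
  have h1 := congrArg (eval (Pi.single a (1 : K))) h0
  rw [eval_lff, map_zero, Finset.sum_eq_single a] at h1
  · rw [Pi.single_eq_same, mul_one] at h1
    exact h1
  · intro j _ hj
    rw [Pi.single_eq_of_ne hj, mul_zero]
  · intro h
    exact absurd (Finset.mem_univ _) h

theorem core2 {k K : Type} [Field k] [NumberField k] [Field K] [NumberField K] [Algebra k K]
    {n : ℕ} [IsGalois ℚ K] (hi : ∃ z : K, z ^ 2 = -1) (hn : 1 ≤ n) (S : Finset (Pl k))
    (f : Pl k → AbsoluteValue K ℝ) (hf : ∀ v ∈ S, Good v (f v)) (β : Pl k → Fin n → Fin n → K)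
    (hβ : ∀ v ∈ S, (Matrix.of (β v)).det ≠ 0) (Q : Pl k → MvPolynomial (Fin n) K) (g : Pl k → ℕ)
    (hg : ∀ v ∈ S, 0 < g v) (hQ : ∀ v ∈ S, (Q v).IsHomogeneous (g v))
    (e : Pl k → Fin n →₀ ℕ) (he0 : ∀ v ∈ S, coeff (e v) (Q v) ≠ 0) (ω : Pl k → Fin n → ℕ)
    (he : ∀ v ∈ S, ∀ m ∈ (Q v).support, m ≠ e v → ∑ a, ω v a * e v a < ∑ a, ω v a * m a)
    (ε : ℝ) (hε : 0 < ε) : ∃ (Z : Finset (MvPolynomial (Fin n) k)) (C : ℝ),
      (∀ G ∈ Z, G ≠ 0 ∧ ∃ t, G.IsHomogeneous t) ∧ ∀ x : Fin n → k, x ≠ 0 →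
        (∀ G ∈ Z, eval x G ≠ 0) →
        (∀ v ∈ S, ∀ a, dot (β v a) (up K x) ≠ 0) ∧
        (∀ v ∈ S, eval (fun a => dot (β v a) (up K x)) (Q v) ≠ 0) ∧
        ∑ v ∈ S, wt v * (∑ a, ph (f v) (up K x) (β v a) +
          max 0 (rho (f v) (β v) (Q v) (e v) (up K x)) / g v) ≤
            (n + ε) * logHeight x + C := by
  classical
  obtain ⟨a0, ha0⟩ : ∃ a0 : Fin n, a0 = ⟨0, by omega⟩ := ⟨_, rfl⟩
  have hT := fun T : Finset (Pl k) => core1 (k := k) (K := K) hi hn S f hf β hβ
    (fun v => if v ∈ T then Q v else X a0) (fun v => if v ∈ T then g v else 1) (by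
      intro v hv
      split_ifs
      · exact hg v hv
      · exact one_pos) (by
      intro v hv
      split_ifs
      · exact hQ v hv
      · exact isHomogeneous_X _ _) (fun v => if v ∈ T then e v else Finsupp.single a0 1) (by
      intro v hv
      split_ifs
      · exact he0 v hv
      · rw [coeff_X, if_pos rfl]
        exact one_ne_zero) (fun v => if v ∈ T then ω v else 0) (by
      intro v hv
      split_ifs
      · exact he v hv
      · intro m hm hne
        exfalso
        apply hne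
        rw [MvPolynomial.mem_support_iff, coeff_X, ite_ne_right_iff] at hm
        exact hm.1.symm) ε hε
  choose ZT CT hZT hCT using hT
  -- the forms over `k`
  have hdes : ∀ P : MvPolynomial (Fin n) K, ∃ G : MvPolynomial (Fin n) k, P ≠ 0 → (G ≠ 0 ∧
      (∀ t, P.IsHomogeneous t → G.IsHomogeneous t) ∧
      ∀ x : Fin n → k, eval x G ≠ 0 → eval (up K x) P ≠ 0) := by
    intro P
    by_cases hP : P = 0
    · exact ⟨0, fun h => absurd hP h⟩
    · obtain ⟨G, hG⟩ := descendP (k := k) P hP
      exact ⟨G, fun _ => hG⟩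
  choose D hD using hdes
  obtain ⟨W, hW⟩ : ∃ W : Finset (MvPolynomial (Fin n) K), W = S.powerset.biUnion ZT ∪
      (S.image (fun v => aeval (fun a => lff (β v a)) (Q v)) ∪
        (S ×ˢ univ).image (fun p : Pl k × Fin n => lff (β p.1 p.2))) := ⟨_, rfl⟩
  have hWne : ∀ P ∈ W, P ≠ 0 ∧ ∃ t, P.IsHomogeneous t := by
    intro P hP
    rw [hW] at hP
    rcases Finset.mem_union.1 hP with h | h
    · obtain ⟨T, -, hT⟩ := Finset.mem_biUnion.1 h
      exact hZT T P hT
    · rcases Finset.mem_union.1 h with h | h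
      · obtain ⟨v, hv, rfl⟩ := Finset.mem_image.1 h
        refine ⟨form_ne (hβ v hv) (he0 v hv) (he v hv), g v, ?_⟩
        have h1 := (hQ v hv).aeval (fun a => lff (β v a)) (n := 1) (fun a => lff_hom (β v a))
        rwa [one_mul] at h1
      · obtain ⟨p, hp, rfl⟩ := Finset.mem_image.1 h
        refine ⟨lff_ne fun h0 => hβ p.1 (Finset.mem_product.1 hp).1
          (Matrix.det_eq_zero_of_row_eq_zero p.2 fun j => congrFun h0 j), 1, lff_hom _⟩
  refine ⟨W.image D, ∑ T ∈ S.powerset, |CT T|, ?_, ?_⟩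
  · intro G hG
    obtain ⟨P, hP, rfl⟩ := Finset.mem_image.1 hG
    obtain ⟨h1, t, h2⟩ := hWne P hP
    exact ⟨(hD P h1).1, t, (hD P h1).2.1 t h2⟩
  intro x hx hZx
  have hWx : ∀ P ∈ W, eval (up K x) P ≠ 0 := fun P hP =>
    (hD P (hWne P hP).1).2.2 x (hZx _ (Finset.mem_image_of_mem _ hP))
  have hβx : ∀ v ∈ S, ∀ a, dot (β v a) (up K x) ≠ 0 := by
    intro v hv a
    have h1 := hWx (lff (β v a)) (by
      rw [hW]
      exact Finset.mem_union_right _ (Finset.mem_union_right _ (Finset.mem_image.2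
        ⟨(v, a), Finset.mem_product.2 ⟨hv, Finset.mem_univ _⟩, rfl⟩)))
    rwa [eval_lff] at h1
  have hQx : ∀ v ∈ S, eval (fun a => dot (β v a) (up K x)) (Q v) ≠ 0 := by
    intro v hv
    have h1 := hWx (aeval (fun a => lff (β v a)) (Q v)) (by
      rw [hW]
      exact Finset.mem_union_right _ (Finset.mem_union_left _ (Finset.mem_image_of_mem _ hv)))
    rwa [eval_comp] at h1
  refine ⟨hβx, hQx, ?_⟩
  obtain ⟨T, hTdef⟩ : ∃ T : Finset (Pl k), T = S.filter fun v =>
      0 ≤ rho (f v) (β v) (Q v) (e v) (up K x) := ⟨_, rfl⟩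
  have hTS : T ∈ S.powerset := by
    rw [Finset.mem_powerset, hTdef]
    exact Finset.filter_subset _ _
  have hX : ∀ v ∈ S, rho (f v) (β v) (X a0) (Finsupp.single a0 1) (up K x) = 0 := by
    intro v hv
    unfold rho
    rw [eval_X, Finset.sum_eq_single a0]
    · rw [Finsupp.single_eq_same]
      push_cast
      ring
    · intro b _ hb
      rw [Finsupp.single_eq_of_ne hb]
      push_cast
      ring
    · intro h
      exact absurd (Finset.mem_univ _) h
  have h1 := hCT T x hx (fun P hP => hWx P (by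
    rw [hW]
    exact Finset.mem_union_left _ (Finset.mem_biUnion.2 ⟨T, hTS, hP⟩))) hβx (by
      intro v hv
      split_ifs
      · exact hQx v hv
      · rw [eval_X]
        exact hβx v hv a0) (by
      intro v hv
      by_cases hvT : v ∈ T
      · simp only [if_pos hvT]
        rw [hTdef] at hvT
        exact (Finset.mem_filter.1 hvT).2
      · simp only [if_neg hvT]
        exact (hX v hv).ge)
  have h2 : CT T ≤ ∑ T ∈ S.powerset, |CT T| :=
    (le_abs_self _).trans (Finset.single_le_sum (f := fun T => |CT T|)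
      (fun _ _ => abs_nonneg _) hTS)
  have h3 : ∑ v ∈ S, wt v * (∑ a, ph (f v) (up K x) (β v a) +
      max 0 (rho (f v) (β v) (Q v) (e v) (up K x)) / g v) =
      ∑ v ∈ S, wt v * (∑ a, ph (f v) (up K x) (β v a) +
        rho (f v) (β v) (if v ∈ T then Q v else X a0)
          (if v ∈ T then e v else Finsupp.single a0 1) (up K x) /
            ((if v ∈ T then g v else 1 : ℕ) : ℝ)) := by
    refine Finset.sum_congr rfl fun v hv => ?_
    congr 1
    congr 1
    by_cases hvT : v ∈ T
    · simp only [if_pos hvT]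
      rw [hTdef] at hvT
      rw [max_eq_right (Finset.mem_filter.1 hvT).2]
    · simp only [if_neg hvT]
      rw [hX v hv]
      have h4 : rho (f v) (β v) (Q v) (e v) (up K x) ≤ 0 := by
        by_contra hcon
        push Not at hcon
        apply hvT
        rw [hTdef]
        exact Finset.mem_filter.2 ⟨hv, hcon.le⟩
      rw [max_eq_left h4]
      simp
  rw [h3]
  linarith

end Pool.Agent.H7C
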