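import Mathlib
import Pool.Agent.H7C.Core2
import Pool.Agent.H7V1.Glob

/-!
The final form of the subspace theorem with a hypersurface at each place.
-/

set_option autoImplicit false
set_option linter.unusedSectionVars false

namespace Pool.Agent.H7C

open MvPolynomial Finset Module Height NumberField
open Pool.Agent.W180.OP (Pl av wt nrm le_nrm nrm_pos nrm_nonneg exists_nrm lam lam_eq wt_nonneg)
open Pool.Agent.R405 (Good up up_ne lff lff_hom eval_lff dot exv exv_ne exists_big)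
open Pool.Agent.H7V1 (ph ph_low nrm_ch log_pow_t eval_exv)

section change

variable {K M : Type} [Field K] [Field M] [Algebra K M] {n : ℕ}

theorem dot_exv (b x : Fin n → K) : dot (exv M b) (exv M x) = algebraMap K M (dot b x) := by
  unfold dot
  rw [map_sum]
  refine Finset.sum_congr rfl fun j _ => ?_
  rw [map_mul]
  rfl

theorem ph_ch {f : AbsoluteValue K ℝ} {g : AbsoluteValue M ℝ} {t : ℝ} (ht : 0 < t)
    (hg : ∀ y : K, g (algebraMap K M y) = f y ^ t) (hn : 1 ≤ n) (x b : Fin n → K) :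
    ph g (exv M x) (exv M b) = t * ph f x b := by
  unfold ph
  rw [nrm_ch ht hg hn, dot_exv, hg, log_pow_t (nrm_nonneg _ _) ht, log_pow_t (f.nonneg _) ht]
  ring

theorem rho_ch {f : AbsoluteValue K ℝ} {g : AbsoluteValue M ℝ} {t : ℝ} (ht : 0 < t)
    (hg : ∀ y : K, g (algebraMap K M y) = f y ^ t) (β : Fin n → Fin n → K)
    (Q : MvPolynomial (Fin n) K) (e : Fin n →₀ ℕ) (x : Fin n → K) :
    rho g (fun a => exv M (β a)) (map (algebraMap K M) Q) e (exv M x) = t * rho f β Q e x := by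
  unfold rho
  have h1 : (fun a => dot (exv M (β a)) (exv M x)) = exv M (fun a => dot (β a) x) := by
    funext a
    rw [dot_exv]
    rfl
  rw [h1, eval_exv, hg, log_pow_t (f.nonneg _) ht, mul_sub, Finset.mul_sum]
  congr 1
  refine Finset.sum_congr rfl fun a _ => ?_
  rw [dot_exv, hg, log_pow_t (f.nonneg _) ht]
  ring

theorem det_exv {β : Fin n → Fin n → K} (h : (Matrix.of β).det ≠ 0) :
    (Matrix.of fun a => exv M (β a)).det ≠ 0 := by
  have h1 : (Matrix.of fun a => exv M (β a)) = (algebraMap K M).mapMatrix (Matrix.of β) := by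
    ext a j
    rfl
  rw [h1, ← RingHom.map_det, Ne, map_eq_zero]
  exact h

end change

theorem globA {k K : Type} [Field k] [NumberField k] [Field K] [NumberField K] [Algebra k K]
    {n : ℕ} (hn : 1 ≤ n) (S : Finset (Pl k)) (w : Pl k → Pl K) (t : Pl k → ℝ)
    (hw : ∀ v ∈ S, 0 < t v ∧ ∀ a : k, av (w v) (algebraMap k K a) ^ t v = av v a)
    (β : Pl k → Fin n → Fin n → K)
    (hβ : ∀ v ∈ S, (Matrix.of (β v)).det ≠ 0) (Q : Pl k → MvPolynomial (Fin n) K) (g : Pl k → ℕ)
    (hg : ∀ v ∈ S, 0 < g v) (hQ : ∀ v ∈ S, (Q v).IsHomogeneous (g v))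
    (e : Pl k → Fin n →₀ ℕ) (he0 : ∀ v ∈ S, coeff (e v) (Q v) ≠ 0) (ω : Pl k → Fin n → ℕ)
    (he : ∀ v ∈ S, ∀ m ∈ (Q v).support, m ≠ e v → ∑ a, ω v a * e v a < ∑ a, ω v a * m a)
    (ε : ℝ) (hε : 0 < ε) : ∃ (Z : Finset (MvPolynomial (Fin n) k)) (C : ℝ),
      (∀ G ∈ Z, G ≠ 0 ∧ ∃ s, G.IsHomogeneous s) ∧ ∀ x : Fin n → k, x ≠ 0 →
        (∀ G ∈ Z, eval x G ≠ 0) →
        (∀ v ∈ S, ∀ a, dot (β v a) (exv K x) ≠ 0) ∧
        (∀ v ∈ S, eval (fun a => dot (β v a) (exv K x)) (Q v) ≠ 0) ∧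
        ∑ v ∈ S, wt v * (t v * (∑ a, ph (av (w v)) (exv K x) (β v a) +
          max 0 (rho (av (w v)) (β v) (Q v) (e v) (exv K x)) / g v)) ≤
            (n + ε) * logHeight x + C := by
  classical
  obtain ⟨M, hM1, hM2, hi, ⟨φ⟩⟩ := exists_big K
  have : NumberField M := ⟨⟩
  let _ : Algebra K M := φ.toAlgebra
  let _ : Algebra k M := (φ.comp (algebraMap k K)).toAlgebra
  have : IsScalarTower k K M := IsScalarTower.of_algebraMap_eq fun _ => rfl
  have hex : ∀ v, ∃ g : AbsoluteValue M ℝ, v ∈ S → Good v g ∧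
      ∀ y : K, g (algebraMap K M y) = av (w v) y ^ t v := by
    intro v
    by_cases hv : v ∈ S
    · obtain ⟨g, h1, h2⟩ := Pool.Agent.R405.QS.ext_place (M := M) v (w v) (t v) (hw v hv).1
        (hw v hv).2
      exact ⟨g, fun _ => ⟨h1, h2⟩⟩
    · exact ⟨AbsoluteValue.trivial, fun h => absurd h hv⟩
  choose f hf using hex
  obtain ⟨Z, C, hZ, hC⟩ := core2 (k := k) (K := M) hi hn S f (fun v hv => (hf v hv).1)
    (fun v a => exv M (β v a)) (fun v hv => det_exv (hβ v hv))
    (fun v => map (algebraMap K M) (Q v)) g hg (fun v hv => (hQ v hv).map _) e (by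
      intro v hv
      rw [coeff_map, Ne, map_eq_zero]
      exact he0 v hv) ω (by
      intro v hv m hm hne
      refine he v hv m ?_ hne
      rw [MvPolynomial.mem_support_iff, coeff_map, Ne, map_eq_zero] at hm
      exact MvPolynomial.mem_support_iff.2 hm) ε hε
  refine ⟨Z, C, hZ, fun x hx hZx => ?_⟩
  have hup : up M x = exv M (exv K x) := rfl
  obtain ⟨h1, h2, h3⟩ := hC x hx hZx
  rw [hup] at h1 h2 h3
  refine ⟨fun v hv a h0 => ?_, fun v hv h0 => ?_, ?_⟩
  · apply h1 v hv a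
    rw [dot_exv, h0, map_zero]
  · apply h2 v hv
    have h4 : (fun a => dot (exv M (β v a)) (exv M (exv K x))) =
        exv M (fun a => dot (β v a) (exv K x)) := by
      funext a
      rw [dot_exv]
      rfl
    rw [h4, eval_exv, h0, map_zero]
  · refine le_trans (le_of_eq (Finset.sum_congr rfl fun v hv => ?_)) h3
    congr 1
    obtain ⟨ht, -⟩ := hw v hv
    have hgv := (hf v hv).2
    rw [rho_ch ht hgv, Finset.sum_congr rfl fun a _ => ph_ch ht hgv hn (exv K x) (β v a),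
      ← Finset.mul_sum, mul_add]
    congr 1
    rw [← mul_div_assoc]
    congr 1
    rw [mul_max_of_nonneg _ _ ht.le, mul_zero]

end Pool.Agent.H7C
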