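import Mathlib
import Pool.Agent.H7C.Fin

/-!
Forms in other coordinates; the leading exponent at a point.
-/

set_option autoImplicit false
set_option linter.unusedSectionVars false

namespace Pool.Agent.H7C

open MvPolynomial Finset
open Pool.Agent.R405 (lff lff_hom eval_lff tg tg_self dot)

variable {K : Type} [Field K] {n : ℕ}

/-- the form `F` in the coordinates `β` -/
noncomputable def cc (β : Fin n → Fin n → K) (F : MvPolynomial (Fin n) K) :
    MvPolynomial (Fin n) K :=
  aeval (fun j => lff ((Matrix.of β)⁻¹ j)) F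

theorem cc_hom (β : Fin n → Fin n → K) {F : MvPolynomial (Fin n) K} {d : ℕ}
    (hF : F.IsHomogeneous d) : (cc β F).IsHomogeneous d := by
  have h1 := hF.aeval (fun j => lff ((Matrix.of β)⁻¹ j)) (n := 1) (fun j => lff_hom _)
  rwa [one_mul] at h1

theorem dot_mulVec (β : Fin n → Fin n → K) (x : Fin n → K) (a : Fin n) :
    dot (β a) x = (Matrix.of β).mulVec x a := rfl

theorem eval_cc {β : Fin n → Fin n → K} (hβ : (Matrix.of β).det ≠ 0)
    (F : MvPolynomial (Fin n) K) (x : Fin n → K) :
    eval (fun a => dot (β a) x) (cc β F) = eval x F := by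
  unfold cc
  rw [← coe_aeval_eq_eval, ← coe_aeval_eq_eval]
  show aeval _ (aeval _ F) = aeval x F
  rw [comp_aeval_apply]
  congr 1
  congr 1
  funext j
  show aeval (fun a => dot (β a) x) (lff ((Matrix.of β)⁻¹ j)) = x j
  have h1 : aeval (fun a => dot (β a) x) (lff ((Matrix.of β)⁻¹ j)) =
      eval (fun a => dot (β a) x) (lff ((Matrix.of β)⁻¹ j)) :=
    DFunLike.congr_fun (coe_aeval_eq_eval _) _
  rw [h1, eval_lff]
  have h2 : (fun a => dot (β a) x) = (Matrix.of β).mulVec x := by
    funext a
    rfl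
  have h3 : ∑ a, (Matrix.of β)⁻¹ j a * dot (β a) x =
      ((Matrix.of β)⁻¹).mulVec ((Matrix.of β).mulVec x) j := by
    rw [← h2]
    rfl
  rw [h3, Matrix.mulVec_mulVec, Matrix.nonsing_inv_mul _ (Ne.isUnit hβ), Matrix.one_mulVec]

theorem eval_single_hom {Q : MvPolynomial (Fin n) K} {d : ℕ} (hQ : Q.IsHomogeneous d)
    (a0 : Fin n) (s : K) :
    eval (Pi.single a0 s) Q = s ^ d * coeff (Finsupp.single a0 d) Q := by
  classical
  rw [eval_eq]
  by_cases h0 : coeff (Finsupp.single a0 d) Q = 0
  · rw [h0, mul_zero]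
    refine Finset.sum_eq_zero fun m hm => ?_
    have hdeg : ∑ i, m i = d := by
      have h1 := hQ (MvPolynomial.mem_support_iff.1 hm)
      rw [← h1, Finsupp.weight_apply, Finsupp.sum_fintype _ _ (fun i => by simp)]
      simp
    obtain ⟨b, hb, hmb⟩ : ∃ b, b ≠ a0 ∧ m b ≠ 0 := by
      by_contra hcon
      push Not at hcon
      have h2 : m = Finsupp.single a0 d := by
        ext b
        by_cases hb : b = a0
        · subst hb
          rw [Finsupp.single_eq_same, ← hdeg, Finset.sum_eq_single b (fun c _ hc => hcon c hc)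
            (fun h => absurd (Finset.mem_univ _) h)]
        · rw [Finsupp.single_eq_of_ne hb, hcon b hb]
      rw [h2] at hm
      exact (MvPolynomial.mem_support_iff.1 hm) h0
    rw [Finset.prod_eq_zero (Finsupp.mem_support_iff.2 hmb), mul_zero]
    rw [Pi.single_eq_of_ne hb, zero_pow hmb]
  · rw [Finset.sum_eq_single (Finsupp.single a0 d)]
    · rw [mul_comm]
      congr 1
      by_cases hd : d = 0
      · subst hd
        simp
      · rw [Finsupp.support_single _ hd, Finset.prod_singleton, Pi.single_eq_same,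
          Finsupp.single_eq_same]
    · intro m hm hne
      have hdeg : ∑ i, m i = d := by
        have h1 := hQ (MvPolynomial.mem_support_iff.1 hm)
        rw [← h1, Finsupp.weight_apply, Finsupp.sum_fintype _ _ (fun i => by simp)]
        simp
      obtain ⟨b, hb, hmb⟩ : ∃ b, b ≠ a0 ∧ m b ≠ 0 := by
        by_contra hcon
        push Not at hcon
        apply hne
        ext b
        by_cases hb : b = a0
        · subst hb
          rw [Finsupp.single_eq_same, ← hdeg, Finset.sum_eq_single b (fun c _ hc => hcon c hc)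
            (fun h => absurd (Finset.mem_univ _) h)]
        · rw [Finsupp.single_eq_of_ne hb, hcon b hb]
      rw [Finset.prod_eq_zero (Finsupp.mem_support_iff.2 hmb), mul_zero]
      rw [Pi.single_eq_of_ne hb, zero_pow hmb]
    · intro h
      exact absurd (MvPolynomial.notMem_support_iff.1 h) h0

/-- the chain rule -/
theorem chain (β : Fin n → Fin n → K) (Q : MvPolynomial (Fin n) K) (j : Fin n) :
    pderiv j (aeval (fun a => lff (β a)) Q) =
      ∑ a, C (β a j) * aeval (fun a => lff (β a)) (pderiv a Q) := by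
  classical
  have hl : ∀ b : Fin n → K, pderiv j (lff b) = C (b j) := by
    intro b
    unfold lff
    rw [map_sum, Finset.sum_eq_single j]
    · rw [pderiv_C_mul, pderiv_X_self, mul_one]
    · intro i _ hi
      rw [pderiv_C_mul, pderiv_X_of_ne hi, mul_zero]
    · intro h
      exact absurd (Finset.mem_univ _) h
  induction Q using MvPolynomial.induction_on with
  | C c =>
    rw [aeval_C]
    simp only [pderiv_C, map_zero, mul_zero, Finset.sum_const_zero]
    exact pderiv_C
  | add p r hp hr =>
    rw [map_add, map_add, hp, hr, ← Finset.sum_add_distrib]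
    refine Finset.sum_congr rfl fun a _ => ?_
    rw [map_add, map_add, mul_add]
  | mul_X p i hp =>
    rw [map_mul, aeval_X, Derivation.leibniz, hp, hl, smul_eq_mul, smul_eq_mul]
    have h1 : ∀ a, C (β a j) * aeval (fun a => lff (β a)) (pderiv a (p * X i)) =
        lff (β i) * (C (β a j) * aeval (fun a => lff (β a)) (pderiv a p)) +
        (if a = i then aeval (fun a => lff (β a)) p * C (β i j) else 0) := by
      intro a
      rw [Derivation.leibniz, smul_eq_mul, smul_eq_mul, map_add, map_mul, map_mul, aeval_X]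
      by_cases ha : a = i
      · subst ha
        rw [pderiv_X_self, if_pos rfl, map_one]
        ring
      · rw [pderiv_X_of_ne (Ne.symm ha), if_neg ha, map_zero]
        ring
    simp only [h1, Finset.sum_add_distrib, Finset.sum_ite_eq', Finset.mem_univ, if_true]
    rw [← Finset.mul_sum]
    ring

theorem cc_back {β : Fin n → Fin n → K} (hβ : (Matrix.of β).det ≠ 0)
    (F : MvPolynomial (Fin n) K) : aeval (fun a => lff (β a)) (cc β F) = F := by
  unfold cc
  rw [comp_aeval_apply]
  have h1 : (fun j => aeval (fun a => lff (β a)) (lff ((Matrix.of β)⁻¹ j))) = X := by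
    funext j
    have h2 : aeval (fun a => lff (β a)) (lff ((Matrix.of β)⁻¹ j)) =
        ∑ b, C (∑ a, (Matrix.of β)⁻¹ j a * β a b) * X b := by
      unfold lff
      simp only [map_sum, map_mul, aeval_C, aeval_X, Finset.sum_mul, Finset.mul_sum]
      rw [Finset.sum_comm]
      refine Finset.sum_congr rfl fun b _ => Finset.sum_congr rfl fun a _ => ?_
      rw [mul_assoc]
      rfl
    rw [h2]
    have h3 : ∀ b, ∑ a, (Matrix.of β)⁻¹ j a * β a b = (1 : Matrix (Fin n) (Fin n) K) j b := by
      intro b
      rw [← Matrix.nonsing_inv_mul _ (Ne.isUnit hβ)]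
      rfl
    simp only [h3, Matrix.one_apply]
    rw [Finset.sum_eq_single j]
    · rw [if_pos rfl, map_one, one_mul]
    · intro b _ hb
      rw [if_neg (Ne.symm hb), map_zero, zero_mul]
    · intro h
      exact absurd (Finset.mem_univ _) h
  rw [h1]
  exact aeval_X_left_apply F

/-- the gradient in the coordinates `β` -/
theorem tg_cc {β : Fin n → Fin n → K} (hβ : (Matrix.of β).det ≠ 0)
    (F : MvPolynomial (Fin n) K) (y : Fin n → K) (j : Fin n) :
    tg y F j = ∑ a, β a j * eval (fun a => dot (β a) y) (pderiv a (cc β F)) := by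
  have h1 := chain β (cc β F) j
  rw [cc_back hβ] at h1
  unfold tg
  rw [h1, map_sum]
  refine Finset.sum_congr rfl fun a _ => ?_
  rw [map_mul, eval_C, eval_comp]

theorem rows_unique {β : Fin n → Fin n → K} (hβ : (Matrix.of β).det ≠ 0) {c c' : Fin n → K}
    (h : ∀ j, ∑ a, β a j * c a = ∑ a, β a j * c' a) : c = c' := by
  have h1 : Matrix.vecMul c (Matrix.of β) = Matrix.vecMul c' (Matrix.of β) := by
    funext j
    have h2 := h j
    simp only [Matrix.vecMul, dotProduct, Matrix.of_apply]
    rw [Finset.sum_congr rfl fun a _ => mul_comm (c a) (β a j), h2]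
    exact Finset.sum_congr rfl fun a _ => mul_comm _ _
  have h2 := congrArg (fun v => Matrix.vecMul v (Matrix.of β)⁻¹) h1
  simp only [Matrix.vecMul_vecMul, Matrix.mul_nonsing_inv _ (Ne.isUnit hβ),
    Matrix.vecMul_one] at h2
  exact h2

/-- a hypersurface which does not pass through `y` -/
theorem coeff_pure {β : Fin n → Fin n → K} (hβ : (Matrix.of β).det ≠ 0)
    {F : MvPolynomial (Fin n) K} {d : ℕ} (hF : F.IsHomogeneous d) {y : Fin n → K} {a0 : Fin n}
    (hy : ∀ a, a ≠ a0 → dot (β a) y = 0) :
    eval y F = dot (β a0) y ^ d * coeff (Finsupp.single a0 d) (cc β F) := by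
  rw [← eval_cc hβ F y]
  have h1 : (fun a => dot (β a) y) = Pi.single a0 (dot (β a0) y) := by
    funext a
    by_cases ha : a = a0
    · subst ha
      rw [Pi.single_eq_same]
    · rw [Pi.single_eq_of_ne ha, hy a ha]
  rw [h1, eval_single_hom (cc_hom β hF)]

/-- a hypersurface which passes through `y` with the tangent hyperplane `β a1` -/
theorem coeff_tan {β : Fin n → Fin n → K} (hβ : (Matrix.of β).det ≠ 0)
    {F : MvPolynomial (Fin n) K} {d : ℕ} (hF : F.IsHomogeneous d) {y : Fin n → K} {a0 a1 : Fin n}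
    (hy : ∀ a, a ≠ a0 → dot (β a) y = 0) (h1 : β a1 = tg y F) (a : Fin n) (ha : a ≠ a0) :
    dot (β a0) y ^ (d - 1) * coeff (Finsupp.single a0 (d - 1) + Finsupp.single a 1) (cc β F) =
      if a = a1 then 1 else 0 := by
  classical
  have hv : (fun a => dot (β a) y) = Pi.single a0 (dot (β a0) y) := by
    funext a
    by_cases ha : a = a0
    · subst ha
      rw [Pi.single_eq_same]
    · rw [Pi.single_eq_of_ne ha, hy a ha]
  have h2 := rows_unique hβ (c := fun a => eval (fun a => dot (β a) y) (pderiv a (cc β F)))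
    (c' := fun a => if a = a1 then 1 else 0) (by
      intro j
      rw [← tg_cc hβ F y j, ← h1]
      simp)
  have h3 := congrFun h2 a
  rw [hv, eval_single_hom (cc_hom β hF).pderiv, coeff_pderiv, Finsupp.single_eq_of_ne ha,
    Nat.cast_zero, zero_add, mul_one] at h3
  exact h3

theorem sum_ite_zero (a0 : Fin n) (m : Fin n → ℕ) :
    ∑ a, (if a = a0 then 0 else 1) * m a + m a0 = ∑ a, m a := by
  have h1 : ∀ a, m a = (if a = a0 then 0 else 1) * m a + (if a = a0 then m a0 else 0) := by
    intro a
    by_cases ha : a = a0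
    · subst ha
      simp
    · simp [ha]
  conv_rhs => rw [Finset.sum_congr rfl fun a _ => h1 a, Finset.sum_add_distrib]
  rw [Finset.sum_ite_eq' Finset.univ a0, if_pos (Finset.mem_univ _)]

theorem eq_single_of_sum {m : Fin n →₀ ℕ} {a0 : Fin n} {d : ℕ} (hm : ∑ a, m a = d)
    (h0 : ∑ a, (if a = a0 then 0 else 1) * m a = 0) : m = Finsupp.single a0 d := by
  have h1 := sum_ite_zero a0 m
  ext a
  by_cases ha : a = a0
  · subst ha
    rw [Finsupp.single_eq_same]
    omega
  · rw [Finsupp.single_eq_of_ne ha]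
    have h2 := (Finset.sum_eq_zero_iff.1 h0) a (Finset.mem_univ a)
    rw [if_neg ha, one_mul] at h2
    exact h2

theorem eq_single_add_of_sum {m : Fin n →₀ ℕ} {a0 : Fin n} {d : ℕ} (hm : ∑ a, m a = d)
    (h1 : ∑ a, (if a = a0 then 0 else 1) * m a = 1) :
    ∃ a, a ≠ a0 ∧ m = Finsupp.single a0 (d - 1) + Finsupp.single a 1 := by
  classical
  have h2 := sum_ite_zero a0 m
  obtain ⟨a, -, ha⟩ := Finset.exists_ne_zero_of_sum_ne_zero (h1.trans_ne one_ne_zero)
  have ha0 : a ≠ a0 := by
    rintro rfl
    simp at ha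
  rw [if_neg ha0, one_mul] at ha
  have h3 : (if a = a0 then 0 else 1) * m a + ∑ b ∈ Finset.univ.erase a,
      (if b = a0 then 0 else 1) * m b = 1 :=
    (Finset.add_sum_erase Finset.univ (fun b => (if b = a0 then 0 else 1) * m b)
      (Finset.mem_univ a)).trans h1
  rw [if_neg ha0, one_mul] at h3
  refine ⟨a, ha0, ?_⟩
  ext b
  rw [Finsupp.add_apply]
  by_cases hb0 : b = a0
  · subst hb0
    rw [Finsupp.single_eq_same, Finsupp.single_eq_of_ne (Ne.symm ha0)]
    omega
  · rw [Finsupp.single_eq_of_ne hb0, zero_add]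
    by_cases hb : b = a
    · subst hb
      rw [Finsupp.single_eq_same]
      omega
    · rw [Finsupp.single_eq_of_ne hb]
      have h4 : ∑ b ∈ Finset.univ.erase a, (if b = a0 then 0 else 1) * m b = 0 := by omega
      have h5 := (Finset.sum_eq_zero_iff.1 h4) b (Finset.mem_erase.2 ⟨hb, Finset.mem_univ _⟩)
      rw [if_neg hb0, one_mul] at h5
      exact h5

theorem deg_supp {Q : MvPolynomial (Fin n) K} {d : ℕ} (hQ : Q.IsHomogeneous d)
    {m : Fin n →₀ ℕ} (hm : m ∈ Q.support) : ∑ i, m i = d := by
  have h1 := hQ (MvPolynomial.mem_support_iff.1 hm)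
  rw [← h1, Finsupp.weight_apply, Finsupp.sum_fintype _ _ (fun i => by simp)]
  simp

theorem vertex_pure {Q : MvPolynomial (Fin n) K} {d : ℕ} (hQ : Q.IsHomogeneous d) (a0 : Fin n) :
    ∀ m ∈ Q.support, m ≠ Finsupp.single a0 d →
      ∑ a, (if a = a0 then 0 else 1) * (Finsupp.single a0 d : Fin n →₀ ℕ) a <
        ∑ a, (if a = a0 then 0 else 1) * m a := by
  intro m hm hne
  have h1 : ∑ a, (if a = a0 then 0 else 1) * (Finsupp.single a0 d : Fin n →₀ ℕ) a = 0 := by
    refine Finset.sum_eq_zero fun a _ => ?_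
    by_cases ha : a = a0
    · rw [if_pos ha, zero_mul]
    · rw [Finsupp.single_eq_of_ne ha, mul_zero]
  rw [h1]
  by_contra hcon
  exact hne (eq_single_of_sum (deg_supp hQ hm) (by omega))

theorem vertex_tan {Q : MvPolynomial (Fin n) K} {d : ℕ} (hQ : Q.IsHomogeneous d)
    {a0 a1 : Fin n} (ha : a1 ≠ a0) (h0 : coeff (Finsupp.single a0 d) Q = 0)
    (h1 : ∀ a, a ≠ a0 → a ≠ a1 → coeff (Finsupp.single a0 (d - 1) + Finsupp.single a 1) Q = 0) :
    ∀ m ∈ Q.support, m ≠ Finsupp.single a0 (d - 1) + Finsupp.single a1 1 →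
      ∑ a, (if a = a0 then 0 else 1) *
        (Finsupp.single a0 (d - 1) + Finsupp.single a1 1 : Fin n →₀ ℕ) a <
        ∑ a, (if a = a0 then 0 else 1) * m a := by
  intro m hm hne
  have h2 : ∑ a, (if a = a0 then 0 else 1) *
      (Finsupp.single a0 (d - 1) + Finsupp.single a1 1 : Fin n →₀ ℕ) a = 1 := by
    rw [Finset.sum_eq_single a1]
    · rw [if_neg ha, one_mul, Finsupp.add_apply, Finsupp.single_eq_same,
        Finsupp.single_eq_of_ne ha]
    · intro b _ hb
      by_cases hb0 : b = a0
      · rw [if_pos hb0, zero_mul]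
      · rw [Finsupp.add_apply, Finsupp.single_eq_of_ne hb0, Finsupp.single_eq_of_ne hb, add_zero,
          mul_zero]
    · intro h
      exact absurd (Finset.mem_univ _) h
  rw [h2]
  by_contra hcon
  have hs := deg_supp hQ hm
  rcases Nat.eq_zero_or_pos (∑ a, (if a = a0 then 0 else 1) * m a) with h3 | h3
  · have h4 := eq_single_of_sum hs h3
    rw [h4] at hm
    exact MvPolynomial.mem_support_iff.1 hm h0
  · have h5 : ∑ a, (if a = a0 then 0 else 1) * m a = 1 := by omega
    obtain ⟨a, ha0, h4⟩ := eq_single_add_of_sum hs h5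
    by_cases ha1 : a = a1
    · exact hne (by rw [h4, ha1])
    · rw [h4] at hm
      exact MvPolynomial.mem_support_iff.1 hm (h1 a ha0 ha1)

end Pool.Agent.H7C
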