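import Mathlib
import Pool.Agent.H7C.Fin

/-!
The inequality for all choices from a finite family.
-/

set_option autoImplicit false
set_option linter.unusedSectionVars false

namespace Pool.Agent.H7C

open MvPolynomial Finset Module Height NumberField
open Pool.Agent.W180.OP (Pl av wt nrm le_nrm nrm_pos nrm_nonneg exists_nrm lam lam_eq wt_nonneg)
open Pool.Agent.R405 (Good up up_ne lff lff_hom eval_lff dot)
open Pool.Agent.H7V1 (ph ph_low)

/-- linear forms, a form in these, and an exponent -/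
structure Dat (K : Type) [Field K] (n : ℕ) where
  β : Fin n → Fin n → K
  Q : MvPolynomial (Fin n) K
  g : ℕ
  e : Fin n →₀ ℕ
  ω : Fin n → ℕ

variable {K : Type} [Field K] {n : ℕ}

/-- the conditions -/
def Dat.Ok (D : Dat K n) : Prop :=
  (Matrix.of D.β).det ≠ 0 ∧ 0 < D.g ∧ D.Q.IsHomogeneous D.g ∧ coeff D.e D.Q ≠ 0 ∧
    ∀ m ∈ D.Q.support, m ≠ D.e → ∑ a, D.ω a * D.e a < ∑ a, D.ω a * m a

/-- the point is not on the hyperplanes and the hypersurface -/
def Dat.Off (D : Dat K n) (x : Fin n → K) : Prop :=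
  (∀ a, dot (D.β a) x ≠ 0) ∧ eval (fun a => dot (D.β a) x) D.Q ≠ 0

/-- the sum of local heights -/
noncomputable def Dat.val (D : Dat K n) (f : AbsoluteValue K ℝ) (x : Fin n → K) : ℝ :=
  ∑ a, ph f x (D.β a) + max 0 (rho f D.β D.Q D.e x) / D.g

/-- the empty data -/
noncomputable def Dat.nil (K : Type) [Field K] (n : ℕ) : Dat K n := ⟨0, 0, 0, 0, 0⟩

theorem Dat.val_low (D : Dat K n) (f : AbsoluteValue K ℝ) : ∃ C : ℝ, 0 ≤ C ∧
    ∀ x : Fin n → K, x ≠ 0 → D.Off x → -C ≤ D.val f x := by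
  refine ⟨∑ a, |Real.log (∑ b, f (D.β a b))|, Finset.sum_nonneg fun a _ => abs_nonneg _,
    fun x hx hD => ?_⟩
  have h1 : -∑ a, |Real.log (∑ b, f (D.β a b))| ≤ ∑ a, ph f x (D.β a) := by
    rw [← Finset.sum_neg_distrib]
    exact Finset.sum_le_sum fun a _ => ph_low f hx (hD.1 a)
  have h2 : 0 ≤ max 0 (rho f D.β D.Q D.e x) / (D.g : ℝ) :=
    div_nonneg (le_max_left _ _) (Nat.cast_nonneg _)
  unfold Dat.val
  linarith

theorem core_fam {k K : Type} [Field k] [NumberField k] [Field K] [NumberField K] [Algebra k K]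
    {n : ℕ} [IsGalois ℚ K] (hi : ∃ z : K, z ^ 2 = -1) (hn : 1 ≤ n) (S : Finset (Pl k))
    (f : Pl k → AbsoluteValue K ℝ) (hf : ∀ v ∈ S, Good v (f v)) {ι : Type} [Fintype ι]
    (D : ι → Dat K n) (hD : ∀ i, (D i).Ok) (ε : ℝ) (hε : 0 < ε) :
    ∃ (Z : Finset (MvPolynomial (Fin n) k)) (C : ℝ),
      (∀ G ∈ Z, G ≠ 0 ∧ ∃ t, G.IsHomogeneous t) ∧ ∀ x : Fin n → k, x ≠ 0 →
        (∀ G ∈ Z, eval x G ≠ 0) → (∀ i, (D i).Off (up K x)) ∧
        ∀ c : Pl k → ι, ∑ v ∈ S, wt v * (D (c v)).val (f v) (up K x) ≤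
            (n + ε) * logHeight x + C := by
  classical
  obtain ⟨dd, hdd⟩ : ∃ dd : (S → ι) → Pl k → Dat K n,
      ∀ s v (hv : v ∈ S), dd s v = D (s ⟨v, hv⟩) :=
    ⟨fun s v => if hv : v ∈ S then D (s ⟨v, hv⟩) else Dat.nil K n, fun s v hv => dif_pos hv⟩
  have h1 : ∀ s : S → ι, ∃ (Z : Finset (MvPolynomial (Fin n) k)) (C : ℝ),
      (∀ G ∈ Z, G ≠ 0 ∧ ∃ t, G.IsHomogeneous t) ∧ ∀ x : Fin n → k, x ≠ 0 →
        (∀ G ∈ Z, eval x G ≠ 0) →
        ∑ v ∈ S, wt v * (dd s v).val (f v) (up K x) ≤ (n + ε) * logHeight x + C := by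
    intro s
    have hok : ∀ v ∈ S, (dd s v).Ok := by
      intro v hv
      rw [hdd s v hv]
      exact hD _
    obtain ⟨Z, C, hZ, hC⟩ := core2 hi hn S f hf (fun v => (dd s v).β) (fun v hv => (hok v hv).1)
      (fun v => (dd s v).Q) (fun v => (dd s v).g) (fun v hv => (hok v hv).2.1)
      (fun v hv => (hok v hv).2.2.1) (fun v => (dd s v).e) (fun v hv => (hok v hv).2.2.2.1)
      (fun v => (dd s v).ω) (fun v hv => (hok v hv).2.2.2.2) ε hε
    exact ⟨Z, C, hZ, fun x hx hZx => (hC x hx hZx).2.2⟩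
  choose ZT CT hZT hCT using h1
  -- the forms over `k`
  have hdes : ∀ P : MvPolynomial (Fin n) K, ∃ G : MvPolynomial (Fin n) k, P ≠ 0 → (G ≠ 0 ∧
      (∀ t, P.IsHomogeneous t → G.IsHomogeneous t) ∧
      ∀ x : Fin n → k, eval x G ≠ 0 → eval (up K x) P ≠ 0) := by
    intro P
    by_cases hP : P = 0
    · exact ⟨0, fun h => absurd hP h⟩
    · obtain ⟨G, hG⟩ := descendP (k := k) P hP
      exact ⟨G, fun _ => hG⟩
  choose E hE using hdes
  obtain ⟨W, hW⟩ : ∃ W : Finset (MvPolynomial (Fin n) K), W =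
      Finset.univ.image (fun i => aeval (fun a => lff ((D i).β a)) (D i).Q) ∪
        (Finset.univ : Finset (ι × Fin n)).image (fun p => lff ((D p.1).β p.2)) := ⟨_, rfl⟩
  have hWne : ∀ P ∈ W, P ≠ 0 ∧ ∃ t, P.IsHomogeneous t := by
    intro P hP
    rw [hW] at hP
    rcases Finset.mem_union.1 hP with h | h
    · obtain ⟨i, -, rfl⟩ := Finset.mem_image.1 h
      obtain ⟨g1, g2, g3, g4, g5⟩ := hD i
      refine ⟨form_ne g1 g4 g5, (D i).g, ?_⟩
      have h1 := g3.aeval (fun a => lff ((D i).β a)) (n := 1) (fun a => lff_hom _)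
      rwa [one_mul] at h1
    · obtain ⟨p, -, rfl⟩ := Finset.mem_image.1 h
      refine ⟨lff_ne fun h0 => (hD p.1).1
        (Matrix.det_eq_zero_of_row_eq_zero p.2 fun j => congrFun h0 j), 1, lff_hom _⟩
  refine ⟨(Finset.univ.biUnion ZT) ∪ W.image E, ∑ s, |CT s|, ?_, ?_⟩
  · intro G hG
    rcases Finset.mem_union.1 hG with h | h
    · obtain ⟨s, -, hs⟩ := Finset.mem_biUnion.1 h
      exact hZT s G hs
    · obtain ⟨P, hP, rfl⟩ := Finset.mem_image.1 h
      obtain ⟨h1, t, h2⟩ := hWne P hP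
      exact ⟨(hE P h1).1, t, (hE P h1).2.1 t h2⟩
  intro x hx hZx
  have hWx : ∀ P ∈ W, eval (up K x) P ≠ 0 := fun P hP =>
    (hE P (hWne P hP).1).2.2 x (hZx _ (Finset.mem_union_right _ (Finset.mem_image_of_mem _ hP)))
  refine ⟨fun i => ⟨fun a => ?_, ?_⟩, fun c => ?_⟩
  · have h1 := hWx (lff ((D i).β a)) (by
      rw [hW]
      exact Finset.mem_union_right _ (Finset.mem_image.2 ⟨(i, a), Finset.mem_univ _, rfl⟩))
    rwa [eval_lff] at h1
  · have h1 := hWx (aeval (fun a => lff ((D i).β a)) (D i).Q) (by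
      rw [hW]
      exact Finset.mem_union_left _ (Finset.mem_image_of_mem _ (Finset.mem_univ _)))
    rwa [eval_comp] at h1
  · have h1 := hCT (fun v => c v.1) x hx (fun G hG => hZx G (Finset.mem_union_left _
      (Finset.mem_biUnion.2 ⟨_, Finset.mem_univ _, hG⟩)))
    have h2 : ∑ v ∈ S, wt v * (dd (fun v => c v.1) v).val (f v) (up K x) =
        ∑ v ∈ S, wt v * (D (c v)).val (f v) (up K x) :=
      Finset.sum_congr rfl fun v hv => by rw [hdd _ v hv]
    rw [h2] at h1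
    have h3 : CT (fun v => c v.1) ≤ ∑ s, |CT s| :=
      (le_abs_self _).trans (Finset.single_le_sum (f := fun s => |CT s|)
        (fun _ _ => abs_nonneg _) (Finset.mem_univ _))
    linarith

end Pool.Agent.H7C
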