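import Mathlib
import Pool.Agent.H7C.Coord
import Pool.Agent.H7C.Dat

/-!
The data at a point.
-/

set_option autoImplicit false
set_option linter.unusedSectionVars false

namespace Pool.Agent.H7C

open MvPolynomial Finset
open Pool.Agent.W180.OP (nrm le_nrm nrm_pos nrm_nonneg exists_nrm lam lam_eq)
open Pool.Agent.R405 (lff lff_hom eval_lff tg tg_self dot)
open Pool.Agent.H7V1 (ph ph_low ph_single ph_mv ly ly_ge dst dst_pos NC mv dot_mv dot_single sel
  span_top)

variable {K : Type} [Field K] {n q : ℕ}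

theorem exists_idx {T : Finset (Fin n → K)} {β : Fin n → (Fin n → K)}
    (hs : ∀ φ : (Fin n → K) → ℝ, ∑ a, φ (β a) = ∑ v ∈ T, φ v) {u : Fin n → K} (hu : u ∈ T) :
    ∃ a, β a = u := by
  classical
  have h1 := hs fun v => if v = u then 1 else 0
  rw [Finset.sum_ite_eq' T u, if_pos hu] at h1
  by_contra hcon
  push Not at hcon
  rw [Finset.sum_eq_zero fun a _ => if_neg (hcon a)] at h1
  exact zero_ne_one h1

theorem dot_add_left (u v x : Fin n → K) : dot (u + v) x = dot u x + dot v x := by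
  unfold dot
  rw [← Finset.sum_add_distrib]
  exact Finset.sum_congr rfl fun j _ => by rw [Pi.add_apply, add_mul]

theorem dot_smul_left (c : K) (u x : Fin n → K) : dot (c • u) x = c * dot u x := by
  unfold dot
  rw [Finset.mul_sum]
  exact Finset.sum_congr rfl fun j _ => by rw [Pi.smul_apply, smul_eq_mul, mul_assoc]

theorem dot_zero_left (x : Fin n → K) : dot (0 : Fin n → K) x = 0 := by
  unfold dot
  exact Finset.sum_eq_zero fun j _ => by rw [Pi.zero_apply, zero_mul]

theorem row_inj {β : Fin n → Fin n → K} (hβ : (Matrix.of β).det ≠ 0) {a b : Fin n}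
    (h : β a = β b) : a = b := by
  by_contra hab
  exact hβ (Matrix.det_zero_of_row_eq hab h)

open Classical in
theorem near_sel {F : Fin q → MvPolynomial (Fin n) K} {d : Fin q → ℕ}
    (hF : ∀ i, (F i).IsHomogeneous (d i)) (hS : NC F) {y : Fin n → K} (hy : y ≠ 0) :
    ∃ (β : Fin n → Fin n → K) (a0 b0 : Fin n), (Matrix.of β).det ≠ 0 ∧ y b0 ≠ 0 ∧
      β a0 = Pi.single b0 1 ∧ (∀ a, a ≠ a0 → dot (β a) y = 0) ∧
      (∀ i, eval y (F i) = 0 → ∃ a, a ≠ a0 ∧ β a = tg y (F i)) ∧
      ∀ (f : AbsoluteValue K ℝ) (x : Fin n → K), (∀ a, dot (β a) x ≠ 0) →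
        ph f x (β a0) + ∑ j ∈ univ.filter (fun i => eval y (F i) = 0), ph f x (tg y (F j)) +
          ((n : ℝ) - 1 - (univ.filter (fun i => eval y (F i) = 0)).card) *
            (ly f y x - |Real.log (nrm f y)|) ≤ ∑ a, ph f x (β a) := by
  classical
  obtain ⟨Iy, hIy⟩ : ∃ Iy : Finset (Fin q), Iy = univ.filter (fun i => eval y (F i) = 0) :=
    ⟨_, rfl⟩
  have hmem : ∀ i, i ∈ Iy ↔ eval y (F i) = 0 := by
    intro i
    rw [hIy, Finset.mem_filter]
    exact ⟨fun h => h.2, fun h => ⟨Finset.mem_univ _, h⟩⟩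
  rw [← hIy]
  have hind := hS.at hy
  have hcoe : {i | eval y (F i) = 0} = (Iy : Set (Fin q)) := by
    ext i
    rw [Finset.mem_coe, hmem]
    rfl
  rw [hcoe] at hind
  have hinj := hind.injOn
  obtain ⟨b0, hb0⟩ := Function.ne_iff.1 hy
  have hyb : y b0 ≠ 0 := hb0
  obtain ⟨A, hA⟩ : ∃ A : Finset (Fin n → K), A = Iy.image fun i => tg y (F i) := ⟨_, rfl⟩
  obtain ⟨u0, hu0⟩ : ∃ u0 : Fin n → K, u0 = Pi.single b0 1 := ⟨_, rfl⟩
  have hu0y : dot u0 y = y b0 := by rw [hu0, dot_single, one_mul]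
  have hAy : ∀ v ∈ A, dot v y = 0 := by
    intro v hv
    rw [hA] at hv
    obtain ⟨i, hi, rfl⟩ := Finset.mem_image.1 hv
    exact tg_self (hF i) y ((hmem i).1 hi)
  have hAind : LinearIndepOn K id (A : Set (Fin n → K)) := by
    rw [hA, Finset.coe_image]
    exact hind.id_image
  have hu0A : u0 ∉ Submodule.span K (A : Set (Fin n → K)) := by
    intro h
    have h1 : ∀ v ∈ Submodule.span K (A : Set (Fin n → K)), dot v y = 0 := by
      intro v hv
      induction hv using Submodule.span_induction with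
      | mem v hv => exact hAy v hv
      | zero => exact dot_zero_left y
      | add u v _ _ h1 h2 => rw [dot_add_left, h1, h2, add_zero]
      | smul c u _ h1 => rw [dot_smul_left, h1, mul_zero]
    exact hyb (by rw [← hu0y]; exact h1 u0 h)
  have hu0A' : u0 ∉ A := fun h => hu0A (Submodule.subset_span h)
  obtain ⟨A', hA'⟩ : ∃ A' : Finset (Fin n → K), A' = insert u0 A := ⟨_, rfl⟩
  have hA'ind : LinearIndepOn K id (A' : Set (Fin n → K)) := by
    rw [hA', Finset.coe_insert]
    exact hAind.id_insert hu0A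
  obtain ⟨W, hW⟩ : ∃ W : Finset (Fin n → K), W = A' ∪
    ((univ ×ˢ univ).image fun p : Fin n × Fin n => mv y p.1 p.2) := ⟨_, rfl⟩
  obtain ⟨T, hAT, hTW, hT0, hTc, β, hβT, hβdet, hβs⟩ := sel A' W
    (by rw [hW]; exact Finset.subset_union_left) hA'ind (by
    refine span_top b0 y hyb _ ?_ ?_
    · apply Submodule.subset_span
      rw [hW, Finset.mem_coe, ← hu0, hA']
      exact Finset.mem_union_left _ (Finset.mem_insert_self _ _)
    · intro b
      apply Submodule.subset_span
      rw [hW, Finset.mem_coe]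
      exact Finset.mem_union_right _ (Finset.mem_image.2 ⟨(b0, b),
        Finset.mem_product.2 ⟨Finset.mem_univ _, Finset.mem_univ _⟩, rfl⟩))
  obtain ⟨a0, ha0⟩ := exists_idx hβs (hAT (by rw [hA']; exact Finset.mem_insert_self u0 A))
  have hTv : ∀ v ∈ T, v = u0 ∨ v ∈ A ∨ ∃ p : Fin n × Fin n, v = mv y p.1 p.2 := by
    intro v hv
    have h1 := hTW hv
    rw [hW] at h1
    rcases Finset.mem_union.1 h1 with h | h
    · rw [hA'] at h
      rcases Finset.mem_insert.1 h with h | h
      · exact Or.inl h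
      · exact Or.inr (Or.inl h)
    · obtain ⟨p, -, rfl⟩ := Finset.mem_image.1 h
      exact Or.inr (Or.inr ⟨p, rfl⟩)
  refine ⟨β, a0, b0, hβdet, hyb, by rw [ha0, hu0], ?_, ?_, ?_⟩
  · intro a ha
    rcases hTv (β a) (hβT a) with h | h | ⟨p, h⟩
    · exact absurd (row_inj hβdet (h.trans ha0.symm)) ha
    · exact hAy _ h
    · rw [h, dot_mv]
      ring
  · intro i hi
    obtain ⟨a, ha⟩ := exists_idx hβs (u := tg y (F i)) (hAT (by
      rw [hA', hA]
      exact Finset.mem_insert_of_mem (Finset.mem_image_of_mem _ ((hmem i).2 hi))))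
    refine ⟨a, ?_, ha⟩
    rintro rfl
    apply hu0A'
    rw [← ha0, ha, hA]
    exact Finset.mem_image_of_mem _ ((hmem i).2 hi)
  · intro f x hx
    rw [hβs (ph f x), ← Finset.sum_sdiff hAT]
    have hsum : ∑ v ∈ A', ph f x v = ph f x u0 + ∑ j ∈ Iy, ph f x (tg y (F j)) := by
      rw [hA', Finset.sum_insert hu0A', hA, Finset.sum_image (fun i hi j hj h => hinj hi hj h)]
    have hAc : A'.card = Iy.card + 1 := by
      rw [hA', Finset.card_insert_of_notMem hu0A', hA, Finset.card_image_of_injOn hinj]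
    have hsd : (T \ A').card + (Iy.card + 1) = n := by
      rw [← hAc, Finset.card_sdiff_add_card_eq_card hAT, hTc]
    have hsdR : ((T \ A').card : ℝ) = (n : ℝ) - 1 - Iy.card := by
      have h1 : ((T \ A').card : ℝ) + (Iy.card + 1) = n := by exact_mod_cast hsd
      linarith
    have hterm : ∀ v ∈ T \ A', ly f y x - |Real.log (nrm f y)| ≤ ph f x v := by
      intro v hv
      obtain ⟨hvT, hvA⟩ := Finset.mem_sdiff.1 hv
      obtain ⟨a, rfl⟩ := exists_idx hβs hvT
      rcases hTv _ hvT with h | h | ⟨p, h⟩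
      · exact absurd (by rw [hA', h]; exact Finset.mem_insert_self _ _) hvA
      · exact absurd (by rw [hA']; exact Finset.mem_insert_of_mem h) hvA
      · have h0 := hx a
        rw [h] at h0 ⊢
        have h1 := ph_mv f p.1 p.2 h0
        have h2 := le_abs_self (Real.log (nrm f y))
        linarith
    have h2 : (T \ A').card • (ly f y x - |Real.log (nrm f y)|) ≤ ∑ v ∈ T \ A', ph f x v :=
      Finset.card_nsmul_le_sum _ _ _ hterm
    rw [nsmul_eq_mul, hsdR] at h2
    rw [hsum, ha0]
    linarith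

theorem rho_cc (f : AbsoluteValue K ℝ) {β : Fin n → Fin n → K} (hβ : (Matrix.of β).det ≠ 0)
    (F : MvPolynomial (Fin n) K) (e : Fin n →₀ ℕ) (x : Fin n → K) :
    rho f β (cc β F) e x = ∑ a, (e a : ℝ) * Real.log (f (dot (β a) x)) -
      Real.log (f (eval x F)) := by
  unfold rho
  rw [eval_cc hβ]

theorem max_low {a b p c : ℝ} (hb : 1 ≤ b) (hp : 0 ≤ p) (hc : c = a - (b - 1) * p) :
    1 / b * max 0 a ≤ p + max 0 c / b := by
  have hb0 : 0 < b := by linarith
  have h1 : max 0 a ≤ max 0 c + (b - 1) * p := by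
    have h2 : 0 ≤ (b - 1) * p := mul_nonneg (by linarith) hp
    refine max_le ?_ ?_
    · have := le_max_left 0 c
      linarith
    · have := le_max_right 0 c
      linarith
  rw [one_div, inv_mul_le_iff₀ hb0, mul_add, mul_div_cancel₀ _ hb0.ne']
  nlinarith

open Classical in
/-- the data at a point of a component -/
theorem near_dat {F : Fin q → MvPolynomial (Fin n) K} {d : Fin q → ℕ}
    (hF : ∀ i, (F i).IsHomogeneous (d i)) (hS : NC F) {y : Fin n → K} (hy : y ≠ 0) {i : Fin q}
    (hd : 1 ≤ d i) (hi : eval y (F i) = 0) :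
    ∃ D : Dat K n, D.Ok ∧ (∀ x, D.Off x → ∀ j, eval y (F j) = 0 → dot (tg y (F j)) x ≠ 0) ∧
      ∀ (f : AbsoluteValue K ℝ) (x : Fin n → K), x ≠ 0 → D.Off x → eval x (F i) ≠ 0 ∧
        ∑ j ∈ univ.filter (fun i => eval y (F i) = 0), ph f x (tg y (F j)) +
          1 / (d i : ℝ) * max 0 (lam f (d i) (F i) x - ph f x (tg y (F i))) +
          ((n : ℝ) - 1 - (univ.filter (fun i => eval y (F i) = 0)).card) *
            (ly f y x - |Real.log (nrm f y)|) ≤ D.val f x := by
  classical
  obtain ⟨β, a0, b0, hβ, hyb, ha0, hβy, hβt, hsum⟩ := near_sel hF hS hy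
  obtain ⟨a1, ha1, hat⟩ := hβt i hi
  have hs : dot (β a0) y ≠ 0 := by
    rw [ha0, dot_single, one_mul]
    exact hyb
  obtain ⟨e, he⟩ : ∃ e : Fin n →₀ ℕ, e = Finsupp.single a0 (d i - 1) + Finsupp.single a1 1 :=
    ⟨_, rfl⟩
  have hpure := coeff_pure hβ (hF i) (a0 := a0) hβy
  rw [hi] at hpure
  have hc0 : coeff (Finsupp.single a0 (d i)) (cc β (F i)) = 0 := by
    rcases mul_eq_zero.1 hpure.symm with h | h
    · exact absurd h (pow_ne_zero _ hs)
    · exact h
  refine ⟨⟨β, cc β (F i), d i, e, fun a => if a = a0 then 0 else 1⟩, ?_, ?_, ?_⟩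
  · refine ⟨hβ, hd, cc_hom β (hF i), ?_, ?_⟩
    · intro h0
      have h1 := coeff_tan hβ (hF i) (a0 := a0) hβy hat a1 ha1
      rw [if_pos rfl, ← he] at h1
      have h2 : coeff e (cc β (F i)) = 0 := h0
      rw [h2, mul_zero] at h1
      exact zero_ne_one h1
    · show ∀ m ∈ (cc β (F i)).support, m ≠ e → ∑ a, (if a = a0 then 0 else 1) * e a <
        ∑ a, (if a = a0 then 0 else 1) * m a
      rw [he]
      refine vertex_tan (cc_hom β (hF i)) ha1 hc0 fun a h0 h1 => ?_
      have h2 := coeff_tan hβ (hF i) (a0 := a0) hβy hat a h0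
      rw [if_neg h1] at h2
      rcases mul_eq_zero.1 h2 with h | h
      · exact absurd h (pow_ne_zero _ hs)
      · exact h
  · intro x hx j hj
    obtain ⟨a, -, ha⟩ := hβt j hj
    rw [← ha]
    exact hx.1 a
  · intro f x hx hoff
    have hFx : eval x (F i) ≠ 0 := by
      have h1 := hoff.2
      have h2 : eval (fun a => dot (β a) x) (cc β (F i)) ≠ 0 := h1
      rwa [eval_cc hβ] at h2
    refine ⟨hFx, ?_⟩
    have hβx : ∀ a, dot (β a) x ≠ 0 := hoff.1
    have h1 := hsum f x hβx
    have hp0 : 0 ≤ ph f x (β a0) := by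
      have h2 := hβx a0
      rw [ha0] at h2 ⊢
      exact ph_single f b0 h2
    have hρ : rho f β (cc β (F i)) e x = (lam f (d i) (F i) x - ph f x (tg y (F i))) -
        ((d i : ℝ) - 1) * ph f x (β a0) := by
      rw [rho_cc f hβ, he, lam_eq f _ _ hx hFx, ← hat]
      unfold ph
      have h2 : ∑ a, (((Finsupp.single a0 (d i - 1) + Finsupp.single a1 1 : Fin n →₀ ℕ) a : ℕ) : ℝ) *
          Real.log (f (dot (β a) x)) = ((d i : ℝ) - 1) * Real.log (f (dot (β a0) x)) +
            Real.log (f (dot (β a1) x)) := by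
        have h3 : ∀ a, (((Finsupp.single a0 (d i - 1) + Finsupp.single a1 1 : Fin n →₀ ℕ) a : ℕ) : ℝ) *
            Real.log (f (dot (β a) x)) = (if a = a0 then ((d i : ℝ) - 1) *
              Real.log (f (dot (β a0) x)) else 0) +
              (if a = a1 then Real.log (f (dot (β a1) x)) else 0) := by
          intro a
          rw [Finsupp.add_apply]
          by_cases h0 : a = a0
          · subst h0
            rw [if_pos rfl, Finsupp.single_eq_same, Finsupp.single_eq_of_ne (Ne.symm ha1),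
              if_neg (Ne.symm ha1), add_zero, add_zero, Nat.cast_sub hd, Nat.cast_one]
          · rw [if_neg h0, Finsupp.single_eq_of_ne h0, zero_add, zero_add]
            by_cases h1 : a = a1
            · subst h1
              rw [if_pos rfl, Finsupp.single_eq_same, Nat.cast_one, one_mul]
            · rw [if_neg h1, Finsupp.single_eq_of_ne h1, Nat.cast_zero, zero_mul]
        rw [Finset.sum_congr rfl fun a _ => h3 a, Finset.sum_add_distrib, Finset.sum_ite_eq',
          Finset.sum_ite_eq', if_pos (Finset.mem_univ _), if_pos (Finset.mem_univ _)]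
      rw [h2]
      ring
    have h2 := max_low (b := (d i : ℝ)) (by exact_mod_cast hd) hp0 hρ
    have h3 : (Dat.mk β (cc β (F i)) (d i) e (fun a => if a = a0 then 0 else 1)).val f x =
        ∑ a, ph f x (β a) + max 0 (rho f β (cc β (F i)) e x) / (d i : ℝ) := rfl
    rw [h3]
    linarith

open Classical in
/-- the data at a point, without a component -/
theorem none_dat {F : Fin q → MvPolynomial (Fin n) K} {d : Fin q → ℕ}
    (hF : ∀ i, (F i).IsHomogeneous (d i)) (hS : NC F) {y : Fin n → K} (hy : y ≠ 0) :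
    ∃ D : Dat K n, D.Ok ∧
      ∀ (f : AbsoluteValue K ℝ) (x : Fin n → K), x ≠ 0 → D.Off x →
        ∑ j ∈ univ.filter (fun i => eval y (F i) = 0), ph f x (tg y (F j)) +
          ((n : ℝ) - 1 - (univ.filter (fun i => eval y (F i) = 0)).card) *
            (ly f y x - |Real.log (nrm f y)|) ≤ D.val f x := by
  classical
  obtain ⟨β, a0, b0, hβ, hyb, ha0, hβy, hβt, hsum⟩ := near_sel hF hS hy
  refine ⟨⟨β, X a0, 1, Finsupp.single a0 1, fun a => if a = a0 then 0 else 1⟩, ?_, ?_⟩
  · refine ⟨hβ, one_pos, isHomogeneous_X _ _, ?_, ?_⟩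
    · show coeff (Finsupp.single a0 1) (X a0) ≠ 0
      rw [coeff_X, if_pos rfl]
      exact one_ne_zero
    · exact vertex_pure (isHomogeneous_X _ _) a0
  · intro f x hx hoff
    have hβx : ∀ a, dot (β a) x ≠ 0 := hoff.1
    have h1 := hsum f x hβx
    have hp0 : 0 ≤ ph f x (β a0) := by
      have h2 := hβx a0
      rw [ha0] at h2 ⊢
      exact ph_single f b0 h2
    have h3 : (Dat.mk β (X a0 : MvPolynomial (Fin n) K) 1 (Finsupp.single a0 1)
        (fun a => if a = a0 then 0 else 1)).val f x =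
        ∑ a, ph f x (β a) + max 0 (rho f β (X a0) (Finsupp.single a0 1) x) / ((1 : ℕ) : ℝ) := rfl
    have h4 : 0 ≤ max 0 (rho f β (X a0) (Finsupp.single a0 1) x) / ((1 : ℕ) : ℝ) :=
      div_nonneg (le_max_left _ _) (Nat.cast_nonneg _)
    rw [h3]
    linarith

/-- the data far from the crossing points -/
theorem far_dat {F : MvPolynomial (Fin n) K} {d : ℕ} (hF : F.IsHomogeneous d) (hd : 1 ≤ d)
    {y : Fin n → K} (hy : y ≠ 0) (hFy : eval y F ≠ 0) :
    ∃ D : Dat K n, D.Ok ∧ ∀ f : AbsoluteValue K ℝ, ∃ C : ℝ, 0 ≤ C ∧ ∀ x : Fin n → K, x ≠ 0 →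
      D.Off x → 1 / (d : ℝ) * lam f d F x ≤ D.val f x + C := by
  classical
  obtain ⟨β, a0, b0, hβ, hyb, ha0, hβy, -, -⟩ := near_sel (q := 0) (K := K) (n := n)
    (F := fun i => i.elim0) (d := fun i => i.elim0) (fun i => i.elim0) (by
      intro L _ _ x _
      have : IsEmpty {j : Fin 0 // aeval x ((fun i => i.elim0 : Fin 0 → MvPolynomial (Fin n) K) j)
        = 0} := ⟨fun j => j.1.elim0⟩
      exact linearIndependent_empty_type) hy
  have hs : dot (β a0) y ≠ 0 := by
    rw [ha0, dot_single, one_mul]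
    exact hyb
  have hpure := coeff_pure hβ hF (a0 := a0) hβy
  refine ⟨⟨β, cc β F, d, Finsupp.single a0 d, fun a => if a = a0 then 0 else 1⟩, ?_, ?_⟩
  · refine ⟨hβ, hd, cc_hom β hF, ?_, ?_⟩
    · intro h0
      apply hFy
      have h2 : coeff (Finsupp.single a0 d) (cc β F) = 0 := h0
      rw [hpure, h2, mul_zero]
    · exact vertex_pure (cc_hom β hF) a0
  · intro f
    refine ⟨∑ a, |Real.log (∑ b, f (β a b))|, Finset.sum_nonneg fun a _ => abs_nonneg _,
      fun x hx hoff => ?_⟩
    have hFx : eval x F ≠ 0 := by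
      have h1 := hoff.2
      have h2 : eval (fun a => dot (β a) x) (cc β F) ≠ 0 := h1
      rwa [eval_cc hβ] at h2
    have hβx : ∀ a, dot (β a) x ≠ 0 := hoff.1
    have hρ : rho f β (cc β F) (Finsupp.single a0 d) x = lam f d F x - d * ph f x (β a0) := by
      rw [rho_cc f hβ, lam_eq f _ _ hx hFx, Finset.sum_eq_single a0]
      · unfold ph
        rw [Finsupp.single_eq_same]
        ring
      · intro b _ hb
        rw [Finsupp.single_eq_of_ne hb, Nat.cast_zero, zero_mul]
      · intro h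
        exact absurd (Finset.mem_univ _) h
    have hd0 : (0 : ℝ) < d := by exact_mod_cast hd
    have h1 : 1 / (d : ℝ) * lam f d F x - ph f x (β a0) ≤
        max 0 (rho f β (cc β F) (Finsupp.single a0 d) x) / (d : ℝ) := by
      rw [le_div_iff₀ hd0]
      have h2 := le_max_right 0 (rho f β (cc β F) (Finsupp.single a0 d) x)
      rw [hρ] at h2 ⊢
      have h3 : (1 / (d : ℝ) * lam f d F x - ph f x (β a0)) * d =
          lam f d F x - d * ph f x (β a0) := by
        field_simp
      rw [h3]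
      exact h2
    have h4 : ph f x (β a0) ≤ ∑ a, ph f x (β a) + ∑ a, |Real.log (∑ b, f (β a b))| := by
      rw [← Finset.sum_add_distrib, ← Finset.add_sum_erase _ _ (Finset.mem_univ a0)]
      have h5 : 0 ≤ ∑ a ∈ univ.erase a0, (ph f x (β a) + |Real.log (∑ b, f (β a b))|) := by
        refine Finset.sum_nonneg fun a _ => ?_
        have := ph_low f hx (hβx a)
        linarith
      have h6 := abs_nonneg (Real.log (∑ b, f (β a0 b)))
      linarith
    have h3 : (Dat.mk β (cc β F) d (Finsupp.single a0 d) (fun a => if a = a0 then 0 else 1)).val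
        f x = ∑ a, ph f x (β a) + max 0 (rho f β (cc β F) (Finsupp.single a0 d) x) / (d : ℝ) := rfl
    rw [h3]
    linarith

end Pool.Agent.H7C
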