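import Mathlib
import Pool.Agent.H7C.LocB
import Pool.Agent.H7V1.Loc
import Pool.Agent.W180.OP.Many

/-!
The local inequality in the plane: preparations.
-/

set_option autoImplicit false
set_option linter.unusedSectionVars false

namespace Pool.Agent.H7C

open MvPolynomial Finset
open Pool.Agent.W180.OP (nrm le_nrm nrm_pos nrm_nonneg exists_nrm lam lam_eq abv_mv cs_nonneg
  pair_point no_triple SNC SNC.pair)
open Pool.Agent.R405 (lff lff_hom eval_lff tg tg_self dot)
open Pool.Agent.H7V1 (ph ph_low ph_single ph_mv ly ly_ge dst dst_pos NC mv dot_mv dot_single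
  far_comp tan Contact le_dst)

section gen

variable {K : Type} [Field K] {n q : ℕ}

theorem lam_low (f : AbsoluteValue K ℝ) {F : MvPolynomial (Fin n) K} {d : ℕ}
    (hF : F.IsHomogeneous d) : ∃ C : ℝ, 0 ≤ C ∧ ∀ x : Fin n → K, x ≠ 0 → eval x F ≠ 0 →
      -C ≤ lam f d F x := by
  refine ⟨|Real.log (Pool.Agent.W180.OP.cs f F)|, abs_nonneg _, fun x hx hFx => ?_⟩
  have h1 := abv_mv f F hF x
  have h2 := f.pos_iff.2 hFx
  have h3 := nrm_pos f hx
  have h4 : 0 < Pool.Agent.W180.OP.cs f F := by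
    by_contra hcon
    have h5 : Pool.Agent.W180.OP.cs f F ≤ 0 := not_lt.1 hcon
    have h6 := mul_nonpos_of_nonpos_of_nonneg h5 (pow_pos h3 d).le
    linarith
  have h5 := Real.log_le_log h2 h1
  rw [Real.log_mul h4.ne' (pow_pos h3 d).ne', Real.log_pow] at h5
  rw [lam_eq f d F hx hFx]
  have h6 := le_abs_self (Real.log (Pool.Agent.W180.OP.cs f F))
  linarith

/-- the function `t + (l - t)⁺ / d` is not decreasing -/
theorem tm_le {d l w t B : ℝ} (hd : 1 ≤ d) (hwl : w ≤ l) (hwt : w ≤ t + B) (hB : 0 ≤ B) :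
    1 / d * l + (1 - 1 / d) * w ≤ t + 1 / d * max 0 (l - t) + B := by
  have hd0 : 0 < d := by linarith
  obtain ⟨r, hr⟩ : ∃ r, r = 1 / d := ⟨_, rfl⟩
  have hr0 : 0 ≤ r := by rw [hr]; positivity
  have hr1 : r ≤ 1 := by rw [hr, div_le_one hd0]; exact hd
  rw [← hr]
  rcases le_total t l with h | h
  · rw [max_eq_right (by linarith)]
    nlinarith
  · rw [max_eq_left (by linarith)]
    nlinarith

/-- the contribution of a component -/
noncomputable def tm (f : AbsoluteValue K ℝ) (F : Fin q → MvPolynomial (Fin n) K) (d : Fin q → ℕ)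
    (M : Fin q → (Fin n → K) → ℕ) (y x : Fin n → K) (i : Fin q) : ℝ :=
  1 / (d i : ℝ) * lam f (d i) (F i) x +
    (1 - 1 / (d i : ℝ)) * min (lam f (d i) (F i) x) (M i y * ly f y x)

theorem tm_le_lam (f : AbsoluteValue K ℝ) (F : Fin q → MvPolynomial (Fin n) K) {d : Fin q → ℕ}
    (M : Fin q → (Fin n → K) → ℕ) (y x : Fin n → K) {i : Fin q} (hd : 1 ≤ d i) :
    tm f F d M y x i ≤ lam f (d i) (F i) x := by
  have hd' : (1 : ℝ) ≤ d i := by exact_mod_cast hd
  have h1 : 0 ≤ 1 - 1 / (d i : ℝ) := by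
    rw [sub_nonneg, div_le_one (by linarith)]
    exact hd'
  have h2 := mul_le_mul_of_nonneg_left
    (min_le_left (lam f (d i) (F i) x) (M i y * ly f y x)) h1
  unfold tm
  linarith

theorem tm_far (f : AbsoluteValue K ℝ) (F : Fin q → MvPolynomial (Fin n) K) {d : Fin q → ℕ}
    (M : Fin q → (Fin n → K) → ℕ) (y x : Fin n → K) {i : Fin q} (hd : 1 ≤ d i) {B : ℝ}
    (hB : 0 ≤ B) (hy : ly f y x ≤ B) :
    tm f F d M y x i ≤ 1 / (d i : ℝ) * lam f (d i) (F i) x + M i y * B := by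
  have hd' : (1 : ℝ) ≤ d i := by exact_mod_cast hd
  have h1 : 0 ≤ 1 - 1 / (d i : ℝ) := by
    rw [sub_nonneg, div_le_one (by linarith)]
    exact hd'
  have h0 : 0 ≤ 1 / (d i : ℝ) := by positivity
  have h2 : min (lam f (d i) (F i) x) (M i y * ly f y x) ≤ M i y * B :=
    (min_le_right _ _).trans (mul_le_mul_of_nonneg_left hy (Nat.cast_nonneg _))
  have h3 : 0 ≤ (M i y : ℝ) * B := mul_nonneg (Nat.cast_nonneg _) hB
  have h4 := mul_le_mul_of_nonneg_left h2 h1
  have h5 := mul_nonneg h0 h3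
  unfold tm
  linarith

/-- two different points are not both close -/
theorem two_pts (f : AbsoluteValue K ℝ) {y y' : Fin n → K} (hy : y ≠ 0) {a b : Fin n}
    (hab : dot (mv y a b) y' ≠ 0) :
    ∃ B : ℝ, 0 ≤ B ∧ ∀ x : Fin n → K, x ≠ 0 →
      (∀ a b, mv y a b ≠ 0 → dot (mv y a b) x ≠ 0) →
      (∀ a b, mv y' a b ≠ 0 → dot (mv y' a b) x ≠ 0) → ly f y x ≤ B ∨ ly f y' x ≤ B := by
  have h1 : eval y (lff (mv y' a b)) ≠ 0 := by
    rw [eval_lff]
    intro h
    apply hab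
    have h2 : dot (mv y' a b) y = 0 := h
    rw [dot_mv] at h2 ⊢
    linear_combination -h2
  obtain ⟨B, hB⟩ := far_comp f (lff_hom (mv y' a b)) hy h1
  have hne : mv y' a b ≠ 0 := by
    intro h
    rw [h, eval_lff] at h1
    exact h1 (by simp)
  refine ⟨|B| + |Real.log (nrm f y')|, by positivity, fun x hx hx1 hx2 => ?_⟩
  have h2 := le_abs_self B
  have h3 := le_abs_self (Real.log (nrm f y'))
  have h3' := abs_nonneg (Real.log (nrm f y'))
  have h4 := hx2 a b hne
  have h5 : eval x (lff (mv y' a b)) ≠ 0 := by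
    rw [eval_lff]
    exact h4
  rcases hB x hx h5 hx1 with h | h
  · right
    rw [lam_eq f 1 _ hx h5, eval_lff] at h
    have h6 := ph_mv f a b h4
    unfold ph at h6
    have h7 : Real.log (f (dot (mv y' a b) x)) = Real.log (f (∑ j, mv y' a b j * x j)) := rfl
    push_cast at h
    linarith
  · left
    linarith

end gen

section plane

variable {K : Type} [Field K] {q : ℕ}

theorem triple {F : Fin q → MvPolynomial (Fin 3) K} {d : Fin q → ℕ}
    (hF : ∀ i, (F i).IsHomogeneous (d i)) (hS : NC F) {y : Fin 3 → K} (hy : y ≠ 0) {i j : Fin q}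
    (hij : i ≠ j) (hi : eval y (F i) = 0) (hj : eval y (F j) = 0) (l : Fin q)
    (hl : eval y (F l) = 0) : l = i ∨ l = j := by
  by_contra hcon
  push Not at hcon
  have h2 : ∀ (p : MvPolynomial (Fin 3) K), aeval y p = eval y p := fun p =>
    DFunLike.congr_fun (coe_aeval_eq_eval y) p
  exact hy (no_triple hF (show SNC F from hS) hij hcon.1.symm hcon.2.symm K y
    (by rw [h2]; exact hi) (by rw [h2]; exact hj) (by rw [h2]; exact hl))

/-- the smaller of two local heights is at most the local height of a crossing point -/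
theorem pair_ly (f : AbsoluteValue K ℝ) {F : Fin q → MvPolynomial (Fin 3) K} {d : Fin q → ℕ}
    (hF : ∀ i, (F i).IsHomogeneous (d i)) (hS : NC F) {i j : Fin q} (hij : i ≠ j)
    (hdi : 1 ≤ d i) (hdj : 1 ≤ d j) {R : Finset (Fin 3 → K)} (hR : ∀ y ∈ R, y ≠ 0)
    (hcr : ∀ (L : Type) [Field L] [Algebra K L] (x : Fin 3 → L), x ≠ 0 →
      aeval x (F i) = 0 → aeval x (F j) = 0 →
        ∃ y ∈ R, ∃ c : L, x = c • fun b => algebraMap K L (y b))
    (P : Finset (Fin 3 → K)) :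
    ∃ B : ℝ, 0 ≤ B ∧ ∀ x : Fin 3 → K, x ≠ 0 → eval x (F i) ≠ 0 → eval x (F j) ≠ 0 →
      min (lam f (d i) (F i) x) (lam f (d j) (F j) x) ≤ B ∨
        ∃ y' ∈ R, eval y' (F i) = 0 ∧ eval y' (F j) = 0 ∧ ∀ y ∈ P,
          (∀ a b, dot (mv y a b) y' = 0) → 0 < dst f x y →
            min (lam f (d i) (F i) x) (lam f (d j) (F j) x) ≤ ly f y x + B := by
  classical
  obtain ⟨R', hR'⟩ : ∃ R' : Finset (Fin 3 → K), R' = R.filter fun y =>
      eval y (F i) = 0 ∧ eval y (F j) = 0 := ⟨_, rfl⟩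
  obtain ⟨B, hB0, hB⟩ := pair_point f hdi hdj (hF i) (hF j) R' (by
    intro y hy
    rw [hR'] at hy
    exact hR y (Finset.mem_filter.1 hy).1) (by
    intro L _ _ x hx h1 h2
    obtain ⟨y, hy, c, hc⟩ := hcr L x hx h1 h2
    have hc0 : c ≠ 0 := by
      rintro rfl
      exact hx (by rw [hc, zero_smul])
    have hev : ∀ (Q : MvPolynomial (Fin 3) K) (r : ℕ), Q.IsHomogeneous r →
        aeval x Q = 0 → eval y Q = 0 := by
      intro Q r hQ hQx
      rw [hc, Pool.Agent.W180.OP.aeval_smul_hom Q hQ, Pool.Agent.W180.OP.aeval_map_K] at hQx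
      have h2 := (mul_eq_zero.1 hQx).resolve_left (pow_ne_zero _ hc0)
      exact (map_eq_zero _).1 h2
    refine ⟨y, ?_, c, hc⟩
    rw [hR', Finset.mem_filter]
    exact ⟨hy, hev _ _ (hF i) h1, hev _ _ (hF j) h2⟩) (by
    intro y hy h1 h2
    rw [hR'] at hy
    exact SNC.pair (show SNC F from hS) hij (hR y (Finset.mem_filter.1 hy).1) h1 h2)
  obtain ⟨E, hE⟩ : ∃ E : (Fin 3 → K) → ℝ, ∀ y, E y = |Real.log (nrm f y)| +
      ∑ p : Fin 3 × Fin 3, |Real.log (Pool.Agent.W180.OP.cs f (lff (mv y p.1 p.2)))| :=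
    ⟨_, fun _ => rfl⟩
  have hE0 : ∀ y, 0 ≤ E y := by
    intro y
    rw [hE]
    exact add_nonneg (abs_nonneg _) (Finset.sum_nonneg fun _ _ => abs_nonneg _)
  refine ⟨B + ∑ y ∈ P, E y, add_nonneg hB0 (Finset.sum_nonneg fun y _ => hE0 y),
    fun x hx h1 h2 => ?_⟩
  have hsum0 : 0 ≤ ∑ y ∈ P, E y := Finset.sum_nonneg fun y _ => hE0 y
  rcases hB x hx h1 h2 with h | ⟨y', hy', h⟩
  · left
    linarith
  · right
    rw [hR', Finset.mem_filter] at hy'
    refine ⟨y', hy'.1, hy'.2.1, hy'.2.2, fun y hy hyy hdx => ?_⟩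
    obtain ⟨p, hp⟩ := exists_eq_ciSup_of_finite
      (f := fun p : Fin 3 × Fin 3 => f (x p.1 * y p.2 - x p.2 * y p.1))
    have hdp : dst f x y = f (x p.1 * y p.2 - x p.2 * y p.1) := hp.symm
    have hxm : dot (mv y p.2 p.1) x = x p.1 * y p.2 - x p.2 * y p.1 := dot_mv y x p.2 p.1
    have hxne : eval x (lff (mv y p.2 p.1)) ≠ 0 := by
      rw [eval_lff]
      show dot (mv y p.2 p.1) x ≠ 0
      rw [hxm]
      apply f.pos_iff.1
      rw [← hdp]
      exact hdx
    have h3 := h (lff (mv y p.2 p.1)) (lff_hom _) (by rw [eval_lff]; exact hyy p.2 p.1) hxne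
    have h4 : lam f 1 (lff (mv y p.2 p.1)) x = ly f y x - Real.log (nrm f y) := by
      rw [lam_eq f 1 _ hx hxne, eval_lff]
      have h5 : ∑ j, mv y p.2 p.1 j * x j = x p.1 * y p.2 - x p.2 * y p.1 := hxm
      rw [h5, ← hdp]
      unfold ly
      push_cast
      ring
    rw [h4] at h3
    have h5 : |Real.log (nrm f y)| +
        |Real.log (Pool.Agent.W180.OP.cs f (lff (mv y p.2 p.1)))| ≤ E y := by
      rw [hE]
      have h6 := Finset.single_le_sum (f := fun p : Fin 3 × Fin 3 =>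
        |Real.log (Pool.Agent.W180.OP.cs f (lff (mv y p.1 p.2)))|) (fun _ _ => abs_nonneg _)
        (Finset.mem_univ (p.2, p.1))
      have h7 : |Real.log (Pool.Agent.W180.OP.cs f (lff (mv y p.2 p.1)))| ≤
        ∑ p : Fin 3 × Fin 3, |Real.log (Pool.Agent.W180.OP.cs f (lff (mv y p.1 p.2)))| := h6
      linarith
    have h6 : E y ≤ ∑ y ∈ P, E y := Finset.single_le_sum (f := E) (fun y _ => hE0 y) hy
    have h7 := neg_abs_le (Real.log (nrm f y))
    linarith

end plane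

end Pool.Agent.H7C
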