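import Mathlib
import Pool.Agent.H7C.LocC

/-!
The local inequality in the plane.
-/

set_option autoImplicit false
set_option linter.unusedSectionVars false

namespace Pool.Agent.H7C

open MvPolynomial Finset
open Pool.Agent.W180.OP (nrm le_nrm nrm_pos nrm_nonneg exists_nrm lam lam_eq)
open Pool.Agent.R405 (lff lff_hom eval_lff tg tg_self dot)
open Pool.Agent.H7V1 (ph ph_low ph_single ph_mv ly ly_ge dst dst_pos NC mv dot_mv dot_single
  far_comp tan Contact le_dst)

variable {K : Type} [Field K] {q : ℕ}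

open Classical in
/-- the data at a point `y` of the component `i` -/
def PA (F : Fin q → MvPolynomial (Fin 3) K) (d : Fin q → ℕ) (y : Fin 3 → K) (i : Fin q)
    (D : Dat K 3) : Prop :=
  (∀ x, D.Off x → ∀ j, eval y (F j) = 0 → dot (tg y (F j)) x ≠ 0) ∧
    ∀ (f : AbsoluteValue K ℝ) (x : Fin 3 → K), x ≠ 0 → D.Off x → eval x (F i) ≠ 0 ∧
      ∑ j ∈ univ.filter (fun i => eval y (F i) = 0), ph f x (tg y (F j)) +
        1 / (d i : ℝ) * max 0 (lam f (d i) (F i) x - ph f x (tg y (F i))) +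
        (((3 : ℕ) : ℝ) - 1 - (univ.filter (fun i => eval y (F i) = 0)).card) *
          (ly f y x - |Real.log (nrm f y)|) ≤ D.val f x

open Classical in
/-- the data at a point -/
def PN (F : Fin q → MvPolynomial (Fin 3) K) (y : Fin 3 → K) (D : Dat K 3) : Prop :=
  ∀ (f : AbsoluteValue K ℝ) (x : Fin 3 → K), x ≠ 0 → D.Off x →
    ∑ j ∈ univ.filter (fun i => eval y (F i) = 0), ph f x (tg y (F j)) +
      (((3 : ℕ) : ℝ) - 1 - (univ.filter (fun i => eval y (F i) = 0)).card) *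
        (ly f y x - |Real.log (nrm f y)|) ≤ D.val f x

/-- the data of a component, far from the crossing points -/
def PF (F : MvPolynomial (Fin 3) K) (d : ℕ) (D : Dat K 3) : Prop :=
  ∀ f : AbsoluteValue K ℝ, ∃ C : ℝ, 0 ≤ C ∧ ∀ x : Fin 3 → K, x ≠ 0 → D.Off x →
    1 / (d : ℝ) * lam f d F x ≤ D.val f x + C

theorem exists_PA {F : Fin q → MvPolynomial (Fin 3) K} {d : Fin q → ℕ}
    (hF : ∀ i, (F i).IsHomogeneous (d i)) (hS : NC F) (hd : ∀ i, 1 ≤ d i) (y : Fin 3 → K)
    (i : Fin q) : ∃ D : Dat K 3, D.Ok ∧ (y ≠ 0 → eval y (F i) = 0 → PA F d y i D) := by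
  by_cases h : y ≠ 0 ∧ eval y (F i) = 0
  · obtain ⟨D, h1, h2, h3⟩ := near_dat hF hS h.1 (hd i) h.2
    exact ⟨D, h1, fun _ _ => ⟨h2, h3⟩⟩
  · obtain ⟨D, h1, -⟩ := none_dat hF hS (y := (Pi.single 0 1 : Fin 3 → K)) (by
      intro h
      have := congrFun h 0
      rw [Pi.single_eq_same] at this
      exact one_ne_zero this)
    exact ⟨D, h1, fun h4 h5 => absurd ⟨h4, h5⟩ h⟩

theorem exists_PN {F : Fin q → MvPolynomial (Fin 3) K} {d : Fin q → ℕ}
    (hF : ∀ i, (F i).IsHomogeneous (d i)) (hS : NC F) (y : Fin 3 → K) :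
    ∃ D : Dat K 3, D.Ok ∧ (y ≠ 0 → PN F y D) := by
  by_cases h : y ≠ 0
  · obtain ⟨D, h1, h2⟩ := none_dat hF hS h
    exact ⟨D, h1, fun _ => h2⟩
  · obtain ⟨D, h1, -⟩ := none_dat hF hS (y := (Pi.single 0 1 : Fin 3 → K)) (by
      intro h
      have := congrFun h 0
      rw [Pi.single_eq_same] at this
      exact one_ne_zero this)
    exact ⟨D, h1, fun h4 => absurd h4 h⟩

theorem exists_PF [Infinite K] {F : Fin q → MvPolynomial (Fin 3) K} {d : Fin q → ℕ}
    (hF : ∀ i, (F i).IsHomogeneous (d i)) (hS : NC F) (hd : ∀ i, 1 ≤ d i) (i : Fin q) :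
    ∃ D : Dat K 3, D.Ok ∧ PF (F i) (d i) D := by
  have hFi : F i ≠ 0 := by
    intro h0
    have hy : (Pi.single 0 1 : Fin 3 → K) ≠ 0 := by
      intro h
      have := congrFun h 0
      rw [Pi.single_eq_same] at this
      exact one_ne_zero this
    have h1 := (hS.at hy).ne_zero (i := i) (by
      show eval _ (F i) = 0
      rw [h0, map_zero])
    apply h1
    show tg _ (F i) = 0
    unfold tg
    rw [h0]
    funext b
    simp
  obtain ⟨y, hy⟩ : ∃ y : Fin 3 → K, eval y (F i) ≠ 0 := by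
    by_contra hcon
    push Not at hcon
    exact hFi (MvPolynomial.funext fun x => by rw [hcon x, map_zero])
  have hy0 : y ≠ 0 := by
    rintro rfl
    apply hy
    have h1 := Pool.Agent.W180.OP.eval_smul_hom (F i) (hF i) 0 (0 : Fin 3 → K)
    rw [smul_zero, zero_pow (by have := hd i; omega), zero_mul] at h1
    exact h1
  exact far_dat (hF i) (hd i) hy0 hy

theorem ph_lam (f : AbsoluteValue K ℝ) {n : ℕ} {x v : Fin n → K} (hx : x ≠ 0) (hv : dot v x ≠ 0) :
    lam f 1 (lff v) x = ph f x v := by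
  rw [lam_eq f 1 _ hx (by rw [eval_lff]; exact hv), eval_lff]
  unfold ph
  rw [Nat.cast_one, one_mul]
  rfl

theorem cross_case (f : AbsoluteValue K ℝ) {F : Fin q → MvPolynomial (Fin 3) K} {d : Fin q → ℕ}
    (hF : ∀ i, (F i).IsHomogeneous (d i)) (hS : NC F) (hd : ∀ i, 1 ≤ d i)
    (M : Fin q → (Fin 3 → K) → ℕ) {y : Fin 3 → K} (hy : y ≠ 0)
    (hM : ∀ i, eval y (F i) = 0 → 1 ≤ M i y ∧ Contact (F i) y (M i y)) {i j : Fin q}
    (hij : i ≠ j) (hi : eval y (F i) = 0) (hj : eval y (F j) = 0) {D : Dat K 3}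
    (hD : PA F d y i D) (C0 : ℝ) (hC0 : 0 ≤ C0) :
    ∃ C : ℝ, 0 ≤ C ∧ ∀ x : Fin 3 → K, x ≠ 0 → (∀ l, eval x (F l) ≠ 0) → D.Off x →
      0 < dst f x y → 0 ≤ ly f y x → lam f (d j) (F j) x ≤ ly f y x + C0 →
      tm f F d M y x i + tm f F d M y x j ≤ D.val f x + C := by
  classical
  have hne : ∀ l, eval y (F l) = 0 → tg y (F l) ≠ 0 := fun l hl => (hS.at hy).ne_zero hl
  obtain ⟨B1, hB10, hB1⟩ := tan f (hF i) y hy hi (hne i hi) (hM i hi).2
  obtain ⟨B2, hB20, hB2⟩ := tan f (hF j) y hy hj (hne j hj) (hM j hj).2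
  refine ⟨B1 + B2 + C0, by positivity, fun x hx hFx hoff hdx hl0 hlj => ?_⟩
  have hTi := hD.1 x hoff i hi
  have hTj := hD.1 x hoff j hj
  have h1 := hB1 x hx (hFx i) (by rw [eval_lff]; exact hTi) hdx
  have h2 := hB2 x hx (hFx j) (by rw [eval_lff]; exact hTj) hdx
  rw [ph_lam f hx hTi] at h1
  rw [ph_lam f hx hTj] at h2
  have h3 := (hD.2 f x hx hoff).2
  have hset : univ.filter (fun i => eval y (F i) = 0) = {i, j} := by
    ext l
    rw [Finset.mem_filter, Finset.mem_insert, Finset.mem_singleton]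
    constructor
    · intro h
      exact triple hF hS hy hij hi hj l h.2
    · rintro (rfl | rfl)
      · exact ⟨Finset.mem_univ _, hi⟩
      · exact ⟨Finset.mem_univ _, hj⟩
  rw [hset, Finset.sum_pair hij, Finset.card_pair hij] at h3
  have h4 := tm_le (d := (d i : ℝ)) (l := lam f (d i) (F i) x)
    (w := min (lam f (d i) (F i) x) (M i y * ly f y x)) (t := ph f x (tg y (F i))) (B := B1)
    (by exact_mod_cast hd i) (min_le_left _ _) h1 hB10
  have h5 : tm f F d M y x i ≤ ph f x (tg y (F i)) +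
    1 / (d i : ℝ) * max 0 (lam f (d i) (F i) x - ph f x (tg y (F i))) + B1 := h4
  have h6 := tm_le_lam f F M y x (hd j)
  have h7 : lam f (d j) (F j) x - C0 ≤ min (lam f (d j) (F j) x) (M j y * ly f y x) := by
    refine le_min (by linarith) ?_
    have h8 : (1 : ℝ) ≤ M j y := by exact_mod_cast (hM j hj).1
    nlinarith
  push_cast at h3
  have h9 : ((3 : ℝ) - 1 - 2) * (ly f y x - |Real.log (nrm f y)|) = 0 := by
    norm_num
  linarith

theorem one_case (f : AbsoluteValue K ℝ) {F : Fin q → MvPolynomial (Fin 3) K} {d : Fin q → ℕ}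
    (hF : ∀ i, (F i).IsHomogeneous (d i)) (hS : NC F) (hd : ∀ i, 1 ≤ d i)
    (M : Fin q → (Fin 3 → K) → ℕ) {y : Fin 3 → K} (hy : y ≠ 0) {i : Fin q}
    (hM : Contact (F i) y (M i y)) (hi : ∀ l, eval y (F l) = 0 ↔ l = i) {D : Dat K 3}
    (hD : PA F d y i D) :
    ∃ C : ℝ, 0 ≤ C ∧ ∀ x : Fin 3 → K, x ≠ 0 → (∀ l, eval x (F l) ≠ 0) → D.Off x →
      0 < dst f x y → tm f F d M y x i + ly f y x ≤ D.val f x + C := by
  classical
  have hii := (hi i).2 rfl
  have hne : tg y (F i) ≠ 0 := (hS.at hy).ne_zero hii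
  obtain ⟨B1, hB10, hB1⟩ := tan f (hF i) y hy hii hne hM
  refine ⟨B1 + |Real.log (nrm f y)|, by positivity, fun x hx hFx hoff hdx => ?_⟩
  have hTi := hD.1 x hoff i hii
  have h1 := hB1 x hx (hFx i) (by rw [eval_lff]; exact hTi) hdx
  rw [ph_lam f hx hTi] at h1
  have h3 := (hD.2 f x hx hoff).2
  have hset : univ.filter (fun i => eval y (F i) = 0) = {i} := by
    ext l
    rw [Finset.mem_filter, Finset.mem_singleton]
    constructor
    · intro h
      exact (hi l).1 h.2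
    · rintro rfl
      exact ⟨Finset.mem_univ _, hii⟩
  rw [hset, Finset.sum_singleton, Finset.card_singleton] at h3
  have h4 := tm_le (d := (d i : ℝ)) (l := lam f (d i) (F i) x)
    (w := min (lam f (d i) (F i) x) (M i y * ly f y x)) (t := ph f x (tg y (F i))) (B := B1)
    (by exact_mod_cast hd i) (min_le_left _ _) h1 hB10
  have h5 : tm f F d M y x i ≤ ph f x (tg y (F i)) +
    1 / (d i : ℝ) * max 0 (lam f (d i) (F i) x - ph f x (tg y (F i))) + B1 := h4
  push_cast at h3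
  have h9 : ((3 : ℝ) - 1 - 1) * (ly f y x - |Real.log (nrm f y)|) =
    ly f y x - |Real.log (nrm f y)| := by ring
  linarith

theorem zero_case (f : AbsoluteValue K ℝ) {F : Fin q → MvPolynomial (Fin 3) K}
    {y : Fin 3 → K} (hi : ∀ l, eval y (F l) ≠ 0) {D : Dat K 3} (hD : PN F y D) :
    ∃ C : ℝ, 0 ≤ C ∧ ∀ x : Fin 3 → K, x ≠ 0 → D.Off x → 2 * ly f y x ≤ D.val f x + C := by
  classical
  refine ⟨2 * |Real.log (nrm f y)|, by positivity, fun x hx hoff => ?_⟩
  have h3 := hD f x hx hoff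
  have hset : univ.filter (fun i => eval y (F i) = 0) = ∅ := by
    ext l
    rw [Finset.mem_filter]
    constructor
    · intro h
      exact absurd h.2 (hi l)
    · intro h
      exact absurd h (Finset.notMem_empty _)
  rw [hset, Finset.sum_empty, Finset.card_empty] at h3
  push_cast at h3
  linarith

end Pool.Agent.H7C
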