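import Mathlib
import Pool.Agent.H7C.LocD

/-!
The local inequality in the plane.
-/

set_option autoImplicit false
set_option linter.unusedSectionVars false

namespace Pool.Agent.H7C

open MvPolynomial Finset
open Pool.Agent.W180.OP (nrm le_nrm nrm_pos nrm_nonneg exists_nrm lam lam_eq)
open Pool.Agent.R405 (lff lff_hom eval_lff tg tg_self dot)
open Pool.Agent.H7V1 (ph ph_low ph_single ph_mv ly ly_ge dst dst_pos NC mv dot_mv dot_single
  far_comp tan Contact le_dst)

variable {K : Type} [Field K] {q : ℕ}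

/-- a general point -/
def Gd (F : Fin q → MvPolynomial (Fin 3) K) (U : Finset (Fin 3 → K))
    (DA : (Fin 3 → K) → Fin q → Dat K 3) (DN : (Fin 3 → K) → Dat K 3) (DF : Fin q → Dat K 3)
    (x : Fin 3 → K) : Prop :=
  x ≠ 0 ∧ (∀ l, eval x (F l) ≠ 0) ∧ (∀ y ∈ U, ∀ i, (DA y i).Off x) ∧ (∀ y ∈ U, (DN y).Off x) ∧
    (∀ i, (DF i).Off x) ∧ ∀ y ∈ U, ∀ a b, mv y a b ≠ 0 → dot (mv y a b) x ≠ 0

/-- bounded by a member of the family -/
def Fm (U : Finset (Fin 3 → K))
    (DA : (Fin 3 → K) → Fin q → Dat K 3) (DN : (Fin 3 → K) → Dat K 3) (DF : Fin q → Dat K 3)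
    (f : AbsoluteValue K ℝ) (x : Fin 3 → K) (V : ℝ) : Prop :=
  (∃ y ∈ U, ∃ i, V ≤ (DA y i).val f x) ∨ (∃ y ∈ U, V ≤ (DN y).val f x) ∨
    ∃ i, V ≤ (DF i).val f x

/-- the sum over the components -/
theorem ef_case (f : AbsoluteValue K ℝ) {F : Fin q → MvPolynomial (Fin 3) K} {d : Fin q → ℕ}
    (hF : ∀ i, (F i).IsHomogeneous (d i)) (hS : NC F) (hd : ∀ i, 1 ≤ d i)
    (M : Fin q → (Fin 3 → K) → ℕ) {U R : Finset (Fin 3 → K)} (hU : ∀ y ∈ U, y ≠ 0)
    (hRU : R ⊆ U) (hUne : U.Nonempty)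
    (hM : ∀ y ∈ U, ∀ i, eval y (F i) = 0 → 1 ≤ M i y ∧ Contact (F i) y (M i y))
    (hcr : ∀ i j, i ≠ j → ∀ (L : Type) [Field L] [Algebra K L] (x : Fin 3 → L), x ≠ 0 →
      aeval x (F i) = 0 → aeval x (F j) = 0 →
        ∃ y ∈ R, ∃ c : L, x = c • fun b => algebraMap K L (y b))
    {DA : (Fin 3 → K) → Fin q → Dat K 3} {DN : (Fin 3 → K) → Dat K 3} {DF : Fin q → Dat K 3}
    (hDA : ∀ y ∈ U, ∀ i, eval y (F i) = 0 → PA F d y i (DA y i))
    (hDF : ∀ i, PF (F i) (d i) (DF i)) :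
    ∃ C : ℝ, 0 ≤ C ∧ ∀ x : Fin 3 → K, Gd F U DA DN DF x →
      Fm U DA DN DF f x (∑ i, 1 / (d i : ℝ) * lam f (d i) (F i) x - C) := by
  classical
  -- constants
  have hpair : ∀ p : Fin q × Fin q, ∃ B : ℝ, 0 ≤ B ∧ (p.1 ≠ p.2 → ∀ x : Fin 3 → K, x ≠ 0 →
      eval x (F p.1) ≠ 0 → eval x (F p.2) ≠ 0 →
      min (lam f (d p.1) (F p.1) x) (lam f (d p.2) (F p.2) x) ≤ B ∨
        ∃ y' ∈ R, eval y' (F p.1) = 0 ∧ eval y' (F p.2) = 0 ∧ ∀ y ∈ U,
          (∀ a b, dot (mv y a b) y' = 0) → 0 < dst f x y →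
            min (lam f (d p.1) (F p.1) x) (lam f (d p.2) (F p.2) x) ≤ ly f y x + B) := by
    intro p
    by_cases hp : p.1 ≠ p.2
    · obtain ⟨B, h1, h2⟩ := pair_ly f hF hS hp (hd _) (hd _) (fun y hy => hU y (hRU hy))
        (hcr _ _ hp) U
      exact ⟨B, h1, fun _ => h2⟩
    · exact ⟨0, le_rfl, fun h => absurd h hp⟩
  choose Bp hBp0 hBp using hpair
  have hfar : ∀ p : (Fin 3 → K) × Fin q, ∃ B : ℝ, 0 ≤ B ∧ (p.1 ≠ 0 → eval p.1 (F p.2) ≠ 0 →
      ∀ x : Fin 3 → K, x ≠ 0 → eval x (F p.2) ≠ 0 →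
        (∀ a b, mv p.1 a b ≠ 0 → dot (mv p.1 a b) x ≠ 0) →
        lam f (d p.2) (F p.2) x ≤ B ∨ ly f p.1 x ≤ B) := by
    intro p
    by_cases hp : p.1 ≠ 0 ∧ eval p.1 (F p.2) ≠ 0
    · obtain ⟨B, hB⟩ := far_comp f (hF p.2) hp.1 hp.2
      refine ⟨|B|, abs_nonneg _, fun _ _ x hx hFx hmx => ?_⟩
      have := le_abs_self B
      rcases hB x hx hFx hmx with h | h
      · left; linarith
      · right; linarith
    · exact ⟨0, le_rfl, fun h1 h2 => absurd ⟨h1, h2⟩ hp⟩
  choose Bf hBf0 hBf using hfar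
  obtain ⟨B, hBdef⟩ : ∃ B : ℝ, B = ∑ p, Bp p + ∑ p ∈ U ×ˢ univ, Bf p := ⟨_, rfl⟩
  have hs1 : 0 ≤ ∑ p, Bp p := Finset.sum_nonneg fun p _ => hBp0 p
  have hs2 : 0 ≤ ∑ p ∈ U ×ˢ (univ : Finset (Fin q)), Bf p := Finset.sum_nonneg fun p _ => hBf0 p
  have hB0 : 0 ≤ B := by linarith
  have hle1 : ∀ p, Bp p ≤ B := by
    intro p
    have := Finset.single_le_sum (f := Bp) (fun p _ => hBp0 p) (Finset.mem_univ p)
    linarith
  have hle2 : ∀ y ∈ U, ∀ i, Bf (y, i) ≤ B := by
    intro y hy i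
    have hmem : (y, i) ∈ U ×ˢ (univ : Finset (Fin q)) :=
      Finset.mem_product.2 ⟨hy, Finset.mem_univ _⟩
    have := Finset.single_le_sum (f := Bf) (fun p _ => hBf0 p) hmem
    linarith
  -- the crossing case
  have hcross : ∀ p : (Fin 3 → K) × Fin q × Fin q, ∃ C : ℝ, 0 ≤ C ∧ (p.1 ∈ U → p.2.1 ≠ p.2.2 →
      eval p.1 (F p.2.1) = 0 → eval p.1 (F p.2.2) = 0 → ∀ x : Fin 3 → K, x ≠ 0 →
        (∀ l, eval x (F l) ≠ 0) → (DA p.1 p.2.1).Off x → 0 < dst f x p.1 → 0 ≤ ly f p.1 x →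
        lam f (d p.2.2) (F p.2.2) x ≤ ly f p.1 x + B →
        tm f F d M p.1 x p.2.1 + tm f F d M p.1 x p.2.2 ≤ (DA p.1 p.2.1).val f x + C) := by
    intro p
    by_cases hp : p.1 ∈ U ∧ p.2.1 ≠ p.2.2 ∧ eval p.1 (F p.2.1) = 0 ∧ eval p.1 (F p.2.2) = 0
    · obtain ⟨C, h1, h2⟩ := cross_case f hF hS hd M (hU _ hp.1) (hM _ hp.1) hp.2.1 hp.2.2.1
        hp.2.2.2 (hDA _ hp.1 _ hp.2.2.1) B hB0
      exact ⟨C, h1, fun _ _ _ _ => h2⟩
    · exact ⟨0, le_rfl, fun h1 h2 h3 h4 => absurd ⟨h1, h2, h3, h4⟩ hp⟩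
  choose Cc hCc0 hCc using hcross
  choose Cf hCf0 hCf using fun i => hDF i f
  obtain ⟨y0, hy0⟩ := hUne
  obtain ⟨Cl, hCl0, hCl⟩ := (DN y0).val_low f
  obtain ⟨C, hCdef⟩ : ∃ C : ℝ, C = 2 * B * q + ∑ p ∈ U ×ˢ univ, Cc p + ∑ i, Cf i + Cl :=
    ⟨_, rfl⟩
  have hs3 : 0 ≤ ∑ p ∈ U ×ˢ (univ : Finset (Fin q × Fin q)), Cc p :=
    Finset.sum_nonneg fun p _ => hCc0 p
  have hs4 : 0 ≤ ∑ i, Cf i := Finset.sum_nonneg fun p _ => hCf0 p
  have hq0 : 0 ≤ 2 * B * q := by positivity
  refine ⟨C, by rw [hCdef]; positivity, fun x hx => ?_⟩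
  obtain ⟨hx0, hFx, hAx, hNx, hfx, hmx⟩ := hx
  have hd1 : ∀ i, (1 : ℝ) ≤ d i := fun i => by exact_mod_cast hd i
  have hdi : ∀ i, 1 / (d i : ℝ) * lam f (d i) (F i) x ≤ 2 * B ∨ 2 * B < lam f (d i) (F i) x := by
    intro i
    rcases le_or_gt (lam f (d i) (F i) x) (2 * B) with h | h
    · left
      have h1 : 0 ≤ 1 / (d i : ℝ) := by have := hd1 i; positivity
      have h2 : 1 / (d i : ℝ) ≤ 1 := by
        rw [div_le_one (by have := hd1 i; linarith)]
        exact hd1 i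
      have h3 := mul_le_mul_of_nonneg_left h h1
      nlinarith
    · exact Or.inr h
  by_cases hbig : ∃ i j, i ≠ j ∧ 2 * B < lam f (d j) (F j) x ∧
      lam f (d j) (F j) x ≤ lam f (d i) (F i) x
  · obtain ⟨i, j, hij, hj, hji⟩ := hbig
    rcases hBp (i, j) hij x hx0 (hFx i) (hFx j) with h | ⟨y', hy', hi', hj', h⟩
    · exfalso
      rw [min_eq_right hji] at h
      have := hle1 (i, j)
      linarith
    · have hyU := hRU hy'
      have hy0' := hU y' hyU
      have hdx : 0 < dst f x y' := dst_pos (by norm_num) f hy0' (hmx y' hyU)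
      have h1 := h y' hyU (fun a b => by rw [dot_mv]; ring) hdx
      rw [min_eq_right hji] at h1
      have h1' : lam f (d j) (F j) x ≤ ly f y' x + Bp (i, j) := h1
      have h2 := hle1 (i, j)
      have hly : B < ly f y' x := by linarith
      have h3 := hCc (y', i, j) hyU hij hi' hj' x hx0 hFx (hAx y' hyU i) hdx (by
        show 0 ≤ ly f y' x
        linarith) (by
        show lam f (d j) (F j) x ≤ ly f y' x + B
        linarith)
      have h3' : tm f F d M y' x i + tm f F d M y' x j ≤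
        (DA y' i).val f x + Cc (y', i, j) := h3
      have h4 : Cc (y', i, j) ≤ ∑ p ∈ U ×ˢ (univ : Finset (Fin q × Fin q)), Cc p :=
        Finset.single_le_sum (f := Cc) (fun p _ => hCc0 p)
          (Finset.mem_product.2 ⟨hyU, Finset.mem_univ (i, j)⟩)
      have h5 : ∀ l, 0 ≤ lam f (d l) (F l) x →
          1 / (d l : ℝ) * lam f (d l) (F l) x ≤ tm f F d M y' x l := by
        intro l hl
        have h6 : 0 ≤ min (lam f (d l) (F l) x) (M l y' * ly f y' x) :=
          le_min hl (mul_nonneg (Nat.cast_nonneg _) (by linarith))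
        have h7 : 0 ≤ 1 - 1 / (d l : ℝ) := by
          rw [sub_nonneg, div_le_one (by have := hd1 l; linarith)]
          exact hd1 l
        have h8 := mul_nonneg h7 h6
        unfold tm
        linarith
      have h6 := h5 i (by linarith)
      have h7 := h5 j (by linarith)
      have h8 : ∀ l, l ≠ i → l ≠ j → 1 / (d l : ℝ) * lam f (d l) (F l) x ≤ 2 * B := by
        intro l hli hlj
        rcases hdi l with h | h
        · exact h
        · exfalso
          have h9 : eval y' (F l) ≠ 0 := by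
            intro h0
            rcases triple hF hS hy0' hij hi' hj' l h0 with h | h
            · exact hli h
            · exact hlj h
          have h10 := hle2 y' hyU l
          rcases hBf (y', l) hy0' h9 x hx0 (hFx l) (hmx y' hyU) with h | h
          · have h' : lam f (d l) (F l) x ≤ Bf (y', l) := h
            linarith
          · have h' : ly f y' x ≤ Bf (y', l) := h
            linarith
      have h9 : ∑ l, 1 / (d l : ℝ) * lam f (d l) (F l) x ≤
          1 / (d i : ℝ) * lam f (d i) (F i) x + 1 / (d j : ℝ) * lam f (d j) (F j) x +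
            2 * B * q := by
        rw [← Finset.add_sum_erase _ _ (Finset.mem_univ i), ← Finset.add_sum_erase _ _
          (Finset.mem_erase.2 ⟨hij.symm, Finset.mem_univ j⟩)]
        have h10 : ∑ l ∈ (univ.erase i).erase j, 1 / (d l : ℝ) * lam f (d l) (F l) x ≤
            ((univ.erase i).erase j).card • (2 * B) := by
          refine Finset.sum_le_card_nsmul _ _ _ fun l hl => ?_
          rw [Finset.mem_erase, Finset.mem_erase] at hl
          exact h8 l hl.2.1 hl.1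
        have h11 : ((univ.erase i).erase j).card ≤ q := by
          refine (Finset.card_le_univ _).trans ?_
          rw [Fintype.card_fin]
        have h12 : (((univ.erase i).erase j).card : ℝ) ≤ q := by exact_mod_cast h11
        rw [nsmul_eq_mul] at h10
        nlinarith
      left
      refine ⟨y', hyU, i, ?_⟩
      rw [hCdef]
      linarith
  · push Not at hbig
    have hUne' := hy0
    by_cases hq : Nonempty (Fin q)
    · obtain ⟨i, -, hi⟩ := Finset.exists_max_image (univ : Finset (Fin q))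
        (fun i => lam f (d i) (F i) x) Finset.univ_nonempty
      have h1 : ∀ l, l ≠ i → 1 / (d l : ℝ) * lam f (d l) (F l) x ≤ 2 * B := by
        intro l hl
        rcases hdi l with h | h
        · exact h
        · have h2 := hbig i l (Ne.symm hl) h
          have h3 := hi l (Finset.mem_univ _)
          linarith
      have h2 : ∑ l, 1 / (d l : ℝ) * lam f (d l) (F l) x ≤
          1 / (d i : ℝ) * lam f (d i) (F i) x + 2 * B * q := by
        rw [← Finset.add_sum_erase _ _ (Finset.mem_univ i)]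
        have h10 : ∑ l ∈ univ.erase i, 1 / (d l : ℝ) * lam f (d l) (F l) x ≤
            (univ.erase i).card • (2 * B) := by
          refine Finset.sum_le_card_nsmul _ _ _ fun l hl => ?_
          exact h1 l (Finset.mem_erase.1 hl).1
        have h11 : (univ.erase i).card ≤ q := by
          refine (Finset.card_le_univ _).trans ?_
          rw [Fintype.card_fin]
        have h12 : ((univ.erase i).card : ℝ) ≤ q := by exact_mod_cast h11
        rw [nsmul_eq_mul] at h10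
        nlinarith
      have h3 := hCf i x hx0 (hfx i)
      have h4 : Cf i ≤ ∑ i, Cf i :=
        Finset.single_le_sum (f := Cf) (fun p _ => hCf0 p) (Finset.mem_univ i)
      right; right
      refine ⟨i, ?_⟩
      rw [hCdef]
      linarith
    · have hemp : IsEmpty (Fin q) := not_nonempty_iff.1 hq
      right; left
      refine ⟨y0, hy0, ?_⟩
      have h1 := hCl x hx0 (hNx y0 hy0)
      rw [Finset.univ_eq_empty, Finset.sum_empty, hCdef]
      linarith

end Pool.Agent.H7C
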