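import Mathlib
import Pool.Agent.H7C.LocE

/-!
The local inequality in the plane.
-/

set_option autoImplicit false
set_option linter.unusedSectionVars false

namespace Pool.Agent.H7C

open MvPolynomial Finset
open Pool.Agent.W180.OP (nrm le_nrm nrm_pos nrm_nonneg exists_nrm lam lam_eq)
open Pool.Agent.R405 (lff lff_hom eval_lff tg tg_self dot)
open Pool.Agent.H7V1 (ph ph_low ph_single ph_mv ly ly_ge dst dst_pos NC mv dot_mv dot_single
  far_comp tan Contact le_dst)

variable {K : Type} [Field K] {q : ℕ}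

open Classical in
/-- the left hand side -/
noncomputable def LL (f : AbsoluteValue K ℝ) (F : Fin q → MvPolynomial (Fin 3) K) (d : Fin q → ℕ)
    (M : Fin q → (Fin 3 → K) → ℕ) (y x : Fin 3 → K) : ℝ :=
  ∑ i, tm f F d M y x i +
    (2 - (univ.filter (fun i => eval y (F i) = 0)).card) * ly f y x

theorem Fm.mono {U : Finset (Fin 3 → K)}
    {DA : (Fin 3 → K) → Fin q → Dat K 3} {DN : (Fin 3 → K) → Dat K 3} {DF : Fin q → Dat K 3}
    {f : AbsoluteValue K ℝ} {x : Fin 3 → K} {V V' : ℝ} (h : Fm U DA DN DF f x V) (hV : V' ≤ V) :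
    Fm U DA DN DF f x V' := by
  rcases h with ⟨y, hy, i, h⟩ | ⟨y, hy, h⟩ | ⟨i, h⟩
  · exact Or.inl ⟨y, hy, i, hV.trans h⟩
  · exact Or.inr (Or.inl ⟨y, hy, hV.trans h⟩)
  · exact Or.inr (Or.inr ⟨i, hV.trans h⟩)

theorem far_case (f : AbsoluteValue K ℝ) {F : Fin q → MvPolynomial (Fin 3) K} {d : Fin q → ℕ}
    (hF : ∀ i, (F i).IsHomogeneous (d i)) (hS : NC F) (hd : ∀ i, 1 ≤ d i)
    (M : Fin q → (Fin 3 → K) → ℕ) {U R : Finset (Fin 3 → K)} (hU : ∀ y ∈ U, y ≠ 0)
    (hRU : R ⊆ U)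
    (hM : ∀ y ∈ U, ∀ i, eval y (F i) = 0 → 1 ≤ M i y ∧ Contact (F i) y (M i y))
    (hcr : ∀ i j, i ≠ j → ∀ (L : Type) [Field L] [Algebra K L] (x : Fin 3 → L), x ≠ 0 →
      aeval x (F i) = 0 → aeval x (F j) = 0 →
        ∃ y ∈ R, ∃ c : L, x = c • fun b => algebraMap K L (y b))
    {DA : (Fin 3 → K) → Fin q → Dat K 3} {DN : (Fin 3 → K) → Dat K 3} {DF : Fin q → Dat K 3}
    (hDA : ∀ y ∈ U, ∀ i, eval y (F i) = 0 → PA F d y i (DA y i))
    (hDF : ∀ i, PF (F i) (d i) (DF i)) {y : Fin 3 → K} (hyU : y ∈ U) (B : ℝ) (hB : 0 ≤ B) :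
    ∃ C : ℝ, 0 ≤ C ∧ ∀ x : Fin 3 → K, Gd F U DA DN DF x → ly f y x ≤ B →
      Fm U DA DN DF f x (LL f F d M y x - C) := by
  classical
  obtain ⟨C, hC0, hC⟩ := ef_case (DN := DN) f hF hS hd M hU hRU ⟨y, hyU⟩ hM hcr hDA hDF
  have hs0 : 0 ≤ ∑ i, (M i y : ℝ) * B :=
    Finset.sum_nonneg fun i _ => mul_nonneg (Nat.cast_nonneg _) hB
  have hlog2 : 0 ≤ Real.log 2 := Real.log_nonneg (by norm_num)
  refine ⟨C + ∑ i, (M i y : ℝ) * B + (2 + q) * (B + Real.log 2), by positivity,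
    fun x hx hly => (hC x hx).mono ?_⟩
  obtain ⟨hx0, hFx, hAx, hNx, hfx, hmx⟩ := hx
  have hdx : 0 < dst f x y := dst_pos (by norm_num) f (hU y hyU) (hmx y hyU)
  have hl2 := ly_ge f hx0 (hU y hyU) hdx
  have h1 : ∑ i, tm f F d M y x i ≤ ∑ i, 1 / (d i : ℝ) * lam f (d i) (F i) x +
      ∑ i, (M i y : ℝ) * B := by
    rw [← Finset.sum_add_distrib]
    exact Finset.sum_le_sum fun i _ => tm_far f F M y x (hd i) hB hly
  have h2 : (2 - ((univ.filter (fun i => eval y (F i) = 0)).card : ℝ)) * ly f y x ≤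
      (2 + q) * (B + Real.log 2) := by
    have hc1 : ((univ.filter (fun i => eval y (F i) = 0)).card : ℝ) ≤ q := by
      have : (univ.filter (fun i => eval y (F i) = 0)).card ≤ q := by
        refine (Finset.card_le_univ _).trans ?_
        rw [Fintype.card_fin]
      exact_mod_cast this
    have hc0 : (0 : ℝ) ≤ ((univ.filter (fun i => eval y (F i) = 0)).card : ℝ) :=
      Nat.cast_nonneg _
    have habs : |ly f y x| ≤ B + Real.log 2 := by
      rw [abs_le]
      constructor <;> linarith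
    have habs2 : |2 - ((univ.filter (fun i => eval y (F i) = 0)).card : ℝ)| ≤ 2 + q := by
      rw [abs_le]
      constructor <;> linarith
    refine (le_abs_self _).trans ?_
    rw [abs_mul]
    exact mul_le_mul habs2 habs (abs_nonneg _) (by positivity)
  unfold LL
  linarith

theorem local_plane (f : AbsoluteValue K ℝ) {F : Fin q → MvPolynomial (Fin 3) K} {d : Fin q → ℕ}
    (hF : ∀ i, (F i).IsHomogeneous (d i)) (hS : NC F) (hd : ∀ i, 1 ≤ d i)
    (M : Fin q → (Fin 3 → K) → ℕ) {U R : Finset (Fin 3 → K)} (hU : ∀ y ∈ U, y ≠ 0)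
    (hRU : R ⊆ U)
    (hM : ∀ y ∈ U, ∀ i, eval y (F i) = 0 → 1 ≤ M i y ∧ Contact (F i) y (M i y))
    (hcr : ∀ i j, i ≠ j → ∀ (L : Type) [Field L] [Algebra K L] (x : Fin 3 → L), x ≠ 0 →
      aeval x (F i) = 0 → aeval x (F j) = 0 →
        ∃ y ∈ R, ∃ c : L, x = c • fun b => algebraMap K L (y b))
    {DA : (Fin 3 → K) → Fin q → Dat K 3} {DN : (Fin 3 → K) → Dat K 3} {DF : Fin q → Dat K 3}
    (hDA : ∀ y ∈ U, ∀ i, eval y (F i) = 0 → PA F d y i (DA y i))
    (hDN : ∀ y ∈ U, PN F y (DN y))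
    (hDF : ∀ i, PF (F i) (d i) (DF i)) {y : Fin 3 → K} (hyU : y ∈ U) :
    ∃ C : ℝ, 0 ≤ C ∧ ∀ x : Fin 3 → K, Gd F U DA DN DF x →
      Fm U DA DN DF f x (LL f F d M y x - C) := by
  classical
  have hy := hU y hyU
  -- constants
  have hpair : ∀ p : Fin q × Fin q, ∃ B : ℝ, 0 ≤ B ∧ (p.1 ≠ p.2 → ∀ x : Fin 3 → K, x ≠ 0 →
      eval x (F p.1) ≠ 0 → eval x (F p.2) ≠ 0 →
      min (lam f (d p.1) (F p.1) x) (lam f (d p.2) (F p.2) x) ≤ B ∨
        ∃ y' ∈ R, eval y' (F p.1) = 0 ∧ eval y' (F p.2) = 0 ∧ ∀ y ∈ U,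
          (∀ a b, dot (mv y a b) y' = 0) → 0 < dst f x y →
            min (lam f (d p.1) (F p.1) x) (lam f (d p.2) (F p.2) x) ≤ ly f y x + B) := by
    intro p
    by_cases hp : p.1 ≠ p.2
    · obtain ⟨B, h1, h2⟩ := pair_ly f hF hS hp (hd _) (hd _) (fun y hy => hU y (hRU hy))
        (hcr _ _ hp) U
      exact ⟨B, h1, fun _ => h2⟩
    · exact ⟨0, le_rfl, fun h => absurd h hp⟩
  choose Bp hBp0 hBp using hpair
  have hfar : ∀ i : Fin q, ∃ B : ℝ, 0 ≤ B ∧ (eval y (F i) ≠ 0 →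
      ∀ x : Fin 3 → K, x ≠ 0 → eval x (F i) ≠ 0 →
        (∀ a b, mv y a b ≠ 0 → dot (mv y a b) x ≠ 0) →
        lam f (d i) (F i) x ≤ B ∨ ly f y x ≤ B) := by
    intro i
    by_cases hp : eval y (F i) ≠ 0
    · obtain ⟨B, hB⟩ := far_comp f (hF i) hy hp
      refine ⟨|B|, abs_nonneg _, fun _ x hx hFx hmx => ?_⟩
      have := le_abs_self B
      rcases hB x hx hFx hmx with h | h
      · left; linarith
      · right; linarith
    · exact ⟨0, le_rfl, fun h1 => absurd h1 hp⟩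
  choose Bf hBf0 hBf using hfar
  have htwo : ∀ y' : Fin 3 → K, ∃ B : ℝ, 0 ≤ B ∧ ((∃ a b, dot (mv y a b) y' ≠ 0) →
      ∀ x : Fin 3 → K, x ≠ 0 →
      (∀ a b, mv y a b ≠ 0 → dot (mv y a b) x ≠ 0) →
      (∀ a b, mv y' a b ≠ 0 → dot (mv y' a b) x ≠ 0) → ly f y x ≤ B ∨ ly f y' x ≤ B) := by
    intro y'
    by_cases h : ∃ a b, dot (mv y a b) y' ≠ 0
    · obtain ⟨a, b, hab⟩ := h
      obtain ⟨B, h1, h2⟩ := two_pts f hy hab
      exact ⟨B, h1, fun _ => h2⟩
    · exact ⟨0, le_rfl, fun h1 => absurd h1 h⟩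
  choose Bt hBt0 hBt using htwo
  obtain ⟨B, hBdef⟩ : ∃ B : ℝ, B = ∑ p, Bp p + ∑ i, Bf i + ∑ y' ∈ R, Bt y' := ⟨_, rfl⟩
  have hs1 : 0 ≤ ∑ p, Bp p := Finset.sum_nonneg fun p _ => hBp0 p
  have hs2 : 0 ≤ ∑ i, Bf i := Finset.sum_nonneg fun p _ => hBf0 p
  have hs3 : 0 ≤ ∑ y' ∈ R, Bt y' := Finset.sum_nonneg fun p _ => hBt0 p
  have hB0 : 0 ≤ B := by linarith
  have hle1 : ∀ p, Bp p ≤ B := by
    intro p
    have := Finset.single_le_sum (f := Bp) (fun p _ => hBp0 p) (Finset.mem_univ p)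
    linarith
  have hle2 : ∀ i, Bf i ≤ B := by
    intro i
    have := Finset.single_le_sum (f := Bf) (fun p _ => hBf0 p) (Finset.mem_univ i)
    linarith
  have hle3 : ∀ y' ∈ R, Bt y' ≤ B := by
    intro y' hy'
    have := Finset.single_le_sum (f := Bt) (fun p _ => hBt0 p) hy'
    linarith
  obtain ⟨C1, hC10, hC1⟩ := far_case (DN := DN) f hF hS hd M hU hRU hM hcr hDA hDF hyU B hB0
  -- the constants of the cases near the point
  have hcross : ∀ p : Fin q × Fin q, ∃ C : ℝ, 0 ≤ C ∧ (p.1 ≠ p.2 →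
      eval y (F p.1) = 0 → eval y (F p.2) = 0 → ∀ x : Fin 3 → K, x ≠ 0 →
        (∀ l, eval x (F l) ≠ 0) → (DA y p.1).Off x → 0 < dst f x y → 0 ≤ ly f y x →
        lam f (d p.2) (F p.2) x ≤ ly f y x + 2 * B →
        tm f F d M y x p.1 + tm f F d M y x p.2 ≤ (DA y p.1).val f x + C) := by
    intro p
    by_cases hp : p.1 ≠ p.2 ∧ eval y (F p.1) = 0 ∧ eval y (F p.2) = 0
    · obtain ⟨C, h1, h2⟩ := cross_case f hF hS hd M hy (hM _ hyU) hp.1 hp.2.1
        hp.2.2 (hDA _ hyU _ hp.2.1) (2 * B) (by positivity)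
      exact ⟨C, h1, fun _ _ _ => h2⟩
    · exact ⟨0, le_rfl, fun h2 h3 h4 => absurd ⟨h2, h3, h4⟩ hp⟩
  choose Cc hCc0 hCc using hcross
  have hone : ∀ i : Fin q, ∃ C : ℝ, 0 ≤ C ∧ ((∀ l, eval y (F l) = 0 ↔ l = i) →
      ∀ x : Fin 3 → K, x ≠ 0 → (∀ l, eval x (F l) ≠ 0) → (DA y i).Off x →
      0 < dst f x y → tm f F d M y x i + ly f y x ≤ (DA y i).val f x + C) := by
    intro i
    by_cases hp : ∀ l, eval y (F l) = 0 ↔ l = i
    · obtain ⟨C, h1, h2⟩ := one_case f hF hS hd M hy (hM y hyU i ((hp i).2 rfl)).2 hp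
        (hDA y hyU i ((hp i).2 rfl))
      exact ⟨C, h1, fun _ => h2⟩
    · exact ⟨0, le_rfl, fun h => absurd h hp⟩
  choose Co hCo0 hCo using hone
  have hzero : ∃ C : ℝ, 0 ≤ C ∧ ((∀ l, eval y (F l) ≠ 0) → ∀ x : Fin 3 → K, x ≠ 0 →
      (DN y).Off x → 2 * ly f y x ≤ (DN y).val f x + C) := by
    by_cases hp : ∀ l, eval y (F l) ≠ 0
    · obtain ⟨C, h1, h2⟩ := zero_case f hp (hDN y hyU)
      exact ⟨C, h1, fun _ => h2⟩
    · exact ⟨0, le_rfl, fun h => absurd h hp⟩
  obtain ⟨Cz, hCz0, hCz⟩ := hzero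
  obtain ⟨C, hCdef⟩ : ∃ C : ℝ, C = C1 + q * B + ∑ p, Cc p + ∑ i, Co i + Cz := ⟨_, rfl⟩
  have hs4 : 0 ≤ ∑ p, Cc p := Finset.sum_nonneg fun p _ => hCc0 p
  have hs5 : 0 ≤ ∑ i, Co i := Finset.sum_nonneg fun p _ => hCo0 p
  have hqB : 0 ≤ (q : ℝ) * B := by positivity
  refine ⟨C, by rw [hCdef]; positivity, fun x hx => ?_⟩
  rcases le_or_gt (ly f y x) B with hsm | hlarge
  · refine (hC1 x hx hsm).mono ?_
    rw [hCdef]
    linarith
  obtain ⟨hx0, hFx, hAx, hNx, hfx, hmx⟩ := hx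
  have hdx : 0 < dst f x y := dst_pos (by norm_num) f hy (hmx y hyU)
  -- the components which do not pass through `y`
  obtain ⟨I, hI⟩ : ∃ I : Finset (Fin q), I = univ.filter (fun i => eval y (F i) = 0) := ⟨_, rfl⟩
  have hmem : ∀ i, i ∈ I ↔ eval y (F i) = 0 := by
    intro i
    rw [hI, Finset.mem_filter]
    exact ⟨fun h => h.2, fun h => ⟨Finset.mem_univ _, h⟩⟩
  have hLL : LL f F d M y x ≤ ∑ i ∈ I, tm f F d M y x i + (2 - (I.card : ℝ)) * ly f y x +
      q * B := by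
    have h1 : ∑ i, tm f F d M y x i ≤ ∑ i ∈ I, tm f F d M y x i + q * B := by
      rw [← Finset.sum_sdiff (Finset.subset_univ I)]
      have h10 : ∑ l ∈ univ \ I, tm f F d M y x l ≤ (univ \ I).card • B := by
        refine Finset.sum_le_card_nsmul _ _ _ fun l hl => ?_
        have hl' : eval y (F l) ≠ 0 := fun h =>
          (Finset.mem_sdiff.1 hl).2 ((hmem l).2 h)
        refine (tm_le_lam f F M y x (hd l)).trans ?_
        have h2 := hle2 l
        rcases hBf l hl' x hx0 (hFx l) (hmx y hyU) with h | h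
        · linarith
        · linarith
      have h11 : (univ \ I).card ≤ q := by
        refine (Finset.card_le_univ _).trans ?_
        rw [Fintype.card_fin]
      have h12 : ((univ \ I).card : ℝ) ≤ q := by exact_mod_cast h11
      rw [nsmul_eq_mul] at h10
      nlinarith
    unfold LL
    rw [← hI]
    linarith
  rcases Finset.eq_empty_or_nonempty I with hemp | ⟨i, hi⟩
  · -- no component
    right; left
    refine ⟨y, hyU, ?_⟩
    have h1 := hCz (fun l h => by
      have := (hmem l).2 h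
      rw [hemp] at this
      exact absurd this (Finset.notMem_empty _)) x hx0 (hNx y hyU)
    rw [hemp, Finset.sum_empty, Finset.card_empty] at hLL
    push_cast at hLL
    rw [hCdef]
    linarith
  by_cases hone' : ∀ l, l ∈ I → l = i
  · -- one component
    left
    refine ⟨y, hyU, i, ?_⟩
    have hIs : I = {i} := by
      ext l
      rw [Finset.mem_singleton]
      exact ⟨hone' l, fun h => h ▸ hi⟩
    have h1 := hCo i (fun l => by
      rw [← hmem, hIs, Finset.mem_singleton]) x hx0 hFx (hAx y hyU i) hdx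
    rw [hIs, Finset.sum_singleton, Finset.card_singleton] at hLL
    have h2 : Co i ≤ ∑ i, Co i :=
      Finset.single_le_sum (f := Co) (fun p _ => hCo0 p) (Finset.mem_univ i)
    push_cast at hLL
    rw [hCdef]
    linarith
  · -- two components
    push Not at hone'
    obtain ⟨j, hj, hji⟩ := hone'
    have key : ∀ i j, i ∈ I → j ∈ I → i ≠ j →
        lam f (d j) (F j) x ≤ lam f (d i) (F i) x →
        Fm U DA DN DF f x (LL f F d M y x - C) := by
      intro i j hi hj hij hle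
      have hi0 := (hmem i).1 hi
      have hj0 := (hmem j).1 hj
      have hIs : I = {i, j} := by
        ext l
        rw [Finset.mem_insert, Finset.mem_singleton, hmem]
        constructor
        · intro h
          exact triple hF hS hy hij hi0 hj0 l h
        · rintro (rfl | rfl)
          · exact hi0
          · exact hj0
      have hlj : lam f (d j) (F j) x ≤ ly f y x + 2 * B := by
        have hb := hle1 (i, j)
        rcases hBp (i, j) hij x hx0 (hFx i) (hFx j) with h | ⟨y', hy', hi', hj', h⟩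
        · rw [min_eq_right hle] at h
          linarith
        · by_cases hyy : ∀ a b, dot (mv y a b) y' = 0
          · have h1 := h y hyU hyy hdx
            rw [min_eq_right hle] at h1
            have h1' : lam f (d j) (F j) x ≤ ly f y x + Bp (i, j) := h1
            linarith
          · push Not at hyy
            have hyU' := hRU hy'
            have hdx' : 0 < dst f x y' := dst_pos (by norm_num) f (hU y' hyU') (hmx y' hyU')
            have h1 := h y' hyU' (fun a b => by rw [dot_mv]; ring) hdx'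
            rw [min_eq_right hle] at h1
            have h1' : lam f (d j) (F j) x ≤ ly f y' x + Bp (i, j) := h1
            have h2 := hle3 y' hy'
            rcases hBt y' hyy x hx0 (hmx y hyU) (hmx y' hyU') with h3 | h3
            · linarith
            · linarith
      left
      refine ⟨y, hyU, i, ?_⟩
      have h1 := hCc (i, j) hij hi0 hj0 x hx0 hFx (hAx y hyU i) hdx (by linarith) hlj
      have h1' : tm f F d M y x i + tm f F d M y x j ≤ (DA y i).val f x + Cc (i, j) := h1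
      rw [hIs, Finset.sum_pair hij, Finset.card_pair hij] at hLL
      have h2 : Cc (i, j) ≤ ∑ i, Cc i :=
        Finset.single_le_sum (f := Cc) (fun p _ => hCc0 p) (Finset.mem_univ (i, j))
      push_cast at hLL
      have h3 : ((2 : ℝ) - 2) * ly f y x = 0 := by ring
      rw [hCdef]
      linarith
    rcases le_total (lam f (d i) (F i) x) (lam f (d j) (F j) x) with h | h
    · exact key j i hj hi hji h
    · exact key i j hi hj (Ne.symm hji) h

end Pool.Agent.H7C
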