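import Mathlib
import Pool.Agent.H7C.LocF
import Pool.Agent.H7V1.Glob
import Pool.Agent.R405.Alg
import Pool.Agent.R405.Big

/-!
The global inequality in the plane.
-/

set_option autoImplicit false
set_option linter.unusedSectionVars false

namespace Pool.Agent.H7C

open MvPolynomial Finset Module Height NumberField
open Pool.Agent.W180.OP (Pl av wt nrm le_nrm nrm_pos nrm_nonneg exists_nrm lam lam_eq wt_nonneg
  bc common_bc)
open Pool.Agent.R405 (Good up up_ne lff lff_hom eval_lff tg tg_self dot exv exv_ne exists_big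
  exists_cross)
open Pool.Agent.H7V1 (ph ph_low ly ly_ge dst dst_pos NC mv dot_mv Contact CT contact_two
  CT.contact eval_exv tg_exv exv_inj nrm_ch dst_ch ly_ch lam_ch card_nat)

theorem mv_ne_lff {K : Type} [Field K] {y : Fin 3 → K} {a b : Fin 3} (h : mv y a b ≠ 0) :
    lff (mv y a b) ≠ 0 := lff_ne h

theorem globBK {k K : Type} [Field k] [NumberField k] [Field K] [NumberField K] [Algebra k K]
    [IsGalois ℚ K] (hi : ∃ z : K, z ^ 2 = -1) {q : ℕ}
    {F : Fin q → MvPolynomial (Fin 3) K} {d : Fin q → ℕ} (hF : ∀ i, (F i).IsHomogeneous (d i))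
    (hS : NC F) (hd : ∀ i, 1 ≤ d i) (M : Fin q → (Fin 3 → K) → ℕ) {U R : Finset (Fin 3 → K)}
    (hU : ∀ y ∈ U, y ≠ 0) (hRU : R ⊆ U)
    (hM : ∀ y ∈ U, ∀ i, eval y (F i) = 0 → 1 ≤ M i y ∧ Contact (F i) y (M i y))
    (hcr : ∀ i j, i ≠ j → ∀ (L : Type) [Field L] [Algebra K L] (x : Fin 3 → L), x ≠ 0 →
      aeval x (F i) = 0 → aeval x (F j) = 0 →
        ∃ y ∈ R, ∃ c : L, x = c • fun b => algebraMap K L (y b))
    (S : Finset (Pl k)) (f : Pl k → AbsoluteValue K ℝ) (hf : ∀ v ∈ S, Good v (f v))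
    (y : Pl k → Fin 3 → K) (hy : ∀ v ∈ S, y v ∈ U) (ε : ℝ) (hε : 0 < ε) :
    ∃ (Z : Finset (MvPolynomial (Fin 3) k)) (C : ℝ),
      (∀ G ∈ Z, G ≠ 0 ∧ ∃ t, G.IsHomogeneous t) ∧ ∀ x : Fin 3 → k, x ≠ 0 →
        (∀ G ∈ Z, eval x G ≠ 0) → (∀ i, eval (up K x) (F i) ≠ 0) →
        ∑ v ∈ S, wt v * LL (f v) F d M (y v) (up K x) ≤ (3 + ε) * logHeight x + C := by
  classical
  by_cases hSe : S = ∅
  · refine ⟨∅, 0, fun G hG => absurd hG (Finset.notMem_empty _), fun x hx _ _ => ?_⟩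
    rw [hSe, Finset.sum_empty, add_zero]
    exact mul_nonneg (by linarith) (logHeight_nonneg x)
  obtain ⟨v0, hv0⟩ := Finset.nonempty_iff_ne_empty.2 hSe
  choose DA hDA1 hDA2 using fun y => exists_PA hF hS hd y
  choose DN hDN1 hDN2 using fun y => exists_PN hF hS y
  choose DF hDF1 hDF2 using fun i => exists_PF hF hS hd i
  have hne : Nonempty (U × Fin q ⊕ U ⊕ Fin q) := ⟨Sum.inr (Sum.inl ⟨y v0, hy v0 hv0⟩)⟩
  obtain ⟨D, hD⟩ : ∃ D : U × Fin q ⊕ U ⊕ Fin q → Dat K 3, D =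
      Sum.elim (fun p => DA p.1.1 p.2) (Sum.elim (fun p => DN p.1) DF) := ⟨_, rfl⟩
  have hDok : ∀ j, (D j).Ok := by
    intro j
    rw [hD]
    rcases j with p | p | i
    · exact hDA1 _ _
    · exact hDN1 _
    · exact hDF1 _
  obtain ⟨Z, C, hZ, hC⟩ := core_fam (k := k) hi (by norm_num : 1 ≤ 3) S f hf D hDok ε hε
  have hdes : ∀ P : MvPolynomial (Fin 3) K, ∃ G : MvPolynomial (Fin 3) k, P ≠ 0 → (G ≠ 0 ∧
      (∀ t, P.IsHomogeneous t → G.IsHomogeneous t) ∧
      ∀ x : Fin 3 → k, eval x G ≠ 0 → eval (up K x) P ≠ 0) := by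
    intro P
    by_cases hP : P = 0
    · exact ⟨0, fun h => absurd hP h⟩
    · obtain ⟨G, hG⟩ := descendP (k := k) P hP
      exact ⟨G, fun _ => hG⟩
  choose E hE using hdes
  obtain ⟨W, hW⟩ : ∃ W : Finset (MvPolynomial (Fin 3) K), W =
      (((U ×ˢ (univ : Finset (Fin 3 × Fin 3))).filter fun p => mv p.1 p.2.1 p.2.2 ≠ 0).image
        fun p => lff (mv p.1 p.2.1 p.2.2)) := ⟨_, rfl⟩
  have hWne : ∀ P ∈ W, P ≠ 0 ∧ P.IsHomogeneous 1 := by
    intro P hP
    rw [hW] at hP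
    obtain ⟨p, hp, rfl⟩ := Finset.mem_image.1 hP
    exact ⟨lff_ne (Finset.mem_filter.1 hp).2, lff_hom _⟩
  have hloc : ∀ v, ∃ C : ℝ, v ∈ S → ∀ x : Fin 3 → K, Gd F U DA DN DF x →
      Fm U DA DN DF (f v) x (LL (f v) F d M (y v) x - C) := by
    intro v
    by_cases hv : v ∈ S
    · obtain ⟨C, -, h⟩ := local_plane (f v) hF hS hd M hU hRU hM hcr
        (fun y hy i hi => hDA2 y i (hU y hy) hi) (fun y hy => hDN2 y (hU y hy)) hDF2 (hy v hv)
      exact ⟨C, fun _ => h⟩
    · exact ⟨0, fun h => absurd h hv⟩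
  choose Cv hCv using hloc
  refine ⟨Z ∪ W.image E, C + ∑ v ∈ S, wt v * Cv v, ?_, fun x hx hZx hFx => ?_⟩
  · intro G hG
    rcases Finset.mem_union.1 hG with h | h
    · exact hZ G h
    · obtain ⟨P, hP, rfl⟩ := Finset.mem_image.1 h
      exact ⟨(hE P (hWne P hP).1).1, 1, (hE P (hWne P hP).1).2.1 1 (hWne P hP).2⟩
  obtain ⟨hoff, hsum⟩ := hC x hx (fun G hG => hZx G (Finset.mem_union_left _ hG))
  have hgd : Gd F U DA DN DF (up K x) := by
    refine ⟨up_ne hx, hFx, ?_, ?_, ?_, ?_⟩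
    · intro y hy i
      have h := hoff (Sum.inl (⟨y, hy⟩, i))
      rw [hD] at h
      exact h
    · intro y hy
      have h := hoff (Sum.inr (Sum.inl ⟨y, hy⟩))
      rw [hD] at h
      exact h
    · intro i
      have h := hoff (Sum.inr (Sum.inr i))
      rw [hD] at h
      exact h
    · intro y hy a b hab
      have hmem : lff (mv y a b) ∈ W := by
        rw [hW]
        refine Finset.mem_image.2 ⟨(y, a, b), Finset.mem_filter.2 ⟨Finset.mem_product.2
          ⟨hy, Finset.mem_univ _⟩, hab⟩, rfl⟩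
      have h := (hE _ (hWne _ hmem).1).2.2 x (hZx _ (Finset.mem_union_right _
        (Finset.mem_image_of_mem _ hmem)))
      rwa [eval_lff] at h
  have hch : ∀ v, ∃ c : U × Fin q ⊕ U ⊕ Fin q, v ∈ S →
      LL (f v) F d M (y v) (up K x) - Cv v ≤ (D c).val (f v) (up K x) := by
    intro v
    by_cases hv : v ∈ S
    · rcases hCv v hv (up K x) hgd with ⟨y', hy', i, h⟩ | ⟨y', hy', h⟩ | ⟨i, h⟩
      · refine ⟨Sum.inl (⟨y', hy'⟩, i), fun _ => ?_⟩
        rw [hD]
        exact h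
      · refine ⟨Sum.inr (Sum.inl ⟨y', hy'⟩), fun _ => ?_⟩
        rw [hD]
        exact h
      · refine ⟨Sum.inr (Sum.inr i), fun _ => ?_⟩
        rw [hD]
        exact h
    · exact ⟨hne.some, fun h => absurd h hv⟩
  choose c hc using hch
  have h1 := hsum c
  have h2 : ∀ v ∈ S, wt v * LL (f v) F d M (y v) (up K x) ≤
      wt v * (D (c v)).val (f v) (up K x) + wt v * Cv v := by
    intro v hv
    rw [← mul_add]
    refine mul_le_mul_of_nonneg_left ?_ (wt_nonneg v)
    have := hc v hv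
    linarith
  have h3 := Finset.sum_le_sum h2
  rw [Finset.sum_add_distrib] at h3
  push_cast at h1
  linarith

theorem tm_ch {K M : Type} [Field K] [Field M] [Algebra K M] {q : ℕ}
    {f : AbsoluteValue K ℝ} {g : AbsoluteValue M ℝ} {t : ℝ} (ht : 0 < t)
    (hg : ∀ y : K, g (algebraMap K M y) = f y ^ t) (F : Fin q → MvPolynomial (Fin 3) K)
    (d : Fin q → ℕ) (M' : Fin q → (Fin 3 → M) → ℕ) {x : Fin 3 → K} (hx : x ≠ 0) (y : Fin 3 → K)
    {i : Fin q} (hFx : eval x (F i) ≠ 0) :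
    tm g (fun i => map (algebraMap K M) (F i)) d M' (exv M y) (exv M x) i =
      t * tm f F d (fun i y => M' i (exv M y)) y x i := by
  unfold tm
  rw [lam_ch ht hg (by norm_num) hx _ hFx, ly_ch ht hg (by norm_num)]
  have h1 : min (t * lam f (d i) (F i) x) ((M' i (exv M y) : ℝ) * (t * ly f y x)) =
      t * min (lam f (d i) (F i) x) ((M' i (exv M y) : ℝ) * ly f y x) := by
    rw [mul_min_of_nonneg _ _ ht.le]
    congr 1
    ring
  rw [h1]
  ring

theorem tm_mono {K : Type} [Field K] {q : ℕ} (f : AbsoluteValue K ℝ)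
    (F : Fin q → MvPolynomial (Fin 3) K) {d : Fin q → ℕ} (m m' : Fin q → (Fin 3 → K) → ℕ)
    {x : Fin 3 → K} (hx : x ≠ 0) {y : Fin 3 → K} (hy : y ≠ 0) {i : Fin q} (hd : 1 ≤ d i)
    (hdx : 0 < dst f x y) (hm : m i y ≤ m' i y) :
    tm f F d m y x i ≤ tm f F d m' y x i + m' i y * Real.log 2 := by
  have hly := ly_ge f hx hy hdx
  have hd' : (1 : ℝ) ≤ d i := by exact_mod_cast hd
  have h1 : 0 ≤ 1 - 1 / (d i : ℝ) := by
    rw [sub_nonneg, div_le_one (by linarith)]
    exact hd'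
  have h1' : 0 ≤ 1 / (d i : ℝ) := by positivity
  have hlog2 : 0 ≤ Real.log 2 := Real.log_nonneg (by norm_num)
  have hm' : (m i y : ℝ) ≤ m' i y := by exact_mod_cast hm
  have hm0 : (0 : ℝ) ≤ m i y := Nat.cast_nonneg _
  have h2 : (m i y : ℝ) * ly f y x ≤ m' i y * ly f y x + m' i y * Real.log 2 := by
    rcases le_total 0 (ly f y x) with h | h
    · nlinarith
    · nlinarith
  have h3 : min (lam f (d i) (F i) x) (m i y * ly f y x) ≤
      min (lam f (d i) (F i) x) (m' i y * ly f y x) + m' i y * Real.log 2 := by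
    rw [← min_add_add_right]
    refine min_le_min ?_ h2
    have : 0 ≤ (m' i y : ℝ) * Real.log 2 := by positivity
    linarith
  have h4 := mul_le_mul_of_nonneg_left h3 h1
  have h5 : 0 ≤ 1 / (d i : ℝ) * ((m' i y : ℝ) * Real.log 2) := by positivity
  unfold tm
  linarith

theorem LL_eq {K : Type} [Field K] {q : ℕ} (f : AbsoluteValue K ℝ)
    (F : Fin q → MvPolynomial (Fin 3) K) (d : Fin q → ℕ) (M : Fin q → (Fin 3 → K) → ℕ)
    (y x : Fin 3 → K) : LL f F d M y x = ∑ i, tm f F d M y x i +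
      (2 - (Nat.card {i // eval y (F i) = 0} : ℝ)) * ly f y x := by
  unfold LL
  rw [card_nat]

theorem globB {k K : Type} [Field k] [NumberField k] [Field K] [NumberField K] [Algebra k K]
    {q : ℕ} {F : Fin q → MvPolynomial (Fin 3) K} {d : Fin q → ℕ}
    (hF : ∀ i, (F i).IsHomogeneous (d i)) (hS : NC F) (hd : ∀ i, 1 ≤ d i)
    {P : Finset (Fin 3 → K)} (hP : ∀ y ∈ P, y ≠ 0) {m : Fin q → (Fin 3 → K) → ℕ}
    (hm : ∀ y ∈ P, ∀ i, eval y (F i) = 0 → m i y ≤ 2 ∨ CT (F i) y (m i y))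
    (S : Finset (Pl k)) (w : Pl k → Pl K) (t : Pl k → ℝ) (y : Pl k → Fin 3 → K)
    (hw : ∀ v ∈ S, 0 < t v ∧ (∀ a : k, av (w v) (algebraMap k K a) ^ t v = av v a) ∧ y v ∈ P)
    (ε : ℝ) (hε : 0 < ε) :
    ∃ (Z : Finset (MvPolynomial (Fin 3) k)) (C : ℝ),
      (∀ G ∈ Z, G ≠ 0 ∧ ∃ t, G.IsHomogeneous t) ∧ ∀ x : Fin 3 → k, x ≠ 0 →
        (∀ G ∈ Z, eval x G ≠ 0) → (∀ i, eval (exv K x) (F i) ≠ 0) →
        ∑ v ∈ S, wt v * (t v * (∑ i, tm (av (w v)) F d m (y v) (exv K x) i +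
          (2 - (Nat.card {i // eval (y v) (F i) = 0} : ℝ)) *
            ly (av (w v)) (y v) (exv K x))) ≤ (3 + ε) * logHeight x + C := by
  classical
  obtain ⟨K1, hfd1, R, hR, hcr⟩ := exists_cross F d hF hS
  have : FiniteDimensional ℚ K1 := Module.Finite.trans (R := ℚ) K K1
  have : NumberField K1 := ⟨⟩
  obtain ⟨M, hM1, hM2, hi, ⟨φ⟩⟩ := exists_big K1
  have : NumberField M := ⟨⟩
  let _ : Algebra K1 M := φ.toAlgebra
  let _ : Algebra K M := (φ.comp (algebraMap K K1)).toAlgebra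
  let _ : Algebra k M := ((φ.comp (algebraMap K K1)).comp (algebraMap k K)).toAlgebra
  have : IsScalarTower K K1 M := IsScalarTower.of_algebraMap_eq fun _ => rfl
  have : IsScalarTower k K M := IsScalarTower.of_algebraMap_eq fun _ => rfl
  have hFM : ∀ i, bc M (bc K1 (F i)) = bc M (F i) := by
    intro i
    rw [bc, bc, bc, MvPolynomial.map_map]
    rfl
  obtain ⟨RM, hRM⟩ : ∃ RM : Finset (Fin 3 → M),
    RM = R.image fun y => fun b => algebraMap K1 M (y b) := ⟨_, rfl⟩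
  have hRM0 : ∀ y ∈ RM, y ≠ 0 := by
    intro y hy h0
    rw [hRM] at hy
    obtain ⟨z, hz, rfl⟩ := Finset.mem_image.1 hy
    apply hR z hz
    funext b
    have := congrFun h0 b
    simpa using this
  have hcrM : ∀ i j, i ≠ j → ∀ (L : Type) [Field L] [Algebra M L] (x : Fin 3 → L), x ≠ 0 →
      aeval x (bc M (F i)) = 0 → aeval x (bc M (F j)) = 0 →
      ∃ y ∈ RM, ∃ c : L, x = c • fun b => algebraMap M L (y b) := by
    intro i j hij L _ _ x hx h1 h2
    rw [← hFM] at h1 h2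
    obtain ⟨y, c, h⟩ := common_bc (fun y : R => y.1) (by
      intro L' _ _ x' hx' h1' h2'
      obtain ⟨y, hy, c, hc⟩ := hcr i j hij L' x' hx' h1' h2'
      exact ⟨⟨y, hy⟩, c, hc⟩) M L x hx h1 h2
    refine ⟨_, ?_, c, h⟩
    rw [hRM]
    exact Finset.mem_image_of_mem _ y.2
  obtain ⟨PM, hPM⟩ : ∃ PM : Finset (Fin 3 → M), PM = P.image (exv M) := ⟨_, rfl⟩
  obtain ⟨M', hM'⟩ : ∃ M' : Fin q → (Fin 3 → M) → ℕ, M' = fun i y =>
      if y ∈ PM then max 2 (Function.extend (exv M) (m i) 0 y) else 2 := ⟨_, rfl⟩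
  have hM'y : ∀ i, ∀ y ∈ P, M' i (exv M y) = max 2 (m i y) := by
    intro i y hy
    have h1 : exv M y ∈ PM := by
      rw [hPM]
      exact Finset.mem_image_of_mem _ hy
    rw [hM']
    show (if exv M y ∈ PM then max 2 (Function.extend (exv M) (m i) 0 (exv M y)) else 2) = _
    rw [if_pos h1, exv_inj.extend_apply]
  have hU0 : ∀ y ∈ PM ∪ RM, y ≠ 0 := by
    intro y' hy'
    rcases Finset.mem_union.1 hy' with h | h
    · rw [hPM] at h
      obtain ⟨y, hy, rfl⟩ := Finset.mem_image.1 h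
      intro h
      apply hP y hy
      funext j
      exact (map_eq_zero (algebraMap K M)).1 (congrFun h j)
    · exact hRM0 y' h
  have hcon : ∀ y ∈ PM ∪ RM, ∀ i, eval y (map (algebraMap K M) (F i)) = 0 →
      1 ≤ M' i y ∧ Contact (map (algebraMap K M) (F i)) y (M' i y) := by
    intro y' hy' i h0
    by_cases hy1 : y' ∈ PM
    · have hy2 := hy1
      rw [hPM] at hy2
      obtain ⟨y, hy, rfl⟩ := Finset.mem_image.1 hy2
      rw [hM'y i y hy]
      have h0' : eval y (F i) = 0 := by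
        rw [eval_exv, map_eq_zero] at h0
        exact h0
      refine ⟨le_trans (by norm_num) (le_max_left _ _), ?_⟩
      rcases le_total (m i y) 2 with h | h
      · rw [max_eq_left h]
        exact contact_two h0 le_rfl
      · rw [max_eq_right h]
        rcases hm y hy i h0' with h1 | h1
        · exact contact_two h0 h1
        · exact h1.contact
    · have h1 : M' i y' = 2 := by
        rw [hM']
        show (if y' ∈ PM then max 2 (Function.extend (exv M) (m i) 0 y') else 2) = 2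
        rw [if_neg hy1]
      rw [h1]
      exact ⟨by norm_num, contact_two h0 le_rfl⟩
  have hex : ∀ v, ∃ g : AbsoluteValue M ℝ, v ∈ S → Good v g ∧
      ∀ y : K, g (algebraMap K M y) = av (w v) y ^ t v := by
    intro v
    by_cases hv : v ∈ S
    · obtain ⟨g, h1, h2⟩ := Pool.Agent.R405.QS.ext_place (M := M) v (w v) (t v) (hw v hv).1
        (hw v hv).2.1
      exact ⟨g, fun _ => ⟨h1, h2⟩⟩
    · exact ⟨AbsoluteValue.trivial, fun h => absurd h hv⟩
  choose g hg using hex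
  obtain ⟨Z, C, hZ, hC⟩ := globBK (k := k) (K := M) hi
    (F := fun i => map (algebraMap K M) (F i)) (d := d) (fun i => (hF i).map _) (hS.bc M) hd M'
    (U := PM ∪ RM) (R := RM) hU0 Finset.subset_union_right hcon hcrM S g
    (fun v hv => (hg v hv).1) (fun v => exv M (y v)) (fun v hv => Finset.mem_union_left _ (by
      rw [hPM]
      exact Finset.mem_image_of_mem _ (hw v hv).2.2)) ε hε
  -- avoid the points of `P`
  have hdes : ∀ P : MvPolynomial (Fin 3) K, ∃ G : MvPolynomial (Fin 3) k, P ≠ 0 → (G ≠ 0 ∧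
      (∀ t, P.IsHomogeneous t → G.IsHomogeneous t) ∧
      ∀ x : Fin 3 → k, eval x G ≠ 0 → eval (up K x) P ≠ 0) := by
    intro P
    by_cases hP : P = 0
    · exact ⟨0, fun h => absurd hP h⟩
    · obtain ⟨G, hG⟩ := descendP (k := k) P hP
      exact ⟨G, fun _ => hG⟩
  choose E hE using hdes
  obtain ⟨W, hW⟩ : ∃ W : Finset (MvPolynomial (Fin 3) K), W =
      (((P ×ˢ (univ : Finset (Fin 3 × Fin 3))).filter fun p => mv p.1 p.2.1 p.2.2 ≠ 0).image
        fun p => lff (mv p.1 p.2.1 p.2.2)) := ⟨_, rfl⟩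
  have hWne : ∀ P ∈ W, P ≠ 0 ∧ P.IsHomogeneous 1 := by
    intro P hP
    rw [hW] at hP
    obtain ⟨p, hp, rfl⟩ := Finset.mem_image.1 hP
    exact ⟨lff_ne (Finset.mem_filter.1 hp).2, lff_hom _⟩
  refine ⟨Z ∪ W.image E, C + ∑ v ∈ S, wt v * (t v * ∑ i, ((max 2 (m i (y v)) : ℕ) : ℝ) *
    Real.log 2), ?_, fun x hx hZx hFx => ?_⟩
  · intro G hG
    rcases Finset.mem_union.1 hG with h | h
    · exact hZ G h
    · obtain ⟨P, hP, rfl⟩ := Finset.mem_image.1 h
      exact ⟨(hE P (hWne P hP).1).1, 1, (hE P (hWne P hP).1).2.1 1 (hWne P hP).2⟩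
  have hxM : up M x = exv M (exv K x) := rfl
  have h1 := hC x hx (fun G hG => hZx G (Finset.mem_union_left _ hG)) (by
    intro i
    rw [hxM, eval_exv, Ne, map_eq_zero]
    exact hFx i)
  have hxK : exv K x ≠ 0 := exv_ne hx
  have h2 : ∀ v ∈ S, wt v * (t v * (∑ i, tm (av (w v)) F d m (y v) (exv K x) i +
          (2 - (Nat.card {i // eval (y v) (F i) = 0} : ℝ)) *
            ly (av (w v)) (y v) (exv K x))) ≤
      wt v * LL (g v) (fun i => map (algebraMap K M) (F i)) d M' (exv M (y v)) (up M x) +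
        wt v * (t v * ∑ i, ((max 2 (m i (y v)) : ℕ) : ℝ) * Real.log 2) := by
    intro v hv
    rw [← mul_add]
    refine mul_le_mul_of_nonneg_left ?_ (wt_nonneg v)
    obtain ⟨ht, -, hyP⟩ := hw v hv
    have hgv := (hg v hv).2
    have hy0 := hP _ hyP
    have hdx : 0 < dst (av (w v)) (exv K x) (y v) := by
      refine dst_pos (by norm_num) _ hy0 fun a b hab => ?_
      have hmem : lff (mv (y v) a b) ∈ W := by
        rw [hW]
        refine Finset.mem_image.2 ⟨(y v, a, b), Finset.mem_filter.2 ⟨Finset.mem_product.2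
          ⟨hyP, Finset.mem_univ _⟩, hab⟩, rfl⟩
      have h := (hE _ (hWne _ hmem).1).2.2 x (hZx _ (Finset.mem_union_right _
        (Finset.mem_image_of_mem _ hmem)))
      rwa [eval_lff] at h
    have hcard : Nat.card {i // eval (exv M (y v)) (map (algebraMap K M) (F i)) = 0} =
        Nat.card {i // eval (y v) (F i) = 0} := by
      refine Nat.card_congr (Equiv.subtypeEquivRight fun i => ?_)
      rw [eval_exv, map_eq_zero]
    have hLL : LL (g v) (fun i => map (algebraMap K M) (F i)) d M' (exv M (y v))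
        (exv M (exv K x)) = ∑ i, tm (g v) (fun i => map (algebraMap K M) (F i)) d M'
          (exv M (y v)) (exv M (exv K x)) i +
        (2 - (Nat.card {i // eval (exv M (y v)) (map (algebraMap K M) (F i)) = 0} : ℝ)) *
          ly (g v) (exv M (y v)) (exv M (exv K x)) := LL_eq _ _ _ _ _ _
    rw [hxM, hLL, hcard, ly_ch ht hgv (by norm_num),
      Finset.sum_congr rfl fun i _ => tm_ch ht hgv F d M' hxK (y v) (hFx i), ← Finset.mul_sum]
    have h3 : ∑ i, tm (av (w v)) F d m (y v) (exv K x) i ≤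
        ∑ i, tm (av (w v)) F d (fun i y => M' i (exv M y)) (y v) (exv K x) i +
          ∑ i, ((max 2 (m i (y v)) : ℕ) : ℝ) * Real.log 2 := by
      rw [← Finset.sum_add_distrib]
      refine Finset.sum_le_sum fun i _ => ?_
      have h4 := tm_mono (av (w v)) F (d := d) m (fun i y => M' i (exv M y)) hxK hy0 (hd i) hdx
        (by
          show m i (y v) ≤ M' i (exv M (y v))
          rw [hM'y i _ hyP]
          exact le_max_right _ _)
      have h5 : M' i (exv M (y v)) = max 2 (m i (y v)) := hM'y i _ hyP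
      rw [← h5]
      exact h4
    have h6 := mul_le_mul_of_nonneg_left h3 ht.le
    rw [mul_add] at h6
    have h7 : t v * (∑ i, tm (av (w v)) F d m (y v) (exv K x) i +
          (2 - (Nat.card {i // eval (y v) (F i) = 0} : ℝ)) *
            ly (av (w v)) (y v) (exv K x)) =
        t v * ∑ i, tm (av (w v)) F d m (y v) (exv K x) i +
          (2 - (Nat.card {i // eval (y v) (F i) = 0} : ℝ)) *
            (t v * ly (av (w v)) (y v) (exv K x)) := by ring
    rw [h7]
    linarith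
  have h3 := Finset.sum_le_sum h2
  rw [Finset.sum_add_distrib] at h3
  linarith

end Pool.Agent.H7C
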